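import Pool.Agent.FCR.Jq

/-! # The charge of a refined system -/

open Finset

namespace Pool.FCR

open Pool.FCS Pool.FC7

variable {D : Type} {Y : FCS.Sys D} {e : D}

theorem gsv_rl {den nl : Nat} {w : List Nat} (hw : ∀ x ∈ w, Ol x) :
    gsv lsolR lngR den nl (rl w) = gsv lsol lng den nl w := by
  unfold gsv
  have h1 : ((rl w).map fun x => bif lsolR x then 0 else bif lngR x then nl else den) =
      ((rl w).map pj).map fun x => bif lsol x then 0 else bif lng x then nl else den := by
    rw [List.map_map]
    refine List.map_congr_left fun x _ => ?_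
    simp only [Function.comp, lsolR, lngR]
  rw [h1, map_pj_rl hw]

theorem pj_getD' {w : List Nat} (hw : ∀ x ∈ w, Ol x) (i : Nat) :
    pj ((rl w).getD i 0) = w.getD i 0 := by
  by_cases hi : i < w.length
  · exact pj_getD hw hi
  · rw [List.getD_eq_default _ _ (by rw [rl_length]; omega), List.getD_eq_default _ _ (by omega)]
    rfl

theorem gav2_rl {nu : Nat} {h : Nat → Nat} {F : List Nat → List Nat → Nat} {a b : List Nat}
    (ha : ∀ x ∈ a, Ol x) :
    FCS.gav2 nu (fun x => h (pj x)) F (rl a) (rl b) =
      FC7.gav2 nu h (fun a b => F (rl a) (rl b)) a b := by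
  unfold FCS.gav2 FC7.gav2
  have h1 : rl b = [] ↔ b = [] := not_iff_not.1 rl_ne
  by_cases hb : b = []
  · rw [if_pos (h1.2 hb), if_pos hb]
    dsimp only
    rw [pj_getD' ha, rl_length, pj_getD' ha]
  · rw [if_neg (fun h => hb (h1.1 h)), if_neg hb]

/-- the charge of a star of the refined system -/
theorem chv2_rl (hl : Lt Y) {den nl nu dl : Nat} {h : Nat → Nat}
    {F : List Nat → List Nat → Nat} :
    FCS.chv2 lsolR lngR den nl nu dl (fun x => h (pj x)) F (rlS Y) e =
      FC7.chv2 lsol lng den nl nu dl h (fun a b => F (rl a) (rl b)) Y e := by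
  have h1 : ∀ d, (rlS Y).W d = rl (Y.W d) := fun _ => rfl
  have h2 : (rlS Y).nx = Y.nx := rfl
  have h3 : (rlS Y).al = Y.al := rfl
  have h4 : ∀ b : List Nat, rl b = [] ↔ b = [] := fun b => not_iff_not.1 rl_ne
  unfold FCS.chv2 FC7.chv2
  simp only [h1, h2, h3, rl_length, gsv_rl (hl e), h4]
  congr 2
  refine Finset.sum_congr rfl fun i _ => ?_
  exact gav2_rl (hl _)

open Classical in
/-- the gains of the refined system -/
noncomputable def GR (X : List Nat → List Nat → List Nat → ℤ)
    (y : List Nat → List Nat → List Nat → List Nat → ℤ) (D : Type) (Y : FCS.Sys D) (d : D) : ℤ :=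
  if Lt Y then FCS.tgx lsolR X (rlS Y) d + FCS.kgx lsolR y (rlS Y) d else 0

/-- the gains of a refined system have zero sum -/
theorem zeroE_R {X : List Nat → List Nat → List Nat → ℤ}
    {y : List Nat → List Nat → List Nat → List Nat → ℤ}
    (hX : ∀ a b c, X a b c + X b c a + X c a b = 0)
    (hy : ∀ a b c d, y a b c d + y b a d c = 0) : ZeroE (GR X y) := by
  intro D _ Y hY
  unfold GR
  by_cases hl : Lt Y
  · simp only [if_pos hl]
    have hR := rlS_ok hY hl
    have hs : ∀ x y, cmpR x y = true → lsolR x = lsolR y := fun x y h => cmpf_sol h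
    have h1 := FCS.sum_tgx hR hs hX
    have h2 := FCS.sum_kgx hR hy
    have h3 : ∀ d, (if Y.W d ≠ [] then FCS.tgx lsolR X (rlS Y) d + FCS.kgx lsolR y (rlS Y) d
        else 0) = (if (rlS Y).W d ≠ [] then FCS.tgx lsolR X (rlS Y) d else 0) +
          (if (rlS Y).W d ≠ [] then FCS.kgx lsolR y (rlS Y) d else 0) := by
      intro d
      by_cases h : Y.W d ≠ []
      · rw [if_pos h, if_pos (rlS_ne.2 h), if_pos (rlS_ne.2 h)]
      · rw [if_neg h, if_neg (fun h' => h (rlS_ne.1 h')), if_neg (fun h' => h (rlS_ne.1 h')),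
          add_zero]
    rw [Finset.sum_congr rfl fun d _ => h3 d, Finset.sum_add_distrib, h1, h2, add_zero]
  · simp only [if_neg hl, ite_self, Finset.sum_const_zero]

/-- the charge of every star is at most zero, with refined words and gains `X` of the corners of the
triangles and gains `y` of the edges with their two common neighbours -/
def StarOkR (den nl nu dl : Nat) (h : Nat → Nat) (F : List Nat → List Nat → Nat)
    (X : List Nat → List Nat → List Nat → ℤ) (y : List Nat → List Nat → List Nat → List Nat → ℤ) :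
    Prop :=
  StarOkE den nl nu dl h (fun a b => F (rl a) (rl b)) (GR X y)

end Pool.FCR
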