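import Pool.Agent.FCR.Jc

/-! # Star check with refined letters: the tables with projected codes -/

namespace Pool.FCR

open Pool.FCS Pool.FCP

noncomputable section

theorem gJ_eq (t : BT Nat) (A : Nat) : gJ t A = t.getN (jc A) := rfl

theorem gP_eq (t : BT Nat) (p : Nat) : gP t p = t.getN (pr2 (jc (Nat.mod p 1073741824))
    (jc (Nat.div p 1073741824))) := rfl

theorem gE_eq (t : BT Nat) (q : Nat) : gE t q = t.getN (pr3 (jc (Nat.mod q 137438953472))
    (jc (Nat.div q 137438953472))) := rfl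

theorem jc_lt {A : Nat} (h : A < 1073741824) : jc A < 1073741824 := by
  have h1 := jc_d A
  omega

theorem jc_lt37 {A : Nat} (h : A < 137438953472) : jc A < 137438953472 := by
  have h1 := jc_d A
  omega

theorem gJ_J (t : BT Nat) (A : Nat) : gJ t (jc A) = gJ t A := by
  rw [gJ_eq, gJ_eq, jc_i]

theorem gP_1 (t : BT Nat) {A B : Nat} (h : A < 1073741824) :
    gP t (pr2 (jc A) B) = gP t (pr2 A B) := by
  rw [gP_eq, gP_eq, pr2_mod (jc_lt h), pr2_div (jc_lt h), pr2_mod h, pr2_div h, jc_i]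

theorem gP_2 (t : BT Nat) {A B : Nat} (h : A < 1073741824) :
    gP t (pr2 A (jc B)) = gP t (pr2 A B) := by
  rw [gP_eq, gP_eq, pr2_mod h, pr2_div h, pr2_mod h, pr2_div h, jc_i]

theorem gE_1 (t : BT Nat) {A B : Nat} (h : A < 137438953472) :
    gE t (pr3 (jc A) B) = gE t (pr3 A B) := by
  rw [gE_eq, gE_eq, pr3_mod (jc_lt37 h), pr3_div (jc_lt37 h), pr3_mod h, pr3_div h, jc_i]

theorem gE_2 (t : BT Nat) {A B : Nat} (h : A < 137438953472) :
    gE t (pr3 A (jc B)) = gE t (pr3 A B) := by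
  rw [gE_eq, gE_eq, pr3_mod h, pr3_div h, pr3_mod h, pr3_div h, jc_i]

/-- the tables do not see the projection -/
theorem jx_of (W : Pw) (tM tB tC : BT Nat) (V ka : Nat → Nat) :
    Jx (Px.mk W (gJ tM) (gP tB) (gP tC) V ka jc) :=
  ⟨jc_i, jc_m, jc_d, fun A => gJ_J tM A, fun _ _ h => gP_1 tB h, fun _ _ h => gP_2 tB h,
    fun _ _ h => gP_1 tC h, fun _ _ h => gP_2 tC h⟩

/-- the tables do not see the projection -/
theorem jk_of (X : Px) (hX : X.J = jc) (qt : Nat) (tN tB tC tE tY : BT Nat) (U kb : Nat → Nat) :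
    Jk (Kx.mk X qt (gJ tN) (gP tB) (gP tC) (gE tE) (gJ tY) U kb) := by
  refine ⟨?_, ?_, ?_, ?_, ?_, ?_, ?_, ?_⟩ <;> simp only [hX]
  · exact fun A => gJ_J tN A
  · exact fun _ _ h => gP_1 tB h
  · exact fun _ _ h => gP_2 tB h
  · exact fun _ _ h => gP_1 tC h
  · exact fun _ _ h => gP_2 tC h
  · exact fun A => gJ_J tY A
  · exact fun _ _ h => gE_1 tE h
  · exact fun _ _ h => gE_2 tE h

/-- the checks of a table of projected codes -/
theorem tabJ {f : Nat → Nat → Bool} {t : BT Nat} (h : t.allB f = true)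
    (hf : ∀ A m, f (jc A) m = f A m) : ∀ A, gJ t A ≠ 0 → f A (gJ t A) = true := by
  intro A hA
  rw [← hf]
  exact Px.tab h _ hA

/-- the checks of a table of projected pairs -/
theorem tabP {f : Nat → Nat → Bool} {t : BT Nat} (h : t.allB f = true)
    (hf : ∀ p m, f (pr2 (jc (Nat.mod p 1073741824)) (jc (Nat.div p 1073741824))) m = f p m) :
    ∀ p, gP t p ≠ 0 → f p (gP t p) = true := by
  intro A hA
  rw [← hf]
  exact Px.tab h _ hA

/-- the checks of a table of projected edge keys and neighbours -/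
theorem tabE {f : Nat → Nat → Bool} {t : BT Nat} (h : t.allB f = true)
    (hf : ∀ q m, f (pr3 (jc (Nat.mod q 137438953472)) (jc (Nat.div q 137438953472))) m = f q m) :
    ∀ q, gE t q ≠ 0 → f q (gE t q) = true := by
  intro A hA
  rw [← hf]
  exact Px.tab h _ hA

end

end Pool.FCR
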