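import Pool.Agent.FCR.Jr
import Pool.Agent.FCP.Yg
import Pool.Agent.FCP.Yj
import Pool.Agent.FCR.Jd
import Pool.Agent.FC7.StK

/-! # Star check with refined letters: the star inequality for the concrete tables -/

set_option maxRecDepth 1000000

namespace Pool.FCR

open Pool.FCS Pool.FC7

noncomputable section

/-- the pairs of a packed table -/
theorem mo_ok {tP : BT Nat} (x y : Nat) (h : mbs (tP.getN x) y = true) :
    memF y (getF (tP.mp (dN 30)) x) = true := by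
  have h1 : memF y (dN 30 (tP.getN x)) = true := mbs_mem h
  rw [getF_eq, BT.get_mp rfl]
  exact h1

/-- the classes of compatible letters are equal -/
def qtOk (qt : Nat) : Bool := (List.range 31).all fun x => (List.range 31).all fun y =>
  !cmpR x y || Nat.beq (qcl qt (ccf x + 1)) (qcl qt (ccf y + 1))

/-- THE STAR INEQUALITY with flows on triangles and kites, refined system -/
theorem star_ofR2 {den sh nu nl w dl h4 h5 : Nat} {T SG : BT (List (Nat × Nat))}
    {PF PD WL : BT (List Nat)} {cd : Nat → Nat → Nat} {kt FN : Nat → Nat} {mo : Nat → Nat → Bool}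
    {FB : BT (List FCS.Fct)} {CB : BT (List CE2)} {M B C V ka J : Nat → Nat}
    {qt : Nat} {N B' C' E Z U kb : Nat → Nat}
    (hF : ∀ p ∈ FB.toList, ∀ X ∈ p.2, GfR X)
    (hfn : ∀ l, ∀ X ∈ FCS.dF (FN l), GfR X)
    (hcd : ∀ a i, cd a i = cda ((mkQ den sh nu nl T SG PF).pos a 0).cl i)
    (hsh : 12 * den ≤ 4 * (sh + 2 * den))
    (hmo : ∀ x y, mo x y = true → memF y (getF PF x) = true)
    (hkt : ∀ a, kt a ≠ 0 →
      (mkW (mkP (mkQ den sh nu nl T SG PF) w cd dl h4 h5) kt mo FN).kok a (kt a) = true)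
    (hPF : PF.allB (fun x ys => pfdb leb lmr FB x ys (PD.get x)) = true)
    (hCB : CB.allB (Pool.FCP.Kx.mk (Pool.FCP.Px.mk (mkW (mkP (mkQ den sh nu nl T SG PF) w cd dl h4 h5) kt mo FN)
      M B C V ka J) qt N B' C' E Z U kb).ckc = true)
    (hx : Pool.FCP.Kz (Pool.FCP.Kx.mk (Pool.FCP.Px.mk (mkW (mkP (mkQ den sh nu nl T SG PF) w cd dl h4 h5) kt mo FN)
      M B C V ka J) qt N B' C' E Z U kb) WL) (hq : qtOk qt = true)
    (hc0 : ∀ x ∈ al0, chk1 (pq
      ((mkW (mkP (mkQ den sh nu nl T SG PF) w cd dl h4 h5) kt mo FN).cow CB WL)) x = true)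
    (hc1 : ∀ x ∈ al1, chk1 (pq
      ((mkW (mkP (mkQ den sh nu nl T SG PF) w cd dl h4 h5) kt mo FN).cow CB WL)) x = true)
    (D : Type) (Y : FCS.Sys D) (hY : SyG Y) (e : D) (he : (rlS Y).W e ≠ []) :
    FCS.chv2 lsolR lngR den nl nu dl (fun x => hgf h4 h5 (pj x))
      (fun a b => (mkQ den sh nu nl T SG PF).fw (a.map ccf) (b.map ccf)) (rlS Y) e +
      (∑ i ∈ Finset.range ((rlS Y).W e).length,
        tgx lsolR (fun a b c => (Pool.FCP.Px.mk (mkW (mkP (mkQ den sh nu nl T SG PF) w cd dl h4 h5) kt mo FN)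
          M B C V ka J).xw (a.map ccf) (b.map ccf) (c.map ccf)) (rlS Y) ((rlS Y).nx^[i] e) +
      ∑ i ∈ Finset.range ((rlS Y).W e).length,
        kgx lsolR (fun a b c d => (Pool.FCP.Kx.mk (Pool.FCP.Px.mk (mkW (mkP (mkQ den sh nu nl T SG PF) w cd dl h4 h5)
          kt mo FN) M B C V ka J) qt N B' C' E Z U kb).yw (a.map ccf) (b.map ccf) (c.map ccf)
            (d.map ccf)) (rlS Y) ((rlS Y).nx^[i] e)) ≤ 0 := by
  have hlt := lt_Y hY
  have hok := rlS_ok hY.ok hlt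
  have hal : ∀ e, ∀ x ∈ (rlS Y).W e, lalR x = true := by
    intro e x hx
    have h0 : (rlS Y).W e ≠ [] := by
      intro h; rw [h] at hx; simp at hx
    exact (glf_w (gl_R hY h0)).2.2.2.2.1 x hx
  have hks : ∀ e, (rlS Y).W e ≠ [] → wsl wmT (((rlS Y).mp ccf).c e) =
      6 - (((rlS Y).W e).map wlR).sum := fun e he => wsl_w (gl_R hY he)
  have hk3 : ∀ e, (rlS Y).W e ≠ [] → 6 - (((rlS Y).W e).map wlR).sum < 3 := fun e he =>
    (glf_w (gl_R hY he)).2.2.2.1
  have hP2 := fun r hr ha => p2_at3 (r := r) hY hr ha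
  refine Pool.FCP.star_allc4 (S := rlS Y) (K := Pool.FCP.Kx.mk (Pool.FCP.Px.mk (mkW (mkP (mkQ den sh nu nl T SG PF) w cd
    dl h4 h5) kt mo FN) M B C V ka J) qt N B' C' E Z U kb) (f := blf)
    (cc := ccf) (lng := lngR) (cmpS := cmpR) (le := lleR) (ml := lmr) (FB := FB) (PD := PD)
    (CB := CB) (WL := WL) (glY := glYR) hok (fun p hp X hx => hF p hp X hx D Y hY)
    ⟨⟨lvj_ok, lmj_ok, fun e x hx => (lt_all (hal e x hx)).1, fun e x hx =>
      (lt_all (hal e x hx)).2⟩, ?_, ?_, hmo, hkt, fun l X hx => hfn l X hx D Y hY⟩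
    (fun e he => nr_rl hlt (hY.nr e (rlS_ne.1 he))) (fun e he => glYR_cc (gl_R hY he)) ?_ ?_ ?_
    (fun g v h x hx => lev_all h x hx) (fun v x hx => (lg_all hx).1) ?_ ?_ ?_ ?_
    (fun r _ _ _ v _ => rfl) hcd hsh (fun e x hx => ?_) hPF hCB hx
    (fun x y h => Nat.eq_of_beq_eq_true (cmpf_all (f := fun x y =>
      Nat.beq (qcl qt (ccf x + 1)) (qcl qt (ccf y + 1))) hq h))
    (fun x y h => ?_) ?_ e he
  · -- conflicts of the classes, first table
    intro r hr ha hb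
    show Nat.testBit (Nat.shiftRight (gFj (wsl wmT (((rlS Y).mp ccf).c r))
      (ccf (((rlS Y).W r).getD 0 0) + 1))
      (Nat.mul 64 (clL (nfc bmT wmT smT (enc (((rlS Y).W ((rlS Y).al r)).map ccf))))))
      (clF (nfc bmT wmT smT (enc (((rlS Y).W ((rlS Y).al ((rlS Y).nx r))).map ccf)))) = false
    rw [hks r hr, (cl_w (gl_R hY ha)).1, (cl_w (gl_R hY hb)).2]
    obtain ⟨h2, h3⟩ := p4_at3 hY hr ha hb
    have h4 := cFb_all (hk3 r hr) (hk3 _ ha) (hk3 _ hb) (hP2 r hr ha) h2 h3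
    unfold cFb at h4
    rw [tb_testBit] at h4
    have e1 : ∀ N s i : Nat, Nat.testBit (Nat.shiftRight N s) i = Nat.testBit N (s + i) :=
      fun N s i => Nat.testBit_shiftRight ..
    rw [e1]
    exact h4
  · -- conflicts of the classes, second table
    intro r hr ha hb
    show Nat.testBit (Nat.shiftRight (gLj (wsl wmT (((rlS Y).mp ccf).c r))
      (ccf (((rlS Y).W r).getD 0 0) + 1))
      (Nat.mul 64 (clF (nfc bmT wmT smT (enc (((rlS Y).W ((rlS Y).al ((rlS Y).nx r))).map ccf))))))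
      (clL (nfc bmT wmT smT (enc (((rlS Y).W ((rlS Y).al r)).map ccf)))) = false
    rw [hks r hr, (cl_w (gl_R hY ha)).1, (cl_w (gl_R hY hb)).2]
    obtain ⟨h2, h3⟩ := p4_at3 hY hr ha hb
    have h4 := cLb_all (hk3 r hr) (hk3 _ ha) (hk3 _ hb) (hP2 r hr ha) h2 h3
    unfold cLb at h4
    rw [tb_testBit] at h4
    have e1 : ∀ N s i : Nat, Nat.testBit (Nat.shiftRight N s) i = Nat.testBit N (s + i) :=
      fun N s i => Nat.testBit_shiftRight ..
    rw [e1]
    exact h4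
  · -- compatible letters
    intro x y h
    have h0 := cmpf_all (f := fun x y => cme (ccf x + 1) (ccf y + 1) &&
      cmb (blf (ccf x) + 1) (blf (ccf y) + 1)) (by decide +kernel) h
    rw [Bool.and_eq_true] at h0
    exact h0
  · -- letters
    intro e x hx
    have hl := hal e x hx
    obtain ⟨a1, a2, a3, a4, a5, a6, a7, a8, a9⟩ := let_all hl
    exact ⟨a1, a2, a3, a4, a5, a6, a7, a8, fun g hgg => leb_all hl hgg⟩
  · -- impossible letters
    intro e i hi p n hp hn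
    have h0 : (rlS Y).W e ≠ [] := by
      intro h; rw [h] at hi; simp at hi
    show imp (wsl wmT (((rlS Y).mp ccf).c e)) _ p n = false
    rw [hks e h0]
    exact imp_ok (gl_R hY h0) hi hp hn
  · -- pairs of letters
    intro r hr ha
    show r2b (wsl wmT (((rlS Y).mp ccf).c r)) _ (wsl wmT (((rlS Y).mp ccf).c ((rlS Y).al r))) _ =
      true
    rw [hks r hr, hks _ ha]
    exact r2_all (hk3 r hr) (hk3 _ ha) (hP2 r hr ha)
  · intro r hr ha v hv
    show ua (wsl wmT (((rlS Y).mp ccf).c r)) v (wsl wmT (((rlS Y).mp ccf).c ((rlS Y).al r))) _ =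
      true
    rw [hks r hr, hks _ ha]
    exact ua_all (hk3 r hr) (hk3 _ ha) (hP2 r hr ha) hv
  · intro r hr ha v hv
    show ub (wsl wmT (((rlS Y).mp ccf).c r)) v (wsl wmT (((rlS Y).mp ccf).c ((rlS Y).al r))) _ =
      true
    rw [hks r hr, hks _ ha]
    have h1 := hP2 ((rlS Y).al r) ha (by rw [hok.alal]; exact hr)
    rw [hok.alal] at h1
    exact ub_all (hk3 r hr) (hk3 _ ha) h1 hv
  · -- three vertices
    intro r hr ha hb
    show gk (wsl wmT (((rlS Y).mp ccf).c r)) (ccf (((rlS Y).W r).getD 0 0) + 1)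
      (nfc bmT wmT smT (enc (((rlS Y).W ((rlS Y).al r)).map ccf)))
      (nfc bmT wmT smT (enc (((rlS Y).W ((rlS Y).al ((rlS Y).nx r))).map ccf))) = false
    rw [hks r hr, gk_w (gl_R hY ha) (gl_R hY hb)]
    obtain ⟨h2, h3⟩ := p4_at3 hY hr ha hb
    exact gk_all (hk3 r hr) (hk3 _ ha) (hk3 _ hb) (hP2 r hr ha) h2 h3
  · -- prices of the letters
    obtain ⟨-, -, -, a4, a5, -⟩ := let_all (hal e x hx)
    show hdf h4 h5 (ccf x + 1) = hgf h4 h5 (pj x)
    unfold hdf hgf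
    rw [a4, a5]
    unfold lngR lsolR
    cases lsol (pj x)
    · cases lng (pj x) <;> rfl
    · rfl
  · -- solid letters
    have h0 := cmpf_all (f := fun x y => lsolR (ccf x) == lsolR (ccf y)) (by decide +kernel) h
    exact eq_of_beq h0
  · -- all words
    exact glYR_all hc0 hc1

/-- THE STAR INEQUALITY with flows on triangles and kites, refined words -/
theorem star_ofR3 {den sh nu nl w dl h4 h5 : Nat} {T SG : BT (List (Nat × Nat))}
    {PF PD WL : BT (List Nat)} {cd : Nat → Nat → Nat} {kt FN : Nat → Nat} {mo : Nat → Nat → Bool}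
    {FB : BT (List FCS.Fct)} {CB : BT (List CE2)} {M B C V ka J : Nat → Nat}
    {qt : Nat} {N B' C' E Z U kb : Nat → Nat}
    (hF : ∀ p ∈ FB.toList, ∀ X ∈ p.2, GfR X)
    (hfn : ∀ l, ∀ X ∈ FCS.dF (FN l), GfR X)
    (hcd : ∀ a i, cd a i = cda ((mkQ den sh nu nl T SG PF).pos a 0).cl i)
    (hsh : 12 * den ≤ 4 * (sh + 2 * den))
    (hmo : ∀ x y, mo x y = true → memF y (getF PF x) = true)
    (hkt : ∀ a, kt a ≠ 0 →
      (mkW (mkP (mkQ den sh nu nl T SG PF) w cd dl h4 h5) kt mo FN).kok a (kt a) = true)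
    (hPF : PF.allB (fun x ys => pfdb leb lmr FB x ys (PD.get x)) = true)
    (hCB : CB.allB (Pool.FCP.Kx.mk (Pool.FCP.Px.mk (mkW (mkP (mkQ den sh nu nl T SG PF) w cd dl h4 h5) kt mo FN)
      M B C V ka J) qt N B' C' E Z U kb).ckc = true)
    (hx : Pool.FCP.Kz (Pool.FCP.Kx.mk (Pool.FCP.Px.mk (mkW (mkP (mkQ den sh nu nl T SG PF) w cd dl h4 h5) kt mo FN)
      M B C V ka J) qt N B' C' E Z U kb) WL) (hq : qtOk qt = true)
    (hc0 : ∀ x ∈ al0, chk1 (pq
      ((mkW (mkP (mkQ den sh nu nl T SG PF) w cd dl h4 h5) kt mo FN).cow CB WL)) x = true)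
    (hc1 : ∀ x ∈ al1, chk1 (pq
      ((mkW (mkP (mkQ den sh nu nl T SG PF) w cd dl h4 h5) kt mo FN).cow CB WL)) x = true) :
    StarOkR den nl nu dl (hgf h4 h5)
      (fun a b => (mkQ den sh nu nl T SG PF).fw (a.map ccf) (b.map ccf))
      (fun a b c => (Pool.FCP.Px.mk (mkW (mkP (mkQ den sh nu nl T SG PF) w cd dl h4 h5) kt mo FN)
        M B C V ka J).xw (a.map ccf) (b.map ccf) (c.map ccf))
      (fun a b c d => (Pool.FCP.Kx.mk (Pool.FCP.Px.mk (mkW (mkP (mkQ den sh nu nl T SG PF) w cd dl h4 h5) kt mo FN)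
        M B C V ka J) qt N B' C' E Z U kb).yw (a.map ccf) (b.map ccf) (c.map ccf)
          (d.map ccf)) := by
  intro D Y hY e he
  have hlt := lt_Y hY
  have h1 := star_ofR2 hF hfn hcd hsh hmo hkt hPF hCB hx hq hc0 hc1 D Y hY e (rlS_ne.2 he)
  rw [chv2_rl hlt] at h1
  have h2 : ((rlS Y).W e).length = (Y.W e).length := rl_length _
  rw [h2, ← Finset.sum_add_distrib] at h1
  unfold chve GR
  simp only [if_pos hlt]
  exact h1

section

variable {den sh nu nl w dl h4 h5 : Nat} {tT tG tP tK tF tM tB tC tV tA : BT Nat}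
  {tN tB' tC' tE tY tU tb : BT Nat} {WL : BT (List Nat)}

/-- the checks of the packed tables -/
theorem kz_ofR (X : Pool.FCP.Px) (hX : X = Pool.FCP.Px.mk (mkW (mkP (mkQ den sh nu nl (tT.mp dP)
      (tG.mp dP) (tP.mp (dN 30))) w (cdf (tT.mp dP) tG) dl h4 h5) tK.getN
      (fun x y => mbs (tP.getN x) y) tF.getN) (gJ tM) (gP tB) (gP tC) tV.getN tA.getN jc) (qt : Nat)
    (K : Pool.FCP.Kx) (hKx : K = Pool.FCP.Kx.mk X qt (gJ tN) (gP tB') (gP tC') (gE tE) (gJ tY)
      tU.getN tb.getN)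
    (hM : tM.allB X.kM = true) (hB : tB.allB X.kB = true) (hC : tC.allB X.kC = true)
    (hV : tV.allB X.kV = true) (hA : tA.allB X.kA = true)
    (hB' : tB'.allB K.kB = true) (hC' : tC'.allB K.kC = true) (hE : tE.allB K.kE = true)
    (hY : tY.allB K.kY = true) (hU : tU.allB K.kU = true) (hb : tb.allB K.kkb = true)
    (hSG : (tG.mp dP).allB (K.soc WL) = true) (hW : WL.allB K.kW = true) :
    Pool.FCP.Kz K WL := by
  subst hKx
  subst hX
  have hj := jx_of (mkW (mkP (mkQ den sh nu nl (tT.mp dP) (tG.mp dP) (tP.mp (dN 30))) w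
    (cdf (tT.mp dP) tG) dl h4 h5) tK.getN (fun x y => mbs (tP.getN x) y) tF.getN) tM tB tC
      tV.getN tA.getN
  have hk := jk_of _ (show (Pool.FCP.Px.mk (mkW (mkP (mkQ den sh nu nl (tT.mp dP) (tG.mp dP)
    (tP.mp (dN 30))) w (cdf (tT.mp dP) tG) dl h4 h5) tK.getN (fun x y => mbs (tP.getN x) y)
      tF.getN) (gJ tM) (gP tB) (gP tC) tV.getN tA.getN jc).J = jc from rfl) qt tN tB' tC' tE tY
      tU.getN tb.getN
  refine ⟨hj, hk, tabJ hM (Pool.FCP.kM_J hj fun A => jc_sm A), tabP hB (Pool.FCP.kB_J hj),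
    tabP hC (Pool.FCP.kC_J hj), Pool.FCP.Px.tab hV, Pool.FCP.Px.tab hA,
    tabP hB' (Pool.FCP.kB'_J hj hk), tabP hC' (Pool.FCP.kC'_J hj hk),
    tabE hE (Pool.FCP.kE_J hj hk), ?_, Pool.FCP.Px.tab hU, Pool.FCP.Px.tab hb, hSG, hW⟩
  intro p hp h0
  have h1 := Pool.FCP.Px.tab hY _ h0
  rw [← Pool.FCP.kY_J hj hk (fun A => jc_sm A) (fun A hA => jc_sr A hA) hp]
  exact h1

end

/-- THE STAR INEQUALITY with flows on triangles and kites, refined words, from the checks of the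
packed tables; the tables of the triangles and kites have projected codes -/
theorem star_ofR5 {den sh nu nl w dl h4 h5 : Nat} {tT tG tP tK tF tM tB tC tV tA : BT Nat}
    {tN tB' tC' tE tY tU tb : BT Nat}
    {PD WL : BT (List Nat)} {CB : BT (List CE2)} (hF : OkT tF)
    (hsh : 12 * den ≤ 4 * (sh + 2 * den))
    (hK : tK.allB (mkW (mkP (mkQ den sh nu nl (tT.mp dP) (tG.mp dP) (tP.mp (dN 30))) w
      (cdf (tT.mp dP) tG) dl h4 h5) tK.getN (fun x y => mbs (tP.getN x) y) tF.getN).kok = true)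
    (hPF : (tP.mp (dN 30)).allB (fun x ys => pfdb leb lmr (tF.mp dF) x ys (PD.get x)) = true)
    (X : Pool.FCP.Px) (hX : X = Pool.FCP.Px.mk (mkW (mkP (mkQ den sh nu nl (tT.mp dP) (tG.mp dP)
      (tP.mp (dN 30))) w (cdf (tT.mp dP) tG) dl h4 h5) tK.getN (fun x y => mbs (tP.getN x) y)
      tF.getN) (gJ tM) (gP tB) (gP tC) tV.getN tA.getN jc) (qt : Nat) (hq : qtOk qt = true)
    (K : Pool.FCP.Kx) (hKx : K = Pool.FCP.Kx.mk X qt (gJ tN) (gP tB') (gP tC') (gE tE) (gJ tY)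
      tU.getN tb.getN)
    (hz : Pool.FCP.Kz K WL) (hCB : CB.allB K.ckc = true)
    (hc0 : ∀ x ∈ al0, chk1 (pq (X.W.cow CB WL)) x = true)
    (hc1 : ∀ x ∈ al1, chk1 (pq (X.W.cow CB WL)) x = true) :
    StarOkR den nl nu dl (hgf h4 h5)
      (fun a b => (mkQ den sh nu nl (tT.mp dP) (tG.mp dP) (tP.mp (dN 30))).fw
        (a.map ccf) (b.map ccf))
      (fun a b c => X.xw (a.map ccf) (b.map ccf) (c.map ccf))
      (fun a b c d => K.yw (a.map ccf) (b.map ccf) (c.map ccf) (d.map ccf)) := by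
  subst hKx
  subst hX
  exact star_ofR3 (kt := tK.getN) (FN := tF.getN) (mo := fun x y => mbs (tP.getN x) y)
    (FB := tF.mp dF) (PD := PD) (CB := CB) (WL := WL) hF.fb hF.fn
    (fun a i => cdf_ok (Q := mkQ den sh nu nl (tT.mp dP) (tG.mp dP) (tP.mp (dN 30))) rfl a i) hsh
    (fun x y h => mo_ok x y h) (Pw.kt_of hK) hPF hCB hz hq hc0 hc1

/-- the gains of the corners of a triangle have sum zero -/
theorem tri_ofR {K : Pool.FCP.Kx} {WL : BT (List Nat)} (hz : Pool.FCP.Kz K WL)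
    (a b c : List Nat) : K.X.xw a b c + K.X.xw b c a + K.X.xw c a b = 0 :=
  Pool.FCP.Kt.hz hz.kt a b c

/-- the gains of the ends of a kite have sum zero -/
theorem kit_ofR {K : Pool.FCP.Kx} {WL : BT (List Nat)} (hz : Pool.FCP.Kz K WL)
    (a b c d : List Nat) : K.yw a b c d + K.yw b a d c = 0 :=
  hz.hz a b c d

end

end Pool.FCR
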