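import Pool.Agent.FCR.Rl

/-! # Patterns which no star has

At a vertex of full weight the letters `1`, `3`, `18`, `19` are refined: a letter `46`, `47` of a
pattern says that the face has two units. With a letter `0` which is not refined, the vertex has a
letter `8`, `15`, `16`. The pattern says that this is not the case. -/

namespace Pool.FCR

open Pool.FCS Pool.FC7

/-- the weight of a letter of a pattern -/
def wlk (g : Nat) : Nat :=
  Nat.land (Nat.shiftRight 443683810776023131068672874917 (Nat.mul 2 g)) 3

/-- a letter of a pattern is solid -/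
def slk (g : Nat) : Bool := tb 844454995032373 g

/-- the digit `g` of a table -/
def dig (t g : Nat) : Nat := Nat.land (Nat.shiftRight t (Nat.mul 4 g)) 15

/-- the special letters which a letter of a pattern allows -/
def mg (b : Bool) (g : Nat) : Nat :=
  dig (bif b then 4061592100084373293360460409695385294533282215865415106560
    else 94156526030800211462641076851929073193709617550335064145920) g

/-- the special letters before a letter which a letter of a pattern allows -/
def mr (b : Bool) (g : Nat) : Nat :=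
  dig (bif b then 2338492420360307187574439659879050544321590952724613038080
    else 239558786312340678278215777710344722448384) g

/-- the special letters behind a letter which a letter of a pattern allows -/
def ml (b : Bool) (g : Nat) : Nat :=
  dig (bif b then 2338492420360307187574439659879050544321590952724613038080
    else 1056236466922592990590314928961096324808704) g

/-- the letters `46`, `47` resp. `48`, `49` -/
def lsp (b : Bool) (g : Nat) : Bool := tb (bif b then 211106232532992 else 844424930131968) g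

/-- element of a list -/
def gt (l : List Nat) : Nat → Nat :=
  List.rec (motive := fun _ => Nat → Nat) (fun _ => 0)
    (fun x _ ih i => Nat.rec (motive := fun _ => Nat) x (fun k _ => ih k) i) l

/-- length of a list -/
def len (l : List Nat) : Nat := List.rec (motive := fun _ => Nat) 0 (fun _ _ n => Nat.succ n) l

/-- the weight of a word of a pattern -/
def wsk (l : List Nat) : Nat :=
  List.rec (motive := fun _ => Nat) 0 (fun x _ ih => Nat.add (wlk x) ih) l

/-- the word of the neighbour `k` -/
def lk (nb : List (Nat × List Nat)) (k : Nat) : List Nat :=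
  List.rec (motive := fun _ => List Nat) [] (fun p _ ih => bif Nat.beq p.1 k then p.2 else ih) nb

/-- a special letter of a pattern occurs -/
def hsp (b : Bool) (l : List Nat) : Bool :=
  List.rec (motive := fun _ => Bool) false (fun x _ ih => bif lsp b x then true else ih) l

/-- `f` is not `0` at a number below `n` -/
def anyn (f : Nat → Nat) (n : Nat) : Bool :=
  Nat.rec (motive := fun _ => Bool) false
    (fun k ih => bif Nat.beq (f k) 0 then ih else true) n

/-- the special letters at a face shared with the neighbour with the word `h` -/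
def pa (b : Bool) (h : List Nat) (q : Nat) : Nat :=
  List.rec (motive := fun _ => Nat) 15
    (fun _ _ _ => bif b then (bif Nat.beq (wsk h) 6 then q else 0) else q) h

/-- the special letters at the face `j` of the neighbour `i` with the word `g` -/
def slo (b : Bool) (c : List Nat) (nb : List (Nat × List Nat)) (i k1 k2 L : Nat) (g : List Nat)
    (j : Nat) : Nat :=
  Nat.land (mg b (gt g j)) (
  bif Nat.beq j 0 then mr b (gt c k1) else
  bif Nat.beq (Nat.succ j) L then ml b (gt c i) else
  bif Nat.beq j 1 then
    (bif slk (gt c k1) then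
      pa b (lk nb k1) (mr b (gt (lk nb k1) (Nat.sub (len (lk nb k1)) 2))) else 15) else
  bif Nat.beq (Nat.add j 2) L then
    (bif slk (gt c i) then pa b (lk nb k2) (ml b (gt (lk nb k2) 1)) else 15) else
  15)

/-- the coarse letter of a letter of a pattern, `30` if there is none -/
def kg (g : Nat) : Nat :=
  Nat.land (Nat.shiftRight
    167531172931539475590856834282914140976972818322667540059901310105913376
    (Nat.mul 5 g)) 31

/-- the code of the coarse word of a pattern -/
def ecg (l : List Nat) : Nat :=
  List.rec (motive := fun _ => Nat) 0 (fun x _ ih => Nat.add (Nat.succ (kg x)) (Nat.mul 32 ih)) l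

/-- the codes of the classes -/
def lcE : List Nat := [4260897, 2229281, 394273, 590881, 4229153, 3213345, 2197537, 1181729,
  2165793, 2134049, 1118241, 45089, 51233, 4228161, 4260929, 1180737, 2229313, 4229185, 1148993,
  1117249, 1085505, 2134081, 1116257, 2131073, 1115265, 2163841, 1083521, 2132097, 34177, 34369,
  4228130, 3212322, 2196514, 1180706, 4229154, 1181730, 1085474, 2134050, 1118242, 3179586,
  1180738, 1084482, 2131042, 1083490, 1082498, 1115266, 2163747, 2131011, 1083459, 2130980,
  1115172, 1083428, 2132004, 1116196, 1082436, 1115204, 33836, 33842]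

/-- element of a list -/
def inl (n : Nat) (l : List Nat) : Bool :=
  List.rec (motive := fun _ => Bool) false (fun x _ ih => bif Nat.beq x n then true else ih) l

/-- the coarse word is in a class -/
def clg (g : List Nat) : Bool := inl (ecg g) lcE

/-- a special letter of the word `g` at a number below `n` where `f` is `0` -/
def chp (b : Bool) (g : List Nat) (f : Nat → Nat) (n : Nat) : Bool :=
  Nat.rec (motive := fun _ => Bool) false
    (fun k ih => bif lsp b (gt g k) then (bif Nat.beq (f k) 0 then true else ih) else ih) n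

/-- a letter `46`, `47` of the word `g` at a number below `n` where `f` is `0`, or a letter `48`,
`49` and `f` is `0` everywhere, in the classes at this letter -/
def cho (b : Bool) (g : List Nat) (f : Nat → Nat) (n : Nat) : Bool :=
  bif b then chp true g f n
  else bif hsp false g then
    (bif clg g then chp false g f n else (bif anyn f n then false else true)) else false

/-- the neighbour `p` must have and cannot have a special letter -/
def ebp (b : Bool) (c : List Nat) (nb : List (Nat × List Nat)) (d : Nat) (p : Nat × List Nat) :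
    Bool :=
  bif Nat.ble (Nat.succ p.1) d then
    bif Nat.beq (wsk p.2) 6 then
      cho b p.2 (slo b c nb p.1 (bif Nat.beq p.1 0 then Nat.pred d else Nat.pred p.1)
        (bif Nat.beq (Nat.succ p.1) d then 0 else Nat.succ p.1) (len p.2) p.2) (len p.2)
    else false
  else false

/-- the special letters at the face `k` of the centre -/
def slc (b : Bool) (c : List Nat) (nb : List (Nat × List Nat)) (d k : Nat) : Nat :=
  Nat.land (mg b (gt c k)) (Nat.land
    (pa b (lk nb k) (mr b (gt (lk nb k) (Nat.pred (len (lk nb k))))))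
    (pa b (lk nb (bif Nat.beq (Nat.succ k) d then 0 else Nat.succ k))
      (ml b (gt (lk nb (bif Nat.beq (Nat.succ k) d then 0 else Nat.succ k)) 0))))

/-- the centre must have and cannot have a special letter -/
def ecp (b : Bool) (c : List Nat) (nb : List (Nat × List Nat)) (d : Nat) : Bool :=
  bif Nat.beq (wsk c) 6 then cho b c (slc b c nb d) d else false

/-- some neighbour or the centre must have and cannot have a special letter -/
def eo1 (b : Bool) (X : Fct) : Bool :=
  bif ecp b X.1 X.2 (len X.1) then true else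
  List.rec (motive := fun _ => Bool) false
    (fun p _ ih => bif ebp b X.1 X.2 (len X.1) p then true else ih) X.2

/-- both kinds of special letters -/
def eo (X : Fct) : Bool := bif eo1 true X then true else eo1 false X

/-- the pattern and its mirror image -/
def eok (X : Fct) : Bool := bif eo X then eo (mirXk lm X) else false

/-! ## The tables -/

theorem pj_lt27 : ∀ x < 31, pj x < 27 := by decide

theorem lleR_lt {g x : Nat} (hx : x < 31) (h : lleR g x = true) : g < 50 := by
  unfold lleR at h
  split_ifs at h with h1 h2 h3 h4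
  · omega
  · omega
  · omega
  · omega
  · by_contra hc
    have h5 := pj_lt27 x hx
    have h6 : lgen g = [] := by
      unfold lgen
      rw [if_neg (by omega), if_neg (by omega), if_neg (by omega), if_neg (by omega),
        if_neg (by omega), if_neg (by omega), if_neg (by omega), if_neg (by omega),
        if_neg (by omega), if_neg (by omega), if_neg (by omega), if_neg (by omega),
        if_neg (by omega), if_neg (by omega), if_neg (by omega), if_neg (by omega)]
    unfold lle at h
    rw [h6] at h
    simp only [List.any_nil, Bool.or_false, decide_eq_true_eq] at h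
    omega

theorem tab1 : ∀ g < 50, ∀ x < 31, lleR g x = true →
    wlk g = wl (pj x) ∧ (slk g = true → lsol (pj x) = true) := by
  decide +kernel

/-- the special letters -/
def spl (b : Bool) (k : Nat) : Nat := (bif b then [9, 10, 25, 26] else [8, 15, 16, 16]).getD k 0

/-- a special letter -/
def isp (b : Bool) (x : Nat) : Bool := bif b then is2 x else is8 x

theorem tab2 : ∀ b : Bool, ∀ g < 50, ∀ k < 4, lleR g (spl b k) = true → tb (mg b g) k = true := by
  decide +kernel

theorem tab3 : ∀ b : Bool, ∀ k < 4, ∀ y < 31, cmpf (spl b k) y = true → ∀ g < 50,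
    lleR g y = true → tb (mr b g) k = true := by
  decide +kernel

theorem tab3l : ∀ b : Bool, ∀ k < 4, ∀ y < 31, cmpf y (spl b k) = true → ∀ g < 50,
    lleR g y = true → tb (ml b g) k = true := by
  decide +kernel

theorem tab4 : ∀ b : Bool, ∀ x < 31, isp b x = true → ∃ k < 4, spl b k = x := by decide +kernel

/-- a letter which no refinement changes -/
def nrf (x : Nat) : Bool := !tb 786443 x

theorem tab5 : ∀ b : Bool, ∀ k < 4, ∀ y < 31, (cmpf (spl b k) y = true → nrf y = true) ∧
    (cmpf y (spl b k) = true → nrf y = true) := by decide +kernel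

theorem tab5a : ∀ b : Bool, ∀ k < 4, nrf (spl b k) = true := by decide +kernel

theorem tab5b : ∀ x < 31, ∀ y < 31, cmpf x y = true → is2 x = is2 y := by decide +kernel

theorem nrf_rf : ∀ x < 27, nrf x = true → ∀ a b : Bool, rf a b x = x := by decide +kernel

theorem tab6 : ∀ m < 16, ∀ n < 16, ∀ k < 4, tb m k = true → tb n k = true →
    tb (Nat.land m n) k = true := by decide +kernel

theorem tab6a : ∀ k < 4, tb 15 k = true := by decide +kernel

theorem tab7 : ∀ b : Bool, ∀ y < 27, isp b y = false → ∀ g < 50, lsp b g = true → ∀ a : Bool,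
    lleR g (rf (bif b then true else a) (bif b then a else true) y) = false := by
  decide +kernel

theorem tab8 : ∀ x < 31, is2 x = true → lfu x = true := by decide +kernel

theorem dig_lt (t g : Nat) : dig t g < 16 := by
  unfold dig
  exact lt_of_le_of_lt Nat.and_le_right (by norm_num)

theorem land_lt {m n : Nat} (h : m < 16) : Nat.land m n < 16 := lt_of_le_of_lt Nat.and_le_left h

theorem tb_ne {m k : Nat} (h : tb m k = true) : m ≠ 0 := by
  rintro rfl
  unfold tb at h
  simp at h

/-! ## Lists -/

theorem gt_eq : ∀ (l : List Nat) (i : Nat), gt l i = l.getD i 0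
  | [], i => by cases i <;> rfl
  | _ :: _, 0 => rfl
  | x :: l, i + 1 => by
    have h : gt (x :: l) (i + 1) = gt l i := rfl
    rw [h, gt_eq l i]
    simp

theorem len_eq : ∀ l : List Nat, len l = l.length
  | [] => rfl
  | x :: l => by
    have h : len (x :: l) = Nat.succ (len l) := rfl
    rw [h, len_eq l, List.length_cons]

theorem lew_get {le : Nat → Nat → Bool} : ∀ {g w : List Nat}, lew le g w = true →
    g.length = w.length ∧ ∀ k < w.length, le (g.getD k 0) (w.getD k 0) = true
  | [], [], _ => ⟨rfl, fun k hk => absurd hk (by simp)⟩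
  | [], _ :: _, h => by simp [lew] at h
  | _ :: _, [], h => by simp [lew] at h
  | a :: g, b :: w, h => by
    have h1 : (le a b && lew le g w) = true := h
    rw [Bool.and_eq_true] at h1
    obtain ⟨h2, h3⟩ := lew_get h1.2
    refine ⟨by rw [List.length_cons, List.length_cons, h2], fun k hk => ?_⟩
    cases k with
    | zero => exact h1.1
    | succ k =>
      rw [List.getD_cons_succ, List.getD_cons_succ]
      exact h3 k (by rw [List.length_cons] at hk; omega)

theorem wsk_eq : ∀ {g w : List Nat}, lew lleR g w = true → (∀ x ∈ w, x < 31) →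
    wsk g = ((w.map pj).map wl).sum
  | [], [], _, _ => rfl
  | [], _ :: _, h, _ => by simp [lew] at h
  | _ :: _, [], h, _ => by simp [lew] at h
  | a :: g, b :: w, h, hw => by
    have h1 : (lleR a b && lew lleR g w) = true := h
    rw [Bool.and_eq_true] at h1
    have h2 : wsk (a :: g) = wlk a + wsk g := rfl
    have hb := hw b (List.mem_cons_self ..)
    rw [h2, wsk_eq h1.2 fun x hx => hw x (List.mem_cons_of_mem _ hx),
      (tab1 a (lleR_lt hb h1.1) b hb h1.1).1]
    simp

theorem lk_mem : ∀ {nb : List (Nat × List Nat)} {k : Nat}, lk nb k ≠ [] → (k, lk nb k) ∈ nb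
  | [], k, h => absurd rfl h
  | p :: nb, k, h => by
    have e : lk (p :: nb) k = (bif Nat.beq p.1 k then p.2 else lk nb k) := rfl
    rw [e] at h ⊢
    cases hb : Nat.beq p.1 k
    · rw [hb] at h
      exact List.mem_cons_of_mem _ (lk_mem h)
    · have h1 := Nat.eq_of_beq_eq_true hb
      have h2 : (k, p.2) = p := by rw [← h1]
      rw [cond_true, h2]
      exact List.mem_cons_self ..

theorem hsp_ex {b : Bool} : ∀ {l : List Nat}, hsp b l = true → ∃ k < l.length, lsp b (l.getD k 0) = true
  | [], h => by simp [hsp] at h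
  | x :: l, h => by
    have e : hsp b (x :: l) = (bif lsp b x then true else hsp b l) := rfl
    rw [e] at h
    cases h1 : lsp b x
    · rw [h1] at h
      obtain ⟨k, hk, h3⟩ := hsp_ex h
      exact ⟨k + 1, by rw [List.length_cons]; omega, by rw [List.getD_cons_succ]; exact h3⟩
    · exact ⟨0, by simp, h1⟩

theorem anyn_zero {f : Nat → Nat} : ∀ {n : Nat}, anyn f n = false → ∀ k < n, f k = 0
  | 0, _, k, hk => absurd hk (by omega)
  | n + 1, h, k, hk => by
    have e : anyn f (n + 1) = (bif Nat.beq (f n) 0 then anyn f n else true) := rfl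
    rw [e] at h
    cases h1 : Nat.beq (f n) 0
    · rw [h1] at h; simp at h
    · rw [h1] at h
      rcases Nat.lt_succ_iff_lt_or_eq.1 hk with h2 | h2
      · exact anyn_zero h k h2
      · rw [h2]; exact Nat.eq_of_beq_eq_true h1

theorem pa_tb {b : Bool} {h : List Nat} {q k : Nat} (hk : k < 4)
    (h1 : h ≠ [] → (b = true → wsk h = 6) ∧ tb q k = true) : tb (pa b h q) k = true := by
  cases h with
  | nil => exact tab6a k hk
  | cons a l =>
    obtain ⟨h2, h3⟩ := h1 (List.cons_ne_nil _ _)
    have e : pa b (a :: l) q = (bif b then (bif Nat.beq (wsk (a :: l)) 6 then q else 0) else q) := rfl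
    rw [e]
    cases b
    · exact h3
    · rw [h2 rfl]; exact h3

theorem pa_lt {b : Bool} {h : List Nat} {q : Nat} (hq : q < 16) : pa b h q < 16 := by
  cases h with
  | nil => show 15 < 16; norm_num
  | cons a l =>
    have e : pa b (a :: l) q = (bif b then (bif Nat.beq (wsk (a :: l)) 6 then q else 0) else q) := rfl
    rw [e]
    cases b
    · exact hq
    · cases Nat.beq (wsk (a :: l)) 6
      · show 0 < 16; norm_num
      · exact hq

/-! ## Words -/

theorem getD_lt {u : List Nat} {n : Nat} (hn : 0 < n) (h : ∀ x ∈ u, x < n) (j : Nat) :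
    u.getD j 0 < n := by
  by_cases hj : j < u.length
  · rw [List.getD_eq_getElem _ _ hj]
    exact h _ (List.getElem_mem hj)
  · rw [List.getD_eq_default _ _ (by omega)]
    exact hn

theorem ol_lt {u : List Nat} (h : ∀ x ∈ u, Ol x) (j : Nat) : u.getD j 0 < 27 :=
  getD_lt (by norm_num) (fun x hx => (h x hx).1) j

theorem rl_getD {u : List Nat} {j : Nat} (hj : j < u.length) :
    (rl u).getD j 0 = rf (ful u) (fbL u) (u.getD j 0) := by
  unfold rl
  rw [List.getD_eq_getElem _ _ (by rw [List.length_map]; exact hj), List.getElem_map,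
    List.getD_eq_getElem _ _ hj]

/-- the pattern of a word at a letter which no refinement changes -/
theorem le_nrf {g u : List Nat} (h : lew lleR g (rl u) = true) (hu : ∀ x ∈ u, Ol x) {j : Nat}
    (hj : j < u.length) (hn : nrf (u.getD j 0) = true) :
    lleR (g.getD j 0) (u.getD j 0) = true := by
  have h1 := (lew_get h).2 j (by rw [rl_length]; exact hj)
  rwa [rl_getD hj, nrf_rf _ (ol_lt hu j) hn] at h1

theorem wsk_rl {g u : List Nat} (h : lew lleR g (rl u) = true) (hu : ∀ x ∈ u, Ol x) :
    wsk g = (u.map wl).sum := by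
  rw [wsk_eq h (fun x hx => rl_sm hu x hx), map_pj_rl hu]

/-- a full word with a letter which is not refined has a special letter -/
theorem ex_sp {g u : List Nat} (h : lew lleR g (rl u) = true) (hu : ∀ x ∈ u, Ol x)
    (h6 : wsk g = 6) (hb : hsp false g = true) : ∃ j < u.length, isp false (u.getD j 0) = true := by
  by_contra hc
  obtain ⟨hl, hg⟩ := lew_get h
  rw [rl_length] at hl hg
  have h7 : ful u = true := by
    unfold ful
    rw [decide_eq_true_eq, ← wsk_rl h hu]
    exact h6
  have h8 : ∀ x ∈ u, isp false x = false := by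
    intro x hx
    obtain ⟨j, hj, rfl⟩ := List.getElem_of_mem hx
    have h9 : ¬ isp false (u.getD j 0) = true := fun h0 => hc ⟨j, hj, h0⟩
    rw [List.getD_eq_getElem _ _ hj] at h9
    simpa using h9
  obtain ⟨k, hk, h1⟩ := hsp_ex hb
  rw [hl] at hk
  have h2 := hg k hk
  rw [rl_getD hk] at h2
  have h27 := ol_lt hu k
  have h5 : isp false (u.getD k 0) = false := by
    rw [List.getD_eq_getElem _ _ hk]
    exact h8 _ (List.getElem_mem hk)
  have h31 : rf (ful u) (fbL u) (u.getD k 0) < 31 := by
    have h3 : u.getD k 0 ∈ u := by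
      rw [List.getD_eq_getElem _ _ hk]
      exact List.getElem_mem hk
    exact rf_lt (hu _ h3)
  have h50 := lleR_lt h31 h2
  have h3 : fbL u = true := by
    unfold fbL
    rw [h7, Bool.true_and, Bool.or_eq_true, List.all_eq_true]
    right
    intro x hx
    have : is8 x = false := h8 x hx
    rw [this]
    rfl
  have h4 := tab7 false _ h27 h5 _ h50 h1 (ful u)
  rw [h3] at h2
  exact absurd h2 (by rw [Bool.not_eq_true]; exact h4)

theorem tabk : ∀ g < 50, ∀ x < 31, lleR g x = true → kg g < 30 → kc (pj x) = kg g := by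
  decide +kernel

theorem kg_lt (g : Nat) : kg g < 32 := by
  unfold kg
  exact lt_of_le_of_lt Nat.and_le_right (by norm_num)

theorem ecg_eq : ∀ l : List Nat, ecg l = enc (l.map kg)
  | [] => rfl
  | x :: l => by
    have h : ecg (x :: l) = Nat.succ (kg x) + 32 * ecg l := rfl
    rw [h, ecg_eq l, List.map_cons, enc_cons]

theorem inl_mem {n : Nat} : ∀ {l : List Nat}, inl n l = true → n ∈ l
  | [], h => by simp [inl] at h
  | x :: l, h => by
    have e : inl n (x :: l) = (bif Nat.beq x n then true else inl n l) := rfl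
    rw [e] at h
    cases hb : Nat.beq x n
    · rw [hb] at h
      exact List.mem_cons_of_mem _ (inl_mem h)
    · rw [Nat.eq_of_beq_eq_true hb]
      exact List.mem_cons_self ..

theorem lcE_eq : lcE = lcW.map enc := by decide +kernel

theorem lcW_lt : ∀ v ∈ lcW, ∀ x ∈ v, x < 30 := by decide +kernel

/-- `enc` with digits at most `32` -/
theorem enc_inj' : ∀ {v l : List Nat}, (∀ x ∈ v, x < 30) → (∀ x ∈ l, x < 32) → enc v = enc l →
    v = l
  | [], [], _, _, _ => rfl
  | [], a :: l, _, _, h => by
    rw [enc_cons] at h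
    have : enc ([] : List Nat) = 0 := rfl
    omega
  | a :: v, [], _, _, h => by
    rw [enc_cons] at h
    have : enc ([] : List Nat) = 0 := rfl
    omega
  | a :: v, b :: l, hv, hl, h => by
    rw [enc_cons, enc_cons] at h
    have h1 := hv a (List.mem_cons_self ..)
    have h2 := hl b (List.mem_cons_self ..)
    have h3 : a = b := by omega
    have h4 : enc v = enc l := by omega
    rw [h3, enc_inj' (fun x hx => hv x (List.mem_cons_of_mem _ hx))
      (fun x hx => hl x (List.mem_cons_of_mem _ hx)) h4]

/-- the coarse word of a pattern in a class -/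
theorem clg_lcl {g u : List Nat} (h : lew lleR g (rl u) = true) (hu : ∀ x ∈ u, Ol x)
    (hc : clg g = true) : lcl u = true := by
  have h1 := inl_mem hc
  rw [lcE_eq, ecg_eq] at h1
  obtain ⟨v, hv, h2⟩ := List.mem_map.1 h1
  have h3 := lcW_lt v hv
  have h4 : v = g.map kg := enc_inj' h3 (by
    intro x hx
    obtain ⟨y, _, rfl⟩ := List.mem_map.1 hx
    exact kg_lt y) h2
  obtain ⟨hl, hg⟩ := lew_get h
  rw [rl_length] at hl hg
  have h5 : u.map kc = v := by
    rw [h4]
    refine List.ext_getElem (by rw [List.length_map, List.length_map, hl]) fun k hk1 hk2 => ?_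
    rw [List.length_map] at hk1 hk2
    rw [List.getElem_map, List.getElem_map]
    have h6 := hg k hk1
    have h7 : (rl u).getD k 0 < 31 := getD_lt (by norm_num) (rl_sm hu) k
    have h8 : kg (g.getD k 0) < 30 := by
      refine h3 _ ?_
      rw [h4, List.getD_eq_getElem _ _ hk2]
      exact List.mem_map_of_mem (List.getElem_mem hk2)
    have h9 := tabk _ (lleR_lt h7 h6) _ h7 h6 h8
    rw [pj_getD hu hk1, List.getD_eq_getElem _ _ hk2, List.getD_eq_getElem _ _ hk1] at h9
    exact h9
  unfold lcl
  rw [h5]
  exact decide_eq_true hv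

/-- a letter `46`, `47` in a full word, a letter `48`, `49` in a full word of a class -/
theorem is_spl {b : Bool} {g u : List Nat} (h : lew lleR g (rl u) = true) (hu : ∀ x ∈ u, Ol x)
    (h6 : wsk g = 6) (hcl : b = true ∨ clg g = true) {k : Nat} (hk : k < u.length)
    (hb : lsp b (g.getD k 0) = true) : isp b (u.getD k 0) = true := by
  have h7 : ful u = true := by
    unfold ful
    rw [decide_eq_true_eq, ← wsk_rl h hu]
    exact h6
  obtain ⟨hl, hg⟩ := lew_get h
  rw [rl_length] at hl hg
  have h2 := hg k hk
  rw [rl_getD hk, h7] at h2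
  have h27 := ol_lt hu k
  have h31 : rf true (fbL u) (u.getD k 0) < 31 := by
    have h3 : u.getD k 0 ∈ u := by
      rw [List.getD_eq_getElem _ _ hk]
      exact List.getElem_mem hk
    exact rf_lt (hu _ h3)
  have h50 := lleR_lt h31 h2
  by_contra hc
  rw [Bool.not_eq_true] at hc
  cases b
  · have h8 : clg g = true := hcl.resolve_left (by simp)
    have h9 : fbL u = true := by
      unfold fbL
      rw [h7, clg_lcl h hu h8]
      rfl
    rw [h9] at h2
    have h4 := tab7 false _ h27 hc _ h50 hb true
    exact absurd h2 (by rw [Bool.not_eq_true]; exact h4)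
  · have h4 := tab7 true _ h27 hc _ h50 hb (fbL u)
    exact absurd h2 (by rw [Bool.not_eq_true]; exact h4)

theorem chp_ex {b : Bool} {g : List Nat} {f : Nat → Nat} : ∀ {n : Nat}, chp b g f n = true →
    ∃ j < n, lsp b (g.getD j 0) = true ∧ f j = 0
  | 0, h => by simp [chp] at h
  | n + 1, h0 => by
    have h1 : (bif lsp b (gt g n) then (bif Nat.beq (f n) 0 then true else chp b g f n) else
      chp b g f n) = true := h0
    cases h2 : lsp b (gt g n)
    · rw [h2] at h1
      obtain ⟨j, hj, h3⟩ := chp_ex h1
      exact ⟨j, by omega, h3⟩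
    · rw [h2] at h1
      cases h4 : Nat.beq (f n) 0
      · rw [h4] at h1
        obtain ⟨j, hj, h3⟩ := chp_ex h1
        exact ⟨j, by omega, h3⟩
      · rw [gt_eq] at h2
        exact ⟨n, by omega, h2, Nat.eq_of_beq_eq_true h4⟩

/-- a special letter of a word where `f` is `0` -/
theorem cho_ex {b : Bool} {g u : List Nat} (h : lew lleR g (rl u) = true) (hu : ∀ x ∈ u, Ol x)
    (h6 : wsk g = 6) {f : Nat → Nat} (hc : cho b g f u.length = true) :
    ∃ j < u.length, isp b (u.getD j 0) = true ∧ f j = 0 := by
  cases b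
  · have e : cho false g f u.length = (bif hsp false g then (bif clg g then chp false g f u.length
      else (bif anyn f u.length then false else true)) else false) := rfl
    rw [e] at hc
    have h1 : hsp false g = true := by
      cases hb : hsp false g
      · rw [hb] at hc; simp at hc
      · rfl
    rw [h1, cond_true] at hc
    cases hcl : clg g
    · rw [hcl, cond_false] at hc
      have h2 : anyn f u.length = false := by
        cases hb : anyn f u.length
        · rfl
        · rw [hb] at hc; simp at hc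
      obtain ⟨j, hj, h3⟩ := ex_sp h hu h6 h1
      exact ⟨j, hj, h3, anyn_zero h2 j hj⟩
    · rw [hcl, cond_true] at hc
      obtain ⟨j, hj, h3, h4⟩ := chp_ex hc
      exact ⟨j, hj, is_spl h hu h6 (Or.inr hcl) hj h3, h4⟩
  · have hc' : chp true g f u.length = true := hc
    obtain ⟨j, hj, h3, h4⟩ := chp_ex hc'
    exact ⟨j, hj, is_spl h hu h6 (Or.inl rfl) hj h3, h4⟩

/-- a letter of a pattern before or behind a special letter -/
theorem mr_tb {b : Bool} {h v : List Nat} (hw : lew lleR h (rl v) = true) (hv : ∀ x ∈ v, Ol x)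
    {j : Nat} (hj : j < v.length) {k : Nat} (hk : k < 4)
    (hc : cmpf (spl b k) (v.getD j 0) = true) : tb (mr b (h.getD j 0)) k = true := by
  have h27 := ol_lt hv j
  have h1 := le_nrf hw hv hj ((tab5 b k hk _ (by omega)).1 hc)
  exact tab3 b k hk _ (by omega) hc _ (lleR_lt (by omega) h1) h1

theorem ml_tb {b : Bool} {h v : List Nat} (hw : lew lleR h (rl v) = true) (hv : ∀ x ∈ v, Ol x)
    {j : Nat} (hj : j < v.length) {k : Nat} (hk : k < 4)
    (hc : cmpf (v.getD j 0) (spl b k) = true) : tb (ml b (h.getD j 0)) k = true := by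
  have h27 := ol_lt hv j
  have h1 := le_nrf hw hv hj ((tab5 b k hk _ (by omega)).2 hc)
  exact tab3l b k hk _ (by omega) hc _ (lleR_lt (by omega) h1) h1

theorem mg_tb {b : Bool} {h v : List Nat} (hw : lew lleR h (rl v) = true) (hv : ∀ x ∈ v, Ol x)
    {j : Nat} (hj : j < v.length) {k : Nat} (hk : k < 4) (hc : spl b k = v.getD j 0) :
    tb (mg b (h.getD j 0)) k = true := by
  have h27 := ol_lt hv j
  have h1 := le_nrf hw hv hj (by rw [← hc]; exact tab5a b k hk)
  have h2 := lleR_lt (by omega) h1
  rw [← hc] at h1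
  exact tab2 b _ h2 k hk h1

/-! ## Stars -/

variable {D : Type} {Y : Sys D}

theorem lt_of_SyG (hY : SyG Y) : Lt Y := by
  intro e x hx
  have hne : Y.W e ≠ [] := List.ne_nil_of_mem hx
  have h := hY.gl e hne
  unfold glf glw at h
  simp only [Bool.and_eq_true] at h
  have h1 := h.1.1.1.1.2
  rw [List.all_eq_true] at h1
  have h2 := h1 x hx
  unfold lal at h2
  simp only [Bool.or_eq_true, Bool.and_eq_true, decide_eq_true_eq] at h2
  constructor
  · omega
  · omega

/-- a vertex without full weight has no face with two units -/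
theorem full_of_is2 (hY : SyG Y) {e : D} {j : Nat} (hj : j < (Y.W e).length)
    (h2 : is2 ((Y.W e).getD j 0) = true) : ((Y.W e).map wl).sum = 6 := by
  have hne : Y.W e ≠ [] := List.length_pos_iff.1 (by omega)
  have h := hY.gl e hne
  unfold glf glw at h
  simp only [Bool.and_eq_true, Bool.or_eq_true, decide_eq_true_eq] at h
  rcases h.1.1.2 with h3 | h3
  · exact h3
  · rw [List.all_eq_true] at h3
    have h4 := h3 _ (List.getElem_mem hj)
    have h6 := ol_lt (lt_of_SyG hY e) j
    have h5 := tab8 _ (by omega) h2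
    rw [List.getD_eq_getElem _ _ hj] at h5
    rw [h5] at h4
    simp at h4

/-- the weight of a pattern of a word with two units -/
theorem wsk_two (hY : SyG Y) {b : Bool} {e : D} {h : List Nat}
    (hw : lew lleR h (rl (Y.W e)) = true) {j : Nat} (hj : j < (Y.W e).length) {k : Nat} (hk : k < 4)
    (hc : cmpf (spl b k) ((Y.W e).getD j 0) = true ∨ cmpf ((Y.W e).getD j 0) (spl b k) = true)
    (hb : b = true) : wsk h = 6 := by
  subst hb
  rw [wsk_rl hw (lt_of_SyG hY e)]
  have h6 := ol_lt (lt_of_SyG hY e) j
  have h7 : spl true k < 31 ∧ is2 (spl true k) = true := by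
    have : ∀ k < 4, spl true k < 31 ∧ is2 (spl true k) = true := by decide +kernel
    exact this k hk
  refine full_of_is2 hY hj ?_
  rcases hc with hc | hc
  · rw [← tab5b _ h7.1 _ (by omega) hc]; exact h7.2
  · rw [tab5b _ (by omega) _ h7.1 hc]; exact h7.2

theorem getD_rot {w : List Nat} {n j : Nat} (hj : j < w.length) :
    (w.rotate n).getD j 0 = w.getD ((j + n) % w.length) 0 := by
  rw [List.getD_eq_getElem _ _ (by rw [List.length_rotate]; exact hj), List.getElem_rotate,
    List.getD_eq_getElem _ _ (Nat.mod_lt _ (by omega))]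

/-- the face behind the side opposite to the vertex -/
theorem tri_cmp (hY : SyG Y) {f : D} (hf : Y.W f ≠ []) (hs : lsol ((Y.W f).getD 0 0) = true)
    (h1 : Y.W (Y.al f) ≠ []) (h2 : Y.W (Y.al (Y.nx f)) ≠ []) :
    cmpf ((Y.W (Y.al (Y.nx f))).getD 1 0)
      ((Y.W (Y.al f)).getD ((Y.W (Y.al f)).length - 2) 0) = true := by
  obtain ⟨r, hr1, hr2⟩ := hY.ok.tri f hf hs
  have hr : Y.W r ≠ [] := hY.ok.nn r (by rw [hr1]; exact h1)
  have h3 := hY.ok.rot r hr
  rw [hr1] at h3
  have h4 := hY.ok.rot _ h2
  have h5 : Y.W (Y.nx (Y.al (Y.nx f))) ≠ [] := hY.ok.ne_nx h2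
  have h6 : Y.al (Y.nx (Y.al (Y.nx f))) = r := by rw [← hr2]; exact hY.ok.alal r
  have h7 := hY.ok.cmp _ h5 (by rw [h6]; exact hr)
  rw [h6, h4] at h7
  have l1 := hY.ok.len _ h2
  have l2 := hY.ok.len _ hr
  rw [getD_rot (by omega), Nat.zero_add, Nat.mod_eq_of_lt (by omega)] at h7
  rw [h3, List.length_rotate, getD_rot (by omega)]
  have h8 : ((Y.W r).length - 2 + 1) % (Y.W r).length = (Y.W r).length - 1 := by
    rw [Nat.mod_eq_of_lt (by omega)]
    omega
  rw [h8]
  exact h7

/-- the successor in the rotation at the centre -/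
theorem pos2 (hY : SyG Y) {e : D} (he : Y.W e ≠ []) {i k2 : Nat} (hi : i < (Y.W e).length)
    (hk2 : (bif Nat.beq (Nat.succ i) (Y.W e).length then 0 else Nat.succ i) = k2) :
    k2 < (Y.W e).length ∧ Y.nx^[k2] e = Y.nx (Y.nx^[i] e) := by
  have hper := hY.ok.per e he
  cases hb : Nat.beq (Nat.succ i) (Y.W e).length
  · have h0 : Nat.succ i ≠ (Y.W e).length := Nat.ne_of_beq_eq_false hb
    rw [hb, cond_false] at hk2
    subst hk2
    exact ⟨by omega, by rw [← Function.iterate_succ_apply' Y.nx]⟩
  · have h0 : Nat.succ i = (Y.W e).length := Nat.eq_of_beq_eq_true hb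
    rw [hb, cond_true] at hk2
    subst hk2
    refine ⟨by omega, ?_⟩
    rw [← Function.iterate_succ_apply' Y.nx, h0, hper]
    rfl

/-- the predecessor in the rotation at the centre -/
theorem pos1 (hY : SyG Y) {e : D} (he : Y.W e ≠ []) {i k1 : Nat} (hi : i < (Y.W e).length)
    (hk1 : (bif Nat.beq i 0 then Nat.pred (Y.W e).length else Nat.pred i) = k1) :
    k1 < (Y.W e).length ∧ Y.nx (Y.nx^[k1] e) = Y.nx^[i] e := by
  have hper := hY.ok.per e he
  cases hb : Nat.beq i 0
  · have h0 : i ≠ 0 := Nat.ne_of_beq_eq_false hb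
    rw [hb, cond_false] at hk1
    obtain ⟨k, hk⟩ := Nat.exists_eq_succ_of_ne_zero h0
    rw [hk, Nat.pred_succ] at hk1
    subst hk1
    exact ⟨by omega, by rw [hk, Function.iterate_succ_apply']⟩
  · have h0 : i = 0 := Nat.eq_of_beq_eq_true hb
    rw [hb, cond_true] at hk1
    subst hk1
    refine ⟨by rw [Nat.pred_eq_sub_one]; omega, ?_⟩
    rw [← Function.iterate_succ_apply' Y.nx, Nat.succ_pred_eq_of_pos (by omega), hper, h0]
    rfl

/-- the last letter of a word is the first letter of the word before it -/
theorem last_nx (hY : SyG Y) {f : D} (hf : Y.W f ≠ []) :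
    (Y.W (Y.nx f)).getD ((Y.W (Y.nx f)).length - 1) 0 = (Y.W f).getD 0 0 := by
  have h := hY.ok.len f hf
  rw [hY.ok.rot f hf, List.length_rotate, getD_rot (by omega)]
  have e1 : (Y.W f).length - 1 + 1 = (Y.W f).length := by omega
  rw [e1, Nat.mod_self]

theorem first_it (hY : SyG Y) {e : D} (he : Y.W e ≠ []) {k : Nat} (hk : k < (Y.W e).length) :
    (Y.W (Y.nx^[k] e)).getD 0 0 = (Y.W e).getD k 0 := by
  rw [hY.ok.W_iter he k, getD_rot (by omega), Nat.zero_add, Nat.mod_eq_of_lt hk]

/-- the letters of the face before a dart -/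
theorem cmp_prev (hY : SyG Y) {f : D} (hf : Y.W f ≠ []) (hu : Y.W (Y.al (Y.nx f)) ≠ []) :
    cmpf ((Y.W (Y.al (Y.nx f))).getD 0 0) ((Y.W f).getD 0 0) = true := by
  have hn : Y.W (Y.nx f) ≠ [] := hY.ok.ne_nx hf
  have h1 := hY.ok.cmp (Y.al (Y.nx f)) hu (by rw [hY.ok.alal]; exact hn)
  rw [hY.ok.alal, last_nx hY hf] at h1
  exact h1

theorem nn_al {h : List Nat} {d : D} (hh : h ≠ [])
    (hw : lew lleR h (rl (Y.W d)) = true) : Y.W d ≠ [] ∧ h.length = (Y.W d).length := by
  have h1 := (lew_get hw).1
  rw [rl_length] at h1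
  refine ⟨?_, h1⟩
  intro h0
  rw [h0] at h1
  exact hh (List.eq_nil_of_length_eq_zero h1)

theorem ebp_false (hY : SyG Y) {b : Bool} {c : List Nat} {nb : List (Nat × List Nat)} {e : D}
    (hm : Mtn lleR lsolR (rlS Y) (c, nb) e) {p : Nat × List Nat} (hp : p ∈ nb) :
    ebp b c nb c.length p = false := by
  rw [Bool.eq_false_iff]
  intro hc
  unfold ebp at hc
  have hi : p.1 < c.length := by
    cases hb : Nat.ble (Nat.succ p.1) c.length
    · rw [hb] at hc; simp at hc
    · exact Nat.le_of_ble_eq_true hb
  rw [Nat.ble_eq_true_of_le hi, cond_true] at hc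
  have h6 : wsk p.2 = 6 := by
    cases hb : Nat.beq (wsk p.2) 6
    · rw [hb] at hc; simp at hc
    · exact Nat.eq_of_beq_eq_true hb
  rw [h6] at hc
  have hc1 : cho b p.2 (slo b c nb p.1
      (bif Nat.beq p.1 0 then Nat.pred c.length else Nat.pred p.1)
      (bif Nat.beq (Nat.succ p.1) c.length then 0 else Nat.succ p.1) (len p.2) p.2) (len p.2)
      = true := hc
  obtain ⟨k1, hk1⟩ : ∃ k, (bif Nat.beq p.1 0 then Nat.pred c.length else Nat.pred p.1) = k := ⟨_, rfl⟩
  obtain ⟨k2, hk2⟩ : ∃ k, (bif Nat.beq (Nat.succ p.1) c.length then 0 else Nat.succ p.1) = k :=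
    ⟨_, rfl⟩
  rw [hk1, hk2, len_eq] at hc1
  -- the words
  obtain ⟨hm1, hm2⟩ := hm
  have hm1' : lew lleR c (rl (Y.W e)) = true := hm1
  have hL := lt_of_SyG hY
  have hcl := (lew_get hm1').1
  rw [rl_length] at hcl
  have he : Y.W e ≠ [] := List.length_pos_iff.1 (by omega)
  have hne : p.2 ≠ [] := by
    intro h0
    rw [h0] at h6
    exact absurd h6 (by decide)
  have hnbw : ∀ q : Nat × List Nat, q ∈ nb → q.2 ≠ [] →
      lew lleR q.2 (rl (Y.W (Y.al (Y.nx^[q.1] e)))) = true := fun q hq h0 => (hm2 q hq).2 h0
  have hw := hnbw p hp hne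
  rw [hcl] at hi hk1 hk2
  obtain ⟨hk1l, hk1n⟩ := pos1 hY he hi hk1
  obtain ⟨hk2l, hk2n⟩ := pos2 hY he hi hk2
  have hW1 := first_it hY he hk1l
  have hWi := first_it hY he hi
  obtain ⟨f, hf⟩ : ∃ f, Y.nx^[p.1] e = f := ⟨_, rfl⟩
  obtain ⟨f', hf'⟩ : ∃ f', Y.nx^[k1] e = f' := ⟨_, rfl⟩
  rw [hf] at hw hk1n hk2n hWi
  rw [hf'] at hk1n hW1
  have hf0 : Y.W f ≠ [] := by rw [← hf]; exact hY.ok.ne_iter he p.1
  have hf'0 : Y.W f' ≠ [] := by rw [← hf']; exact hY.ok.ne_iter he k1
  obtain ⟨hu0, hgl⟩ := nn_al hne hw
  have hul := hY.ok.len (Y.al f) hu0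
  have hc2 : cho b p.2 (slo b c nb p.1 k1 k2 p.2.length p.2) (Y.W (Y.al f)).length = true := by
    rw [← hgl]
    exact hc1
  obtain ⟨j, hj, h2, hj'⟩ := cho_ex hw (hL _) h6 hc2
  have h27 := ol_lt (hL (Y.al f)) j
  obtain ⟨k, hk, hkx⟩ := tab4 b _ (by omega) h2
  -- a solid face of the centre
  have hsolc : ∀ m < (Y.W e).length, slk (gt c m) = true → lsol ((Y.W e).getD m 0) = true := by
    intro m hmk hs
    rw [gt_eq] at hs
    have h1 := (lew_get hm1').2 m (by rw [rl_length]; exact hmk)
    have h3 : (rl (Y.W e)).getD m 0 < 31 := getD_lt (by norm_num) (rl_sm (hL e)) m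
    have h4 := (tab1 _ (lleR_lt h3 h1) _ h3 h1).2 hs
    rwa [pj_getD (hL e) hmk] at h4
  have hlk : ∀ m, lk nb m ≠ [] →
      lew lleR (lk nb m) (rl (Y.W (Y.al (Y.nx^[m] e)))) = true := fun m hmk =>
    hnbw _ (lk_mem hmk) hmk
  -- the cases
  have hfin : ∀ q, q < 16 → tb q k = true → Nat.land (mg b (gt p.2 j)) q ≠ 0 := by
    intro q hq hqk
    rw [gt_eq]
    exact tb_ne (tab6 _ (dig_lt _ _) q hq k hk (mg_tb hw (hL _) hj hk hkx) hqk)
  unfold slo at hj'
  refine hfin _ ?_ ?_ hj'
  · cases Nat.beq j 0
    · cases Nat.beq (Nat.succ j) p.2.length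
      · cases Nat.beq j 1
        · cases Nat.beq (Nat.add j 2) p.2.length
          · show 15 < 16
            norm_num
          · cases slk (gt c p.1)
            · show 15 < 16
              norm_num
            · exact pa_lt (dig_lt _ _)
        · cases slk (gt c k1)
          · show 15 < 16
            norm_num
          · exact pa_lt (dig_lt _ _)
      · exact dig_lt _ _
    · exact dig_lt _ _
  cases hb0 : Nat.beq j 0
  · cases hb1 : Nat.beq (Nat.succ j) p.2.length
    · cases hb2 : Nat.beq j 1
      · cases hb3 : Nat.beq (Nat.add j 2) p.2.length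
        · exact tab6a k hk
        · -- slot L - 2
          have hj2 : j + 2 = p.2.length := Nat.eq_of_beq_eq_true hb3
          cases hs : slk (gt c p.1)
          · exact tab6a k hk
          · have q4 := hsolc p.1 hi hs
            show tb (pa b (lk nb k2) (ml b (gt (lk nb k2) 1))) k = true
            refine pa_tb hk fun hn => ?_
            have q5 := hlk k2 hn
            rw [hk2n] at q5
            obtain ⟨hv0, -⟩ := nn_al hn q5
            have q6 := tri_cmp hY hf0 (by rw [hWi]; exact q4) hu0 hv0
            have e1 : (Y.W (Y.al f)).length - 2 = j := by omega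
            rw [e1, ← hkx] at q6
            have hvl := hY.ok.len _ hv0
            rw [gt_eq]
            exact ⟨wsk_two hY q5 (by omega) hk (Or.inr q6), ml_tb q5 (hL _) (by omega) hk q6⟩
      · -- slot 1
        have hj1 : j = 1 := Nat.eq_of_beq_eq_true hb2
        cases hs : slk (gt c k1)
        · exact tab6a k hk
        · have q4 := hsolc k1 hk1l hs
          show tb (pa b (lk nb k1) (mr b (gt (lk nb k1) (Nat.sub (len (lk nb k1)) 2)))) k = true
          refine pa_tb hk fun hn => ?_
          have q5 := hlk k1 hn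
          rw [hf'] at q5
          obtain ⟨hv0, hvl0⟩ := nn_al hn q5
          have q6 := tri_cmp hY (f := f') hf'0 (by rw [hW1]; exact q4) hv0
            (by rw [hk1n]; exact hu0)
          rw [hk1n, ← hj1, ← hkx] at q6
          have hvl := hY.ok.len _ hv0
          have e2 : Nat.sub (len (lk nb k1)) 2 = (Y.W (Y.al f')).length - 2 := by
            rw [len_eq, hvl0]; rfl
          rw [gt_eq, e2]
          exact ⟨wsk_two hY q5 (by omega) hk (Or.inl q6), mr_tb q5 (hL _) (by omega) hk q6⟩
    · -- last slot
      have hj1 : Nat.succ j = p.2.length := Nat.eq_of_beq_eq_true hb1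
      show tb (ml b (gt c p.1)) k = true
      have q6 := hY.ok.cmp f hf0 hu0
      have e1 : (Y.W (Y.al f)).length - 1 = j := by omega
      rw [hWi, e1, ← hkx] at q6
      rw [gt_eq]
      exact ml_tb hm1' (hL e) hi hk q6
  · -- first slot
    have hj0 : j = 0 := Nat.eq_of_beq_eq_true hb0
    show tb (mr b (gt c k1)) k = true
    have q6 := cmp_prev hY hf'0 (by rw [hk1n]; exact hu0)
    rw [hj0] at hkx
    rw [hk1n, hW1, ← hkx] at q6
    rw [gt_eq]
    exact mr_tb hm1' (hL e) hk1l hk q6

theorem ecp_false (hY : SyG Y) {b : Bool} {c : List Nat} {nb : List (Nat × List Nat)} {e : D}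
    (hm : Mtn lleR lsolR (rlS Y) (c, nb) e) : ecp b c nb c.length = false := by
  rw [Bool.eq_false_iff]
  intro hc
  unfold ecp at hc
  have h6 : wsk c = 6 := by
    cases hb : Nat.beq (wsk c) 6
    · rw [hb] at hc; simp at hc
    · exact Nat.eq_of_beq_eq_true hb
  rw [h6] at hc
  have hc1 : cho b c (slc b c nb c.length) c.length = true := hc
  obtain ⟨hm1, hm2⟩ := hm
  have hm1' : lew lleR c (rl (Y.W e)) = true := hm1
  have hL := lt_of_SyG hY
  have hcl := (lew_get hm1').1
  rw [rl_length] at hcl
  have hne : c ≠ [] := by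
    intro h0
    rw [h0] at h6
    exact absurd h6 (by decide)
  have he : Y.W e ≠ [] := (nn_al hne hm1').1
  have hc2 : cho b c (slc b c nb c.length) (Y.W e).length = true := by
    rw [← hcl]
    exact hc1
  obtain ⟨j, hj, h2, hj'⟩ := cho_ex hm1' (hL _) h6 hc2
  have h27 := ol_lt (hL e) j
  obtain ⟨k, hk, hkx⟩ := tab4 b _ (by omega) h2
  have hlk : ∀ m, lk nb m ≠ [] →
      lew lleR (lk nb m) (rl (Y.W (Y.al (Y.nx^[m] e)))) = true := fun m hmk =>
    (hm2 _ (lk_mem hmk)).2 hmk
  obtain ⟨k2, hk2⟩ : ∃ m, (bif Nat.beq (Nat.succ j) c.length then 0 else Nat.succ j) = m :=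
    ⟨_, rfl⟩
  unfold slc at hj'
  rw [hk2] at hj'
  rw [hcl] at hk2
  obtain ⟨hk2l, hk2n⟩ := pos2 hY he hj hk2
  have hWj := first_it hY he hj
  obtain ⟨f, hf⟩ : ∃ f, Y.nx^[j] e = f := ⟨_, rfl⟩
  rw [hf] at hWj hk2n
  have hf0 : Y.W f ≠ [] := by rw [← hf]; exact hY.ok.ne_iter he j
  refine tb_ne (tab6 _ (dig_lt _ _) _ (land_lt (pa_lt (dig_lt _ _))) k hk ?_
    (tab6 _ (pa_lt (dig_lt _ _)) _ (pa_lt (dig_lt _ _)) k hk ?_ ?_)) hj'
  · rw [gt_eq]
    exact mg_tb hm1' (hL _) hj hk hkx
  · refine pa_tb hk fun hn => ?_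
    have q5 := hlk j hn
    rw [hf] at q5
    obtain ⟨hv0, hvl0⟩ := nn_al hn q5
    have q6 := hY.ok.cmp f hf0 hv0
    rw [hWj, ← hkx] at q6
    have hvl := hY.ok.len _ hv0
    have e2 : Nat.pred (len (lk nb j)) = (Y.W (Y.al f)).length - 1 := by
      rw [len_eq, hvl0, Nat.pred_eq_sub_one]
    rw [gt_eq, e2]
    exact ⟨wsk_two hY q5 (by omega) hk (Or.inl q6), mr_tb q5 (hL _) (by omega) hk q6⟩
  · refine pa_tb hk fun hn => ?_
    have q5 := hlk k2 hn
    rw [hk2n] at q5
    obtain ⟨hv0, -⟩ := nn_al hn q5
    have q6 := cmp_prev hY hf0 hv0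
    rw [hWj, ← hkx] at q6
    have hvl := hY.ok.len _ hv0
    rw [gt_eq]
    exact ⟨wsk_two hY q5 (by omega) hk (Or.inr q6), ml_tb q5 (hL _) (by omega) hk q6⟩

theorem eo1_nm (hY : SyG Y) {b : Bool} {X : Fct} (h : eo1 b X = true) (e : D) :
    ¬ Mtn lleR lsolR (rlS Y) X e := by
  intro hm
  obtain ⟨c, nb⟩ := X
  have key : ∀ l : List (Nat × List Nat), (∀ p ∈ l, ebp b c nb (len c) p = false) →
      List.rec (motive := fun _ => Bool) false
        (fun p _ ih => bif ebp b c nb (len c) p then true else ih) l = false := by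
    intro l
    induction l with
    | nil => intro _; rfl
    | cons p l ih =>
      intro hl
      have h1 := ih fun q hq => hl q (List.mem_cons_of_mem _ hq)
      have h2 := hl p (List.mem_cons_self ..)
      have h3 : (bif ebp b c nb (len c) p then true else List.rec (motive := fun _ => Bool) false
        (fun p _ ih => bif ebp b c nb (len c) p then true else ih) l) = false := by
        rw [h2, h1]
        rfl
      exact h3
  have h1 : ecp b c nb (len c) = false := by
    rw [len_eq]
    exact ecp_false hY hm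
  have h2 : eo1 b (c, nb) = (bif ecp b c nb (len c) then true else
    List.rec (motive := fun _ => Bool) false
      (fun p _ ih => bif ebp b c nb (len c) p then true else ih) nb) := rfl
  rw [h2, h1, cond_false, key nb fun p hp => by
    rw [len_eq]
    exact ebp_false hY hm hp] at h
  simp at h

theorem eo_nm (hY : SyG Y) {X : Fct} (h : eo X = true) (e : D) :
    ¬ Mtn lleR lsolR (rlS Y) X e := by
  unfold eo at h
  cases hb : eo1 true X
  · rw [hb] at h
    exact eo1_nm hY h e
  · exact eo1_nm hY hb e

/-- an impossible pattern does not occur -/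
theorem eok_nox (hY : SyG Y) {X : Fct} (h : eok X = true) : NoX lleR lm lsolR (rlS Y) X := by
  unfold eok at h
  have h1 : eo X = true := by
    cases hb : eo X
    · rw [hb] at h; simp at h
    · rfl
  rw [h1, cond_true, mirXk_eq] at h
  exact ⟨eo_nm hY h1, eo_nm hY h⟩

end Pool.FCR
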