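import Pool.Agent.FCR.Jr
import Pool.Agent.FCR.Eo

/-! # Star check with refined letters: lists of impossible patterns -/

namespace Pool.FCR

open Pool.FCS Pool.FC7

/-- an impossible pattern does not occur -/
theorem GfR.ofE {X : Fct} (h : eok X = true) : GfR X := by
  intro D Y hY
  rw [lmr_eq]
  exact eok_nox hY h

/-- a list of impossible patterns -/
noncomputable def eol (v : Nat) : Bool := (FCS.dF v).all eok

theorem gfl_e {v : Nat} (h : eol v = true) : ∀ X ∈ FCS.dF v, GfR X := by
  unfold eol at h
  rw [List.all_eq_true] at h
  exact fun X hX => GfR.ofE (h X hX)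

/-- a tree of impossible patterns -/
theorem OkT.allE {t : BT Nat} (h : t.allB (fun _ v => eol v) = true) : OkT t := by
  intro p hp
  have h1 : eol p.2 = true := BT.allB_sound h p hp
  exact gfl_e h1

end Pool.FCR
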