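import Pool.Agent.FC7.StK
import Pool.Agent.FCS.Yg

/-! # Refined letters

At a vertex of full weight the letters `1`, `18`, `3`, `19` are written `27`, `28`, `29`, `30`. At a
vertex of full weight without the letters `8`, `15`, `16` the letter `0` is written `20`. -/

namespace Pool.FCR

open Pool.FCS Pool.FC7

/-- projection to the old letters -/
def pj (x : Nat) : Nat :=
  if x = 27 then 1 else if x = 28 then 18 else if x = 29 then 3 else if x = 30 then 19
    else if x = 20 then 0 else x

/-- refined letter: `a`, `b` say which letters are refined -/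
def rf (a b : Bool) (x : Nat) : Nat :=
  if x = 1 then (if a = true then 27 else 1) else if x = 18 then (if a = true then 28 else 18)
    else if x = 3 then (if a = true then 29 else 3) else if x = 19 then (if a = true then 30 else 19)
    else if x = 0 then (if b = true then 20 else 0) else x

/-- full weight -/
def ful (w : List Nat) : Bool := decide ((w.map wl).sum = 6)

/-- the letters `8`, `15`, `16` -/
def is8 (x : Nat) : Bool := decide (x = 8) || decide (x = 15) || decide (x = 16)

/-- the coarse letter: solid faces without own units, gaps with no, one or two own units -/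
def kc (x : Nat) : Nat :=
  if x = 8 ∨ x = 15 ∨ x = 16 then 0 else if x = 18 ∨ x = 9 ∨ x = 25 then 1
    else if x = 19 ∨ x = 10 ∨ x = 26 ∨ x = 21 then 3 else if x = 13 ∨ x = 14 then 2
    else if x = 12 then 11 else if x = 22 then 17 else if x = 23 then 6 else if x = 24 then 7
    else x

/-- the words of coarse letters where every letter `0` is refined, all rotations -/
def lcW : List (List Nat) := [
  [0, 0, 0, 1, 3], [0, 0, 0, 3, 1], [0, 0, 0, 11], [0, 0, 0, 17], [0, 0, 1, 0, 3], [0, 0, 1, 1, 2],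
  [0, 0, 1, 2, 1], [0, 0, 1, 3, 0], [0, 0, 2, 1, 1], [0, 0, 3, 0, 1], [0, 0, 3, 1, 0],
  [0, 0, 11, 0], [0, 0, 17, 0], [0, 1, 0, 0, 3], [0, 1, 0, 1, 3], [0, 1, 0, 3, 0], [0, 1, 0, 3, 1],
  [0, 1, 1, 0, 3], [0, 1, 1, 2, 0], [0, 1, 2, 1, 0], [0, 1, 3, 0, 0], [0, 1, 3, 0, 1],
  [0, 2, 1, 1, 0], [0, 3, 0, 0, 1], [0, 3, 0, 1, 0], [0, 3, 0, 1, 1], [0, 3, 1, 0, 0],
  [0, 3, 1, 0, 1], [0, 11, 0, 0], [0, 17, 0, 0], [1, 0, 0, 0, 3], [1, 0, 0, 1, 2], [1, 0, 0, 2, 1],
  [1, 0, 0, 3, 0], [1, 0, 1, 0, 3], [1, 0, 1, 3, 0], [1, 0, 3, 0, 0], [1, 0, 3, 0, 1],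
  [1, 0, 3, 1, 0], [1, 1, 0, 0, 2], [1, 1, 0, 3, 0], [1, 1, 2, 0, 0], [1, 2, 0, 0, 1],
  [1, 2, 1, 0, 0], [1, 3, 0, 0, 0], [1, 3, 0, 1, 0], [2, 0, 0, 1, 1], [2, 1, 0, 0, 1],
  [2, 1, 1, 0, 0], [3, 0, 0, 0, 1], [3, 0, 0, 1, 0], [3, 0, 1, 0, 0], [3, 0, 1, 0, 1],
  [3, 0, 1, 1, 0], [3, 1, 0, 0, 0], [3, 1, 0, 1, 0], [11, 0, 0, 0], [17, 0, 0, 0]]

/-- the word is in a class where every letter `0` is refined -/
def lcl (w : List Nat) : Bool := decide (w.map kc ∈ lcW)

/-- full weight and none of the letters `8`, `15`, `16`, or full weight and one of the classes -/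
def fbL (w : List Nat) : Bool := ful w && (lcl w || w.all fun x => !is8 x)

/-- the refined word -/
def rl (w : List Nat) : List Nat := w.map (rf (ful w) (fbL w))

/-- an old letter -/
def Ol (x : Nat) : Prop := x < 27 ∧ x ≠ 20

theorem pj_lt {x : Nat} (h : Ol x) : pj x = x := by
  obtain ⟨h1, h2⟩ := h
  unfold pj
  rw [if_neg (by omega), if_neg (by omega), if_neg (by omega), if_neg (by omega), if_neg h2]

theorem pj_rf {a b : Bool} {x : Nat} (h : Ol x) : pj (rf a b x) = x := by
  have : ∀ x < 27, x ≠ 20 → ∀ a b : Bool, pj (rf a b x) = x := by decide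
  exact this x h.1 h.2 a b

theorem rf_lt {a b : Bool} {x : Nat} (h : Ol x) : rf a b x < 31 := by
  have : ∀ x < 27, ∀ a b : Bool, rf a b x < 31 := by decide
  exact this x h.1 a b

theorem rf_ff (x : Nat) : rf false false x = x := by
  unfold rf
  split_ifs with h1 h2 h3 h4 h5 <;> simp_all

theorem rl_length (w : List Nat) : (rl w).length = w.length := List.length_map ..

theorem rl_nil : rl [] = [] := rfl

theorem rl_ne {w : List Nat} : rl w ≠ [] ↔ w ≠ [] := by
  rw [Ne, Ne, ← List.length_eq_zero_iff, ← List.length_eq_zero_iff, rl_length]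

theorem ful_rotate (w : List Nat) (n : Nat) : ful (w.rotate n) = ful w := by
  unfold ful
  have h1 : ((w.rotate n).map wl).sum = (w.map wl).sum := ((List.rotate_perm w n).map _).sum_eq
  rw [h1]

theorem all_rotate (p : Nat → Bool) (w : List Nat) (n : Nat) : (w.rotate n).all p = w.all p := by
  rw [Bool.eq_iff_iff, List.all_eq_true, List.all_eq_true]
  constructor
  · intro h x hx
    exact h x (List.mem_rotate.2 hx)
  · intro h x hx
    exact h x (List.mem_rotate.1 hx)

/-- the list of the classes is closed under rotation -/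
theorem lcW_rot : ∀ v ∈ lcW, v.rotate 1 ∈ lcW := by decide +kernel

theorem lcW_rotate {v : List Nat} (h : v ∈ lcW) : ∀ n, v.rotate n ∈ lcW
  | 0 => by rw [List.rotate_zero]; exact h
  | n + 1 => by
    rw [← List.rotate_rotate]
    exact lcW_rot _ (lcW_rotate h n)

theorem lcW_iff {v : List Nat} (n : Nat) : v.rotate n ∈ lcW ↔ v ∈ lcW := by
  refine ⟨fun h => ?_, fun h => lcW_rotate h n⟩
  cases hv : v with
  | nil => rw [hv, List.rotate_nil] at h; exact h
  | cons a l =>
    rw [hv] at h
    have h1 := lcW_rotate h ((a :: l).length * n - n)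
    have h2 : n ≤ (a :: l).length * n := Nat.le_mul_of_pos_left n (by simp)
    rw [List.rotate_rotate, Nat.add_sub_cancel' h2, List.rotate_length_mul] at h1
    exact h1

theorem lcl_rotate (w : List Nat) (n : Nat) : lcl (w.rotate n) = lcl w := by
  unfold lcl
  rw [List.map_rotate, Bool.eq_iff_iff, decide_eq_true_eq, decide_eq_true_eq]
  exact lcW_iff n

theorem fbL_rotate (w : List Nat) (n : Nat) : fbL (w.rotate n) = fbL w := by
  unfold fbL
  rw [ful_rotate, all_rotate, lcl_rotate]

theorem rl_rotate (w : List Nat) (n : Nat) : rl (w.rotate n) = (rl w).rotate n := by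
  unfold rl
  rw [ful_rotate, fbL_rotate, List.map_rotate]

theorem rl_nf {w : List Nat} (h : ful w = false) : rl w = w := by
  unfold rl fbL
  rw [h]
  conv_rhs => rw [← List.map_id w]
  exact List.map_congr_left fun x _ => rf_ff x

theorem map_pj_rl {w : List Nat} (h : ∀ x ∈ w, Ol x) : (rl w).map pj = w := by
  unfold rl
  rw [List.map_map]
  conv_rhs => rw [← List.map_id w]
  exact List.map_congr_left fun x hx => pj_rf (h x hx)

theorem rl_sm {w : List Nat} (h : ∀ x ∈ w, Ol x) : Sm (rl w) := by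
  intro y hy
  obtain ⟨x, hx, rfl⟩ := List.mem_map.1 hy
  exact rf_lt (h x hx)

theorem pj_getD {w : List Nat} (h : ∀ x ∈ w, Ol x) {i : Nat} (hi : i < w.length) :
    pj ((rl w).getD i 0) = w.getD i 0 := by
  have h1 := getD_map0 (f := pj) (l := rl w) (k := i) (by rw [rl_length]; exact hi)
  rw [map_pj_rl h] at h1
  exact h1.symm

/-- solid letters -/
def lsolR (x : Nat) : Bool := lsol (pj x)

/-- the letter `x` of a refined word has the letter `g` of a pattern; `46`, `47`: gap with no, one
own unit, not refined; `48`, `49`: solid without own units, letter `0`, not refined -/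
def lleR (g x : Nat) : Bool :=
  if g = 46 then decide (x = 1) || decide (x = 9) || decide (x = 18) || decide (x = 25)
  else if g = 47 then decide (x = 3) || decide (x = 10) || decide (x = 19) || decide (x = 26)
  else if g = 48 then decide (x = 0) || decide (x = 8) || decide (x = 15) || decide (x = 16)
  else if g = 49 then decide (x = 0)
  else lle g (pj x)

/-- the fact has old letters only -/
def noE (X : Fct) : Bool :=
  (X.1.all fun g => Nat.blt g 46) && X.2.all fun p => p.2.all fun g => Nat.blt g 46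

/-- compatible refined letters -/
def cmpR (x y : Nat) : Bool := cmpf (pj x) (pj y)

variable {D : Type*}

/-- the refined system -/
def rlS (Y : Sys D) : Sys D := ⟨Y.nx, Y.al, fun e => rl (Y.W e)⟩

theorem rlS_ne {Y : Sys D} {e : D} : (rlS Y).W e ≠ [] ↔ Y.W e ≠ [] := rl_ne

/-- the letters of the system -/
def Lt (Y : Sys D) : Prop := ∀ e, ∀ x ∈ Y.W e, Ol x

theorem rlS_ok {Y : Sys D} (hY : Y.Ok cmpf lsol) (hl : Lt Y) : (rlS Y).Ok cmpR lsolR where
  sm e := rl_sm (hl e)
  len e he := by
    have := hY.len e (rlS_ne.1 he)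
    show 4 ≤ (rl (Y.W e)).length ∧ (rl (Y.W e)).length ≤ 6
    rwa [rl_length]
  nn e he := rlS_ne.2 (hY.nn e (rlS_ne.1 he))
  rot e he := by
    show rl (Y.W (Y.nx e)) = (rl (Y.W e)).rotate 1
    rw [hY.rot e (rlS_ne.1 he), rl_rotate]
  per e he := by
    show Y.nx^[(rl (Y.W e)).length] e = e
    rw [rl_length]
    exact hY.per e (rlS_ne.1 he)
  alal := hY.alal
  cmp e he ha := by
    have he' := rlS_ne.1 he
    have ha' : Y.W (Y.al e) ≠ [] := rlS_ne.1 ha
    have h1 := List.length_pos_iff.2 he'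
    have h2 := List.length_pos_iff.2 ha'
    show cmpf (pj ((rl (Y.W e)).getD 0 0))
      (pj ((rl (Y.W (Y.al e))).getD ((rl (Y.W (Y.al e))).length - 1) 0)) = true
    rw [rl_length, pj_getD (hl e) h1, pj_getD (hl _) (by omega)]
    exact hY.cmp e he' ha'
  tri e he hs := by
    have he' := rlS_ne.1 he
    have h1 := List.length_pos_iff.2 he'
    have hs' : lsol (pj ((rl (Y.W e)).getD 0 0)) = true := hs
    rw [pj_getD (hl e) h1] at hs'
    exact hY.tri e he' hs'

theorem lew_rl {g w : List Nat} (hg : (g.all fun a => Nat.blt a 46) = true)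
    (hw : ∀ x ∈ w, Ol x) : lew lleR g (rl w) = lew lle g w := by
  have key : ∀ (g u : List Nat), (g.all fun a => Nat.blt a 46) = true →
      lew lleR g u = lew lle g (u.map pj) := by
    intro g
    induction g with
    | nil => intro u _; cases u <;> rfl
    | cons a g ih =>
      intro u hg
      rw [List.all_cons, Bool.and_eq_true] at hg
      cases u with
      | nil => rfl
      | cons b u =>
        have h1 := ih u hg.2
        have h2 : a < 46 := by
          have := hg.1
          rwa [Nat.blt_eq] at this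
        have h3 : lleR a b = lle a (pj b) := by
          unfold lleR
          rw [if_neg (by omega), if_neg (by omega), if_neg (by omega), if_neg (by omega)]
        simp only [lew, List.map_cons] at *
        rw [h1, h3]
  rw [key g _ hg, map_pj_rl hw]

theorem pls_rl {w : List Nat} (hw : ∀ x ∈ w, Ol x) : Pls lsolR (rl w) ↔ Pls lsol w := by
  unfold Pls
  have h1 : rl w = [] ↔ w = [] := not_iff_not.1 rl_ne
  have h2 : (∀ x ∈ rl w, lsolR x = true) ↔ ∀ x ∈ w, lsol x = true := by
    have e : ∀ u : List Nat, (∀ x ∈ u.map pj, lsol x = true) ↔ ∀ x ∈ u, lsolR x = true := by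
      intro u
      constructor
      · intro h x hx
        exact h _ (List.mem_map_of_mem hx)
      · intro h x hx
        obtain ⟨y, hy, rfl⟩ := List.mem_map.1 hx
        exact h y hy
    rw [← e (rl w), map_pj_rl hw]
  rw [h1, rl_length, h2]

theorem mtn_rl {Y : Sys D} (hl : Lt Y) {X : Fct} (hX : noE X = true) {e : D} :
    Mtn lleR lsolR (rlS Y) X e ↔ Mtn lle lsol Y X e := by
  unfold noE at hX
  rw [Bool.and_eq_true, List.all_eq_true] at hX
  obtain ⟨a1, a2⟩ := hX
  rw [List.all_eq_true] at a2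
  rw [← List.all_eq_true] at a1
  unfold Mtn
  have h1 : ∀ d, (rlS Y).W d = rl (Y.W d) := fun _ => rfl
  have h2 : (rlS Y).nx = Y.nx := rfl
  have h3 : (rlS Y).al = Y.al := rfl
  simp only [h1, h2, h3, lew_rl a1 (hl _), pls_rl (hl _)]
  refine and_congr_right fun _ => forall₂_congr fun p hp => ?_
  rw [lew_rl (a2 p hp) (hl _)]

/-- the mirror image has old letters -/
theorem noE_mir {ml : Nat → Nat} (hml : ∀ g < 46, ml g < 46) {X : Fct} (hX : noE X = true) :
    noE (FCS.mirX ml X) = true := by
  unfold noE at hX ⊢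
  unfold FCS.mirX mirw
  simp only [Bool.and_eq_true, List.all_eq_true, Nat.blt_eq] at hX ⊢
  obtain ⟨a1, a2⟩ := hX
  refine ⟨?_, ?_⟩
  · intro x hx
    rw [List.mem_reverse] at hx
    obtain ⟨y, hy, rfl⟩ := List.mem_map.1 hx
    exact hml y (a1 y hy)
  · intro p hp x hx
    obtain ⟨q, hq, rfl⟩ := List.mem_map.1 hp
    rw [List.mem_reverse] at hx
    obtain ⟨y, hy, rfl⟩ := List.mem_map.1 hx
    exact hml y (a2 q hq y hy)

theorem nox_rl {Y : Sys D} (hl : Lt Y) {ml : Nat → Nat} (hml : ∀ g < 46, ml g < 46) {X : Fct}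
    (hX : noE X = true) (h : NoX lle ml lsol Y X) : NoX lleR ml lsolR (rlS Y) X :=
  ⟨fun e he => h.1 e ((mtn_rl hl hX).1 he), fun e he => h.2 e ((mtn_rl hl (noE_mir hml hX)).1 he)⟩

theorem nb_zero {Y : Sys D} {e : D} {i : Nat} : (rlS Y).nb e i = 0 ↔ Y.nb e i = 0 := by
  have key : ∀ (Z : Sys D) (d : D), Z.c d = 0 ↔ Z.W d = [] := by
    intro Z d
    unfold Sys.c
    constructor
    · intro h
      cases hw : Z.W d with
      | nil => rfl
      | cons a l =>
        rw [hw, enc_cons] at h
        omega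
    · intro h
      rw [h]
      rfl
  unfold Sys.nb
  rw [key, key]
  exact not_iff_not.1 rl_ne

theorem nr_rl {Y : Sys D} (hl : Lt Y) {e : D} (h : Nr lsol Y e) : Nr lsolR (rlS Y) e := by
  have h1 : ∀ d, (rlS Y).W d = rl (Y.W d) := fun _ => rfl
  intro i hi j hj hij h2 h3
  rw [h1, rl_length] at hi hj
  rw [nb_zero] at h2 h3
  have h4 := h i hi j hj hij h2 h3
  rw [h1, rl_length]
  have e1 : ∀ k < (Y.W e).length, lsolR ((rl (Y.W e)).getD k 0) = lsol ((Y.W e).getD k 0) := by
    intro k hk
    unfold lsolR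
    rw [pj_getD (hl e) hk]
  rw [e1 i hi, e1 j hj]
  exact h4

end Pool.FCR
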