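import Pool.Agent.FCR.In

/-! # Star check with refined letters: the words -/

set_option maxRecDepth 1000000

namespace Pool.FCR

open Pool.FCS Pool.FC7

noncomputable section

theorem enc_first {l : List Nat} (h : Sm l) (h0 : 0 < l.length) :
    enc l % 32 = l.getD 0 0 + 1 := by
  have := dg_enc h h0
  rw [← this]
  show _ = enc l / 32 ^ 0 % 32
  simp

theorem enc_last {l : List Nat} (h : Sm l) (h4 : 4 ≤ l.length) (h6 : l.length ≤ 6) :
    enc l / pw (enc l) = l.getD (l.length - 1) 0 + 1 := by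
  have h1 := dg_enc h (k := l.length - 1) (by omega)
  rw [← h1, pw_enc h h4 h6]
  show _ = enc l / 32 ^ (l.length - 1) % 32
  symm
  apply Nat.mod_eq_of_lt
  have h2 := enc_lt h
  apply Nat.div_lt_of_lt_mul
  rw [← pow_succ]
  convert h2 using 2
  omega

/-- the old letters of vertices with the slack `k` -/
def okl0 (l k : Nat) : Bool :=
  decide (k = 0) || (!lfu l && !decide (l = 15) && !decide (l = 16))

/-- properties of a word of old letters -/
theorem glf_w0 {c : List Nat} (h : glf c = true) : 4 ≤ c.length ∧ c.length ≤ 6 ∧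
    (c.map wl).sum ≤ 6 ∧ 6 - (c.map wl).sum < 3 ∧ (∀ x ∈ c, lal x = true) ∧
    ∀ x ∈ c, okl0 x (6 - (c.map wl).sum) = true := by
  unfold glf at h
  rw [Bool.and_eq_true, Bool.and_eq_true] at h
  obtain ⟨⟨h1, h2⟩, -⟩ := h
  have hl := glw_len h1
  have hw := length_le_wl c
  have ha := glw_lal h1
  unfold glw at h1
  simp only [Bool.and_eq_true, decide_eq_true_eq, Bool.or_eq_true] at h1 h2
  obtain ⟨⟨⟨⟨_, h3⟩, _⟩, _⟩, h4⟩ := h1
  refine ⟨hl.1, hl.2, h3, by omega, ha, fun x hx => ?_⟩
  unfold okl0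
  by_cases h6 : (c.map wl).sum = 6
  · rw [h6]; rfl
  · have h4 := h4.resolve_left h6
    have h2 := h2.resolve_left h6
    rw [List.all_eq_true] at h4 h2
    have a1 := h4 x hx
    have a2 := h2 x hx
    rw [a1]
    rw [Bool.and_eq_true] at a2
    rw [a2.1, a2.2]
    simp

/-- refined words -/
def glR (c : List Nat) : Prop := ∃ w, glf w = true ∧ c = rl w

theorem map_wlR {w : List Nat} (h : ∀ x ∈ w, Ol x) : (rl w).map wlR = w.map wl := by
  have : (rl w).map wlR = ((rl w).map pj).map wl := by rw [List.map_map]; rfl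
  rw [this, map_pj_rl h]

theorem lt_of_lal {w : List Nat} (h : ∀ x ∈ w, lal x = true) : ∀ x ∈ w, Ol x :=
  fun x hx => lal_ol (h x hx)

/-- properties of a refined word -/
theorem glf_w {c : List Nat} (h : glR c) : 4 ≤ c.length ∧ c.length ≤ 6 ∧
    (c.map wlR).sum ≤ 6 ∧ 6 - (c.map wlR).sum < 3 ∧ (∀ x ∈ c, lalR x = true) ∧
    ∀ x ∈ c, okl x (6 - (c.map wlR).sum) = true := by
  obtain ⟨w, hw, rfl⟩ := h
  obtain ⟨h1, h2, h3, h4, h5, h6⟩ := glf_w0 hw
  have hl := lt_of_lal h5
  rw [rl_length, map_wlR hl]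
  refine ⟨h1, h2, h3, h4, ?_, ?_⟩
  · intro x hx
    have h7 : pj x ∈ (rl w).map pj := List.mem_map_of_mem hx
    rw [map_pj_rl hl] at h7
    exact h5 _ h7
  · intro x hx
    cases hf : ful w with
    | true =>
      have h8 : (w.map wl).sum = 6 := by
        unfold ful at hf
        rwa [decide_eq_true_eq] at hf
      rw [h8]
      have h9 : ∀ x < 27, x ≠ 20 → ∀ b : Bool, okl (rf true b x) (6 - 6) = true := by decide
      unfold rl at hx
      obtain ⟨y, hy, rfl⟩ := List.mem_map.1 hx
      rw [hf]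
      exact h9 y (hl y hy).1 (hl y hy).2 _
    | false =>
      rw [rl_nf hf] at hx
      have h9 := h6 x hx
      have h10 : ∀ x < 27, x ≠ 20 → ∀ k < 3, k ≠ 0 → okl0 x k = true → okl x k = true := by decide
      refine h10 x (hl x hx).1 (hl x hx).2 _ h4 (fun h0 => ?_) h9
      have h8 : (w.map wl).sum = 6 := by omega
      unfold ful at hf
      rw [decide_eq_true h8] at hf
      exact Bool.noConfusion hf

/-- the load at the ends of a refined letter -/
def ldyR (x : Nat) : Nat := ldy (pj x)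

/-- the load at the ends of a refined letter -/
def ldxR (x : Nat) : Nat := ldx (pj x)

/-- the letter is followed by a labelled spoke -/
def lnxR (x : Nat) : Bool := lnx (pj x)

theorem sm_cc {c : List Nat} (h : ∀ x ∈ c, lalR x = true) : Sm (c.map ccf) := by
  intro y hy
  obtain ⟨x, hx, rfl⟩ := List.mem_map.1 hy
  exact (let_all (h x hx)).1

theorem sm_bl {c : List Nat} (h : ∀ x ∈ c, lalR x = true) : Sm (c.map blx) := by
  intro y hy
  obtain ⟨x, hx, rfl⟩ := List.mem_map.1 hy
  exact (let_all (h x hx)).2.1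

/-- the slack of a word -/
theorem wsl_w {c : List Nat} (h : glR c) :
    wsl wmT (enc (c.map ccf)) = 6 - (c.map wlR).sum := by
  obtain ⟨h4, h6, hs, h3, ha, -⟩ := glf_w h
  have e1 : wtc wmT (enc (c.map ccf)) = ((c.map ccf).map fun x => tdg wmT (x + 1)).sum :=
    wtc_enc (sm_cc ha) (by rw [List.length_map]; exact h6) fun _ _ => rfl
  have e2 : ((c.map ccf).map fun x => tdg wmT (x + 1)) = c.map wlR := by
    rw [List.map_map]
    exact List.map_congr_left fun x hx => (let_all (ha x hx)).2.2.2.2.2.2.2.2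
  unfold wsl
  rw [e1, e2]
  show (6 - (c.map wlR).sum) % 4 = _
  omega

/-- the blind code of a word -/
theorem blc_w {c : List Nat} (h : glR c) :
    blc bmT (enc (c.map ccf)) = enc (c.map blx) := by
  obtain ⟨h4, h6, hs, h3, ha, -⟩ := glf_w h
  have e1 : blc bmT (enc (c.map ccf)) = enc ((c.map ccf).map blf) :=
    blc_enc (sm_cc ha) (by rw [List.length_map]; exact h6) (fun y hy => by
      obtain ⟨x, hx, rfl⟩ := List.mem_map.1 hy
      exact (let_all (ha x hx)).2.2.2.2.2.1)
  rw [e1, List.map_map]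
  rfl

theorem blc_lt {c : List Nat} (h : glR c) :
    blc bmT (enc (c.map ccf)) < 1073741824 := by
  obtain ⟨h4, h6, hs, h3, ha, -⟩ := glf_w h
  rw [blc_w h]
  have h1 := enc_lt (sm_bl ha)
  have h2 : 32 ^ (c.map blx).length ≤ 32 ^ 6 :=
    Nat.pow_le_pow_right (by norm_num) (by rw [List.length_map]; exact h6)
  have : (32 : Nat) ^ 6 = 1073741824 := by norm_num
  omega

/-- the conflicts at a sector -/
theorem gk_w {k X : Nat} {a b : List Nat} (ha : glR a) (hb : glR b) :
    gk k X (nfc bmT wmT smT (enc (a.map ccf))) (nfc bmT wmT smT (enc (b.map ccf))) =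
      gkb k X (6 - (a.map wlR).sum) (blx (a.getD (a.length - 1) 0) + 1)
        (6 - (b.map wlR).sum) (blx (b.getD 0 0) + 1) := by
  have la := blc_lt ha
  have lb := blc_lt hb
  obtain ⟨a4, a6, -, -, aa, -⟩ := glf_w ha
  obtain ⟨b4, b6, -, -, bb, -⟩ := glf_w hb
  have e1 : slf (nfc bmT wmT smT (enc (a.map ccf))) = 6 - (a.map wlR).sum := by
    rw [slf_nfc la, wsl_w ha]
  have e2 : slf (nfc bmT wmT smT (enc (b.map ccf))) = 6 - (b.map wlR).sum := by
    rw [slf_nfc lb, wsl_w hb]
  have e3 : Nat.mod (nfc bmT wmT smT (enc (b.map ccf))) 32 = blx (b.getD 0 0) + 1 := by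
    have h1 : Nat.mod (lo (nfc bmT wmT smT (enc (b.map ccf)))) 32 =
        Nat.mod (nfc bmT wmT smT (enc (b.map ccf))) 32 := by
      show nfc bmT wmT smT (enc (b.map ccf)) % 1073741824 % 32 = _ % 32
      omega
    rw [← h1, lo_nfc lb, blc_w hb]
    have h2 := enc_first (sm_bl bb) (by rw [List.length_map]; omega)
    show enc (b.map blx) % 32 = _
    rw [h2, getD_map0 (by omega)]
  have e4 : Nat.div (lo (nfc bmT wmT smT (enc (a.map ccf))))
      (pwF (lo (nfc bmT wmT smT (enc (a.map ccf))))) = blx (a.getD (a.length - 1) 0) + 1 := by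
    rw [lo_nfc la, blc_w ha, pwF_eq]
    have h2 := enc_last (sm_bl aa) (by rw [List.length_map]; omega)
      (by rw [List.length_map]; omega)
    show enc (a.map blx) / pw (enc (a.map blx)) = _
    rw [h2, List.length_map, getD_map0 (by omega)]
  unfold gk gkb
  rw [e1, e2, e3, e4]

theorem mu_all {v z : Nat} (h : z ∈ lg v) :
    mu uyT v ≤ ldyR z + (if lnxR z = true then 1 else 0) ∧ mu uxT v ≤ ldxR z := by
  have h0 : ((List.range 46).all fun v => (lg v).all fun z =>
    decide (mu uyT v ≤ ldyR z + (if lnxR z = true then 1 else 0)) && decide (mu uxT v ≤ ldxR z)) =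
      true := by decide +kernel
  rw [List.all_eq_true] at h0
  have h1 := h0 v (List.mem_range.2 (lg_lt h))
  rw [List.all_eq_true] at h1
  have h2 := h1 z h
  simpa using h2

theorem fu_all {x k : Nat} (hx : lalR x = true) (hk : k ≠ 0) (h : okl x k = true) :
    tb fuT x = false := by
  have h1 := lal_all (f := fun x => (lfuR x || decide (x = 15) || decide (x = 16)) || !tb fuT x)
    (by decide +kernel) hx
  unfold okl at h
  rw [decide_eq_false hk, cond_false] at h
  simp only [Bool.or_eq_true, decide_eq_true_eq, Bool.and_eq_true, Bool.not_eq_true',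
    decide_eq_false_iff_not] at h h1
  rcases h1 with ((h1 | h1) | h1) | h1
  · rw [h.1.1] at h1; exact Bool.noConfusion h1
  · exact absurd h1 h.1.2
  · exact absurd h1 h.2
  · exact h1

theorem ovw_at {c : List Nat} (h : glR c) {i : Nat} (hi : i < c.length) :
    ldyR (c.getD i 0) + ldxR (c.getD ((i + 1) % c.length) 0) +
      (if lnxR (c.getD i 0) = true then 1 else 0) ≤ 2 := by
  obtain ⟨w, hw, rfl⟩ := h
  have hl := lt_of_lal (glf_w0 hw).2.2.2.2.1
  unfold glf at hw
  rw [Bool.and_eq_true] at hw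
  have h1 := hw.2
  unfold ovw at h1
  rw [rl_length] at hi ⊢
  rw [List.all_eq_true] at h1
  have h2 := h1 i (List.mem_range.2 hi)
  rw [decide_eq_true_eq] at h2
  unfold ldyR ldxR lnxR
  rw [pj_getD hl hi, pj_getD hl (Nat.mod_lt _ (by omega))]
  exact h2

theorem nxt_mod {d i : Nat} (hi : i < d) : nxt d i = (i + 1) % d := by
  unfold nxt
  cases h : Nat.beq (Nat.succ i) d with
  | true =>
    have := Nat.eq_of_beq_eq_true h
    rw [show i + 1 = d from this, Nat.mod_self]
    rfl
  | false =>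
    have := Nat.ne_of_beq_eq_false h
    rw [Nat.mod_eq_of_lt (show i + 1 < d by
      have : i + 1 ≠ d := this
      omega)]
    rfl

theorem prv_mod {d i : Nat} (hi : i < d) : prv d i < d ∧ (prv d i + 1) % d = i := by
  unfold prv
  cases h : Nat.beq i 0 with
  | true =>
    have := Nat.eq_of_beq_eq_true h
    subst this
    show d - 1 < d ∧ (d - 1 + 1) % d = 0
    rw [show d - 1 + 1 = d by omega, Nat.mod_self]
    exact ⟨by omega, rfl⟩
  | false =>
    have := Nat.ne_of_beq_eq_false h
    show i - 1 < d ∧ (i - 1 + 1) % d = i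
    rw [show i - 1 + 1 = i by omega, Nat.mod_eq_of_lt hi]
    exact ⟨by omega, rfl⟩

/-- impossible letters -/
theorem imp_ok {c : List Nat} (h : glR c) {i p n : Nat} (hi : i < c.length)
    (hp : c.getD (prv c.length i) 0 ∈ lg p) (hn : c.getD (nxt c.length i) 0 ∈ lg n) :
    imp (6 - (c.map wlR).sum) (c.getD i 0) p n = false := by
  obtain ⟨-, -, -, -, ha, hk⟩ := glf_w h
  have hx := ha _ (getD_mem hi)
  have hxk := hk _ (getD_mem hi)
  have o1 := ovw_at h (prv_mod hi).1
  have o2 := ovw_at h hi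
  rw [(prv_mod hi).2] at o1
  rw [← nxt_mod hi] at o2
  have m1 := (mu_all hp).1
  have m2 := (mu_all hn).2
  have hxx : c.getD i 0 ∈ lg (c.getD i 0) := (lg_all (let_all hx).2.2.2.2.2.2.2.1).1
  have m3 := mu_all hxx
  unfold imp
  have e1 : (bif Nat.beq (6 - (c.map wlR).sum) 0 then false else tb fuT (c.getD i 0)) = false := by
    cases hb : Nat.beq (6 - (c.map wlR).sum) 0 with
    | true => rfl
    | false => exact fu_all hx (Nat.ne_of_beq_eq_false hb) hxk
  have e2 : Nat.ble 3 (Nat.add (mu uyT p) (mu uxT (c.getD i 0))) = false := by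
    rw [← Bool.not_eq_true]
    intro hc
    have : 3 ≤ mu uyT p + mu uxT (c.getD i 0) := Nat.le_of_ble_eq_true hc
    omega
  have e3 : Nat.ble 3 (Nat.add (mu uyT (c.getD i 0)) (mu uxT n)) = false := by
    rw [← Bool.not_eq_true]
    intro hc
    have : 3 ≤ mu uyT (c.getD i 0) + mu uxT n := Nat.le_of_ble_eq_true hc
    omega
  rw [e1, e2, e3]
  rfl

theorem lmr_eq : lmr = lm := by
  funext l
  unfold lmr
  by_cases h : 46 ≤ l
  · rw [Nat.ble_eq_true_of_le h]
    have h2 : lm l = l := by
      unfold lm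
      iterate 14 rw [if_neg (by omega)]
    exact h2.symm
  · have e : Nat.ble 46 l = false := by
      rw [← Bool.not_eq_true]; intro hc; exact h (Nat.le_of_ble_eq_true hc)
    rw [e]
    have h0 : ((List.range 46).all fun l =>
      decide (Nat.mod (Nat.shiftRight lmT (Nat.mul 6 l)) 64 = lm l)) = true := by decide +kernel
    rw [List.all_eq_true] at h0
    simpa using h0 l (List.mem_range.2 (by omega))

end

end Pool.FCR
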