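import Pool.Agent.FCR.Io

/-! # Star check with refined letters: all words -/

set_option maxRecDepth 1000000

namespace Pool.FCR

open Pool.FCS Pool.FC7

noncomputable section

/-- the test at the end of a word -/
def lfB (p : Nat → Bool) (rem acc k : Nat) (pf ff fu : Bool) : Bool :=
  bif Nat.ble 4 k then
    bif (bif pf then ff else (bif ff then false else true)) then
      bif (bif fu then Nat.ble 1 rem else false) then true else p acc
    else true
  else true

/-- all words: `rem` remaining weight, `acc` code, `pwr` power of `32`, `k` number of letters, `pf`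
label after the last letter, `ff` label before the first letter, `fu` full weight is necessary -/
def en2 (wt : Nat → Nat) (nx fv : Nat → Bool) (al0 al1 : List Nat) (p : Nat → Bool) (n : Nat) :
    Nat → Nat → Nat → Nat → Bool → Bool → Bool → Bool :=
  Nat.rec (motive := fun _ => Nat → Nat → Nat → Nat → Bool → Bool → Bool → Bool)
    (fun rem acc _ k pf ff fu => lfB p rem acc k pf ff fu)
    (fun _ ih rem acc pwr k pf ff fu =>
      bif lfB p rem acc k pf ff fu then
        List.rec (motive := fun _ => Bool) true
          (fun x _ jh => bif Nat.ble (wt x) rem then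
            bif ih (Nat.sub rem (wt x)) (Nat.add acc (Nat.mul (Nat.succ x) pwr)) (Nat.mul pwr 32)
              (Nat.succ k) (nx x) ff (bif fu then true else fv x) then jh else false
            else jh) (bif pf then al1 else al0)
      else false) n

/-- the labels fit -/
def chn (nx pv : Nat → Bool) (ff : Bool) : Bool → List Nat → Prop
  | pf, [] => pf = ff
  | pf, x :: w => pv x = pf ∧ chn nx pv ff (nx x) w

theorem lfB_p {p : Nat → Bool} {rem acc k : Nat} {pf ff fu : Bool}
    (h : lfB p rem acc k pf ff fu = true) (hk : 4 ≤ k) (hf : pf = ff) (hu : fu = true → rem = 0) :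
    p acc = true := by
  unfold lfB at h
  rw [Nat.ble_eq_true_of_le hk] at h
  have e1 : (bif pf then ff else (bif ff then false else true)) = true := by
    subst hf; cases pf <;> rfl
  have e2 : (bif fu then Nat.ble 1 rem else false) = false := by
    cases hh : fu with
    | true => rw [hu hh]; rfl
    | false => rfl
  rw [e1, e2] at h
  exact h

theorem en2_sound {wt : Nat → Nat} {nx pv fv : Nat → Bool} {al0 al1 : List Nat}
    {p : Nat → Bool} : ∀ (n : Nat) (w : List Nat) (rem acc pwr k : Nat) (pf ff fu : Bool),
    w.length ≤ n → (w.map wt).sum ≤ rem →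
    (∀ x ∈ w, x ∈ (bif pv x then al1 else al0)) → chn nx pv ff pf w →
    ((fu = true ∨ ∃ x ∈ w, fv x = true) → (w.map wt).sum = rem) → 4 ≤ k + w.length →
    en2 wt nx fv al0 al1 p n rem acc pwr k pf ff fu = true → p (acc + pwr * enc w) = true
  | 0, w, rem, acc, pwr, k, pf, ff, fu, hl, hs, ha, hc, hu, h4, h => by
    have hw : w = [] := List.eq_nil_of_length_eq_zero (by omega)
    subst hw
    have h' : lfB p rem acc k pf ff fu = true := h
    have := lfB_p h' (by simpa using h4) hc (fun hf => by simpa using (hu (Or.inl hf)).symm)
    simpa using this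
  | n + 1, w, rem, acc, pwr, k, pf, ff, fu, hl, hs, ha, hc, hu, h4, h => by
    have h' : (bif lfB p rem acc k pf ff fu then
        List.rec (motive := fun _ => Bool) true
          (fun x _ jh => bif Nat.ble (wt x) rem then
            bif en2 wt nx fv al0 al1 p n (Nat.sub rem (wt x)) (Nat.add acc (Nat.mul (Nat.succ x) pwr))
              (Nat.mul pwr 32) (Nat.succ k) (nx x) ff (bif fu then true else fv x) then jh
              else false
            else jh) (bif pf then al1 else al0)
      else false) = true := h
    rw [cond_true_iff] at h'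
    obtain ⟨h1, h2⟩ := h'
    cases w with
    | nil =>
      have := lfB_p h1 (by simpa using h4) hc (fun hf => by simpa using (hu (Or.inl hf)).symm)
      simpa using this
    | cons y w =>
      have hy := ha y (List.mem_cons_self ..)
      obtain ⟨c1, c2⟩ := hc
      rw [c1] at hy
      rw [List.map_cons, List.sum_cons] at hs hu
      have key : ∀ l : List Nat, y ∈ l → List.rec (motive := fun _ => Bool) true
          (fun x _ jh => bif Nat.ble (wt x) rem then
            bif en2 wt nx fv al0 al1 p n (Nat.sub rem (wt x)) (Nat.add acc (Nat.mul (Nat.succ x) pwr))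
              (Nat.mul pwr 32) (Nat.succ k) (nx x) ff (bif fu then true else fv x) then jh
              else false
            else jh) l = true →
          en2 wt nx fv al0 al1 p n (rem - wt y) (acc + (y + 1) * pwr) (pwr * 32) (k + 1) (nx y) ff
            (bif fu then true else fv y) = true := by
        intro l
        induction l with
        | nil => intro h; simp at h
        | cons x l jh =>
          intro hm hh
          dsimp only at hh
          rcases List.mem_cons.1 hm with hm | hm
          · subst hm
            rw [Nat.ble_eq_true_of_le (by omega : wt y ≤ rem)] at hh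
            dsimp only [cond_true] at hh
            rw [cond_true_iff] at hh
            exact hh.1
          · apply jh hm
            revert hh
            cases Nat.ble (wt x) rem with
            | false => intro hh; exact hh
            | true =>
              intro hh
              dsimp only [cond_true] at hh
              rw [cond_true_iff] at hh
              exact hh.2
      have h3 := key _ hy h2
      have h6 := en2_sound n w _ _ _ _ _ _ _ (by simpa using hl) (by omega)
        (fun x hx => ha x (List.mem_cons_of_mem _ hx)) c2 (fun hf => by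
          have : y ∈ y :: w := List.mem_cons_self ..
          have h7 : wt y + (w.map wt).sum = rem := by
            apply hu
            rcases hf with hf | ⟨x, hx, hf⟩
            · cases hfu : fu with
              | true => exact Or.inl rfl
              | false =>
                rw [hfu] at hf
                exact Or.inr ⟨y, List.mem_cons_self .., hf⟩
            · exact Or.inr ⟨x, List.mem_cons_of_mem _ hx, hf⟩
          omega) (by
          rw [List.length_cons] at h4; omega) h3
      rw [enc_cons]
      have e : acc + pwr * (y + 1 + 32 * enc w) = acc + (y + 1) * pwr + pwr * 32 * enc w := by ring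
      rw [e]
      exact h6

/-- weight -/
def wk (x : Nat) : Nat := tdg wmT (Nat.succ x)

/-- labels after the letter, before the letter, letters of full vertices -/
def nxk (x : Nat) : Bool := tb 8388688 x

/-- letters of full vertices -/
def fuk (x : Nat) : Bool := tb 125830896 x

/-- letters without a label before -/
def al0 : List Nat := [0, 2, 11, 4, 1, 18, 3, 19, 17, 22, 6, 23, 9, 25, 10, 26]

/-- letters with a label before -/
def al1 : List Nat := [5, 7, 24]

/-- the words with the first letter `x` -/
def chk1 (p : Nat → Bool) (x : Nat) : Bool :=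
  en2 wk nxk fuk al0 al1 p 5 (Nat.sub 6 (wk x)) (Nat.succ x) 32 1 (nxk x) (tb 16777376 x) (fuk x)

/-- a property of all old letters -/
theorem lal_all0 {f : Nat → Bool} (h : ((List.range 27).all fun x => !lal x || f x) = true)
    {x : Nat} (hx : lal x = true) : f x = true := by
  rw [List.all_eq_true] at h
  have h1 := h x (List.mem_range.2 (lal_lt0 hx))
  rw [hx] at h1
  simpa using h1

/-- the words of the centres -/
def glY (w : List Nat) : Bool := glw w && w.all fun y => decide (ccf y = y)

theorem cc_let {y : Nat} (h : lal y = true) (hc : ccf y = y) : wk y = wl y ∧ nxk y = lnx y ∧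
    fuk y = lfu y ∧ tb 16777376 y = lpv y ∧ y ∈ (bif lpv y then al1 else al0) := by
  have h0 := lal_all0 (f := fun y => !decide (ccf y = y) || (decide (wk y = wl y) &&
    (nxk y == lnx y) && (fuk y == lfu y) && (tb 16777376 y == lpv y) &&
    (bif lpv y then al1 else al0).elem y)) (by decide +kernel) h
  rw [hc] at h0
  simp only [decide_true, Bool.not_true, Bool.false_or, Bool.and_eq_true, decide_eq_true_eq,
    beq_iff_eq] at h0
  obtain ⟨⟨⟨⟨h1, h2⟩, h3⟩, h4⟩, h5⟩ := h0
  exact ⟨h1, h2, h3, h4, List.elem_iff.1 h5⟩

theorem chn_of {nx pv : Nat → Bool} {ff : Bool} : ∀ (w : List Nat) (pf : Bool),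
    (∀ h : 0 < w.length, pv (w.getD 0 0) = pf) →
    (∀ i, i + 1 < w.length → nx (w.getD i 0) = pv (w.getD (i + 1) 0)) →
    (w = [] → pf = ff) → (w ≠ [] → nx (w.getD (w.length - 1) 0) = ff) → chn nx pv ff pf w
  | [], pf, _, _, h, _ => h rfl
  | x :: w, pf, h0, h1, _, h2 => by
    refine ⟨h0 (by simp), chn_of w (nx x) (fun h => ?_) (fun i hi => ?_) (fun h => ?_)
      fun h => ?_⟩
    · have := h1 0 (by simpa using h)
      simpa using this.symm
    · have := h1 (i + 1) (by simpa using hi)
      simpa using this
    · subst h
      simpa using h2 (by simp)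
    · have h3 := h2 (by simp)
      have h4 : 0 < w.length := List.length_pos_iff.2 h
      rw [List.length_cons, show w.length + 1 - 1 = (w.length - 1) + 1 by omega,
        List.getD_cons_succ] at h3
      exact h3

/-- all words of the centres -/
theorem glY_all {p : Nat → Bool} (h0 : ∀ x ∈ al0, chk1 p x = true)
    (h1 : ∀ x ∈ al1, chk1 p x = true) (w : List Nat) (hw : glY w = true) :
    p (enc w) = true := by
  unfold glY at hw
  rw [Bool.and_eq_true] at hw
  obtain ⟨hg, hc⟩ := hw
  have hl := glw_len hg
  have ha := glw_lal hg
  rw [List.all_eq_true] at hc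
  have hlet := fun y hy => cc_let (ha y hy) (by simpa using hc y hy)
  unfold glw at hg
  simp only [Bool.and_eq_true, decide_eq_true_eq, Bool.or_eq_true] at hg
  obtain ⟨⟨⟨⟨g1, g2⟩, g3⟩, g4⟩, g5⟩ := hg
  rw [List.all_eq_true] at g4
  have adj : ∀ i < w.length, nxk (w.getD i 0) = tb 16777376 (w.getD ((i + 1) % w.length) 0) := by
    intro i hi
    have := g4 i (List.mem_range.2 hi)
    rw [(hlet _ (getD_mem hi)).2.1, (hlet _ (getD_mem (Nat.mod_lt _ (by omega)))).2.2.2.1]
    simpa using this
  cases w with
  | nil => simp at g1
  | cons x w =>
    have hx := hlet x (List.mem_cons_self ..)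
    have hxa : chk1 p x = true := by
      have h2 := hx.2.2.2.2
      cases h3 : lpv x with
      | true => rw [h3] at h2; exact h1 x h2
      | false => rw [h3] at h2; exact h0 x h2
    have hsum : ((x :: w).map wk).sum = ((x :: w).map wl).sum := by
      congr 1
      exact List.map_congr_left fun y hy => (hlet y hy).1
    rw [List.map_cons, List.sum_cons] at hsum
    rw [List.length_cons] at hl adj
    have hch : chn nxk (fun y => tb 16777376 y) (tb 16777376 x) (nxk x) w := by
      have h4 : w ≠ [] := by rintro rfl; simp at g1
      have h5 : 0 < w.length := List.length_pos_iff.2 h4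
      refine chn_of w _ (fun _ => ?_) (fun i hi => ?_) (fun h => absurd h h4) fun _ => ?_
      · have := adj 0 (by omega)
        rw [Nat.mod_eq_of_lt (by omega)] at this
        simpa using this.symm
      · have := adj (i + 1) (by omega)
        rw [Nat.mod_eq_of_lt (by omega)] at this
        simpa using this
      · have := adj w.length (by omega)
        rw [Nat.mod_self] at this
        rw [show w.length = (w.length - 1) + 1 by omega, List.getD_cons_succ] at this
        simpa using this
    have := en2_sound 5 w (6 - wk x) (x + 1) 32 1 (nxk x) (tb 16777376 x) (fuk x) (by omega)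
      (by omega) (fun y hy => by
        have h2 := hlet y (List.mem_cons_of_mem _ hy)
        show y ∈ (bif tb 16777376 y then al1 else al0)
        rw [h2.2.2.2.1]
        exact h2.2.2.2.2) hch (fun hf => by
        have h6 : (((x :: w).map wl).sum) = 6 := by
          rcases g5 with g5 | g5
          · exact g5
          · exfalso
            rw [List.all_eq_true] at g5
            rcases hf with hf | ⟨y, hy, hf⟩
            · rw [hx.2.2.1] at hf
              have := g5 x (List.mem_cons_self ..)
              rw [hf] at this
              exact Bool.noConfusion this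
            · rw [(hlet y (List.mem_cons_of_mem _ hy)).2.2.1] at hf
              have := g5 y (List.mem_cons_of_mem _ hy)
              rw [hf] at this
              exact Bool.noConfusion this
        omega) (by omega) hxa
    rw [enc_cons]
    exact this

theorem glY_cc {c : List Nat} (h : glf c = true) : glY (c.map ccf) = true := by
  have h' := h
  unfold glf at h'
  rw [Bool.and_eq_true, Bool.and_eq_true] at h'
  have hg := h'.1.1
  have ha := glw_lal hg
  have hcc : ∀ x ∈ c, wl (ccf x) = wl x ∧ lal (ccf x) = true ∧ lnx (ccf x) = lnx x ∧
      lpv (ccf x) = lpv x ∧ (lfu (ccf x) = true → lfu x = true) ∧ ccf (ccf x) = ccf x := by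
    intro x hx
    have h0 := lal_all0 (f := fun x => decide (wl (ccf x) = wl x) && lal (ccf x) &&
      (lnx (ccf x) == lnx x) && (lpv (ccf x) == lpv x) && (!lfu (ccf x) || lfu x) &&
      decide (ccf (ccf x) = ccf x)) (by decide +kernel) (ha x hx)
    simp only [Bool.and_eq_true, decide_eq_true_eq, beq_iff_eq, Bool.or_eq_true,
      Bool.not_eq_true'] at h0
    obtain ⟨⟨⟨⟨⟨a1, a2⟩, a3⟩, a4⟩, a5⟩, a6⟩ := h0
    exact ⟨a1, a2, a3, a4, fun h => by
      rcases a5 with a5 | a5
      · rw [a5] at h; exact Bool.noConfusion h
      · exact a5, a6⟩
  unfold glw at hg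
  simp only [Bool.and_eq_true, decide_eq_true_eq, Bool.or_eq_true] at hg
  obtain ⟨⟨⟨⟨g1, g2⟩, g3⟩, g4⟩, g5⟩ := hg
  have hsum : ((c.map ccf).map wl).sum = (c.map wl).sum := by
    rw [List.map_map]
    congr 1
    exact List.map_congr_left fun x hx => (hcc x hx).1
  unfold glY glw
  simp only [Bool.and_eq_true, decide_eq_true_eq, Bool.or_eq_true]
  rw [hsum, List.length_map]
  refine ⟨⟨⟨⟨⟨g1, g2⟩, ?_⟩, ?_⟩, ?_⟩, ?_⟩
  · rw [List.all_eq_true]
    intro y hy
    obtain ⟨x, hx, rfl⟩ := List.mem_map.1 hy
    exact (hcc x hx).2.1
  · rw [List.all_eq_true] at g4 ⊢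
    intro i hi
    have hi' := List.mem_range.1 hi
    have hj : (i + 1) % c.length < c.length := Nat.mod_lt _ (by omega)
    have := g4 i hi
    rw [getD_map0 hi', getD_map0 hj, (hcc _ (getD_mem hi')).2.2.1, (hcc _ (getD_mem hj)).2.2.2.1]
    exact this
  · rcases g5 with g5 | g5
    · exact Or.inl g5
    · right
      rw [List.all_eq_true] at g5 ⊢
      intro y hy
      obtain ⟨x, hx, rfl⟩ := List.mem_map.1 hy
      have := g5 x hx
      cases hl : lfu (ccf x) with
      | false => rfl
      | true =>
        rw [(hcc x hx).2.2.2.2.1 hl] at this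
        exact Bool.noConfusion this
  · rw [List.all_eq_true]
    intro y hy
    obtain ⟨x, hx, rfl⟩ := List.mem_map.1 hy
    rw [decide_eq_true_eq]
    exact (hcc x hx).2.2.2.2.2

/-- refined digits of the gaps -/
def rfT : Nat := 0xdeb38b801feca307b9ac5a928398be1f020

/-- refined digits of the solid faces -/
def r0T : Nat := 0xffbbcdeb38bdab49ca307b9ac5a928398a418aa0

/-- the code with refined gaps -/
def rlc (c : Nat) : Nat := bif Nat.beq (wtc wmT c) 6 then blc rfT c else c

/-- the refined words of the centres: refined gaps, `b`: refined solid faces -/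
def rlb (b : Bool) (w : List Nat) : List Nat := w.map (rf (ful w) (b && ful w))

theorem wtc_ful {u : List Nat} (hs : Sm u) (hl : u.length ≤ 6) (ha : ∀ x ∈ u, lal x = true)
    (hc : ∀ x ∈ u, ccf x = x) : Nat.beq (wtc wmT (enc u)) 6 = ful u := by
  have e1 : wtc wmT (enc u) = (u.map wl).sum :=
    wtc_enc hs hl fun x hx => by
      have h0 := lal_all0 (f := fun x => !decide (ccf x = x) || decide (tdg wmT (x + 1) = wl x))
        (by decide +kernel) (ha x hx)
      rw [hc x hx] at h0
      simpa using h0
  rw [e1]
  show Nat.beq ((u.map wl).sum) 6 = decide ((u.map wl).sum = 6)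
  rw [Bool.eq_iff_iff]
  simp

theorem rlc_enc {u : List Nat} (hs : Sm u) (hl : u.length ≤ 6) (ha : ∀ x ∈ u, lal x = true)
    (hc : ∀ x ∈ u, ccf x = x) : rlc (enc u) = enc (rlb false u) := by
  have e3 : blc rfT (enc u) = enc (u.map (rf true false)) :=
    blc_enc hs hl fun x hx => by
      have h0 := lal_all0 (f := fun x => decide (tdg rfT (x + 1) = rf true false x + 1))
        (by decide +kernel) (ha x hx)
      simpa using h0
  unfold rlc rlb
  rw [wtc_ful hs hl ha hc, e3]
  cases ful u with
  | true => rfl
  | false =>
    show enc u = enc (u.map (rf false false))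
    congr 1
    conv_lhs => rw [← List.map_id u]
    exact List.map_congr_left fun x _ => (rf_ff x).symm

theorem r0_enc {u : List Nat} (hl : u.length ≤ 6) (ha : ∀ x ∈ u, lal x = true)
    (hf : ful u = true) : blc r0T (enc (rlb false u)) = enc (rlb true u) := by
  have hs : Sm (rlb false u) := by
    intro y hy
    obtain ⟨x, hx, rfl⟩ := List.mem_map.1 hy
    exact rf_lt (lal_ol (ha x hx))
  have e : blc r0T (enc (rlb false u)) =
      enc ((rlb false u).map fun x => if x = 0 then 20 else x) :=
    blc_enc hs (by unfold rlb; rwa [List.length_map]) fun y hy => by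
      obtain ⟨x, hx, rfl⟩ := List.mem_map.1 hy
      have h0 := lal_all0 (f := fun x => decide (∀ a b : Bool,
        tdg r0T (rf a b x + 1) = (if rf a b x = 0 then 20 else rf a b x) + 1))
        (by decide +kernel) (ha x hx)
      simp only [decide_eq_true_eq] at h0
      exact h0 _ _
  rw [e]
  unfold rlb
  rw [List.map_map, hf]
  congr 1
  refine List.map_congr_left fun x hx => ?_
  have h0 := lal_all0 (f := fun x => decide (∀ a : Bool,
    (if rf a false x = 0 then 20 else rf a false x) = rf a true x))
    (by decide +kernel) (ha x hx)
  simp only [decide_eq_true_eq] at h0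
  exact h0 _

/-- coarse digits -/
def kcT : Nat := 0xffbbc20907912a41482118d8c20828398a418820

/-- the codes of the classes -/
def lcC : List Nat := [4260897, 2229281, 394273, 590881, 4229153, 3213345, 2197537, 1181729,
  2165793, 2134049, 1118241, 45089, 51233, 4228161, 4260929, 1180737, 2229313, 4229185,
  1148993, 1117249, 1085505, 2134081, 1116257, 2131073, 1115265, 2163841, 1083521, 2132097,
  34177, 34369, 4228130, 3212322, 2196514, 1180706, 4229154, 1181730, 1085474, 2134050,
  1118242, 3179586, 1180738, 1084482, 2131042, 1083490, 1082498, 1115266, 2163747, 2131011,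
  1083459, 2130980, 1115172, 1083428, 2132004, 1116196, 1082436, 1115204, 33836, 33842]

theorem lcC_eq : lcC = lcW.map enc := by decide +kernel

/-- all versions of a code: every digit `1` may be replaced by `21` -/
def pz (p : Nat → Bool) (n : Nat) : Nat → Nat → Nat → Bool :=
  Nat.rec (motive := fun _ => Nat → Nat → Nat → Bool) (fun _ acc _ => p acc)
    (fun _ ih u acc pwr => bif Nat.beq u 0 then p acc else
      frc (Nat.mod u 32) fun d => frc (Nat.div u 32) fun v => frc (Nat.mul pwr 32) fun q =>
        bif ih v (Nat.add acc (Nat.mul d pwr)) q then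
          (bif Nat.beq d 1 then ih v (Nat.add acc (Nat.mul 21 pwr)) q else true)
        else false) n

/-- a version of a word -/
def Vr (w u : List Nat) : Prop := List.Forall₂ (fun y x => y = x ∨ (x = 0 ∧ y = 20)) w u

theorem pz_sound {p : Nat → Bool} : ∀ (n : Nat) (u w : List Nat) (acc pwr : Nat), u.length ≤ n →
    Sm u → Vr w u → pz p n (enc u) acc pwr = true → p (acc + pwr * enc w) = true
  | 0, u, w, acc, pwr, hl, _, hv, h => by
    have hu : u = [] := List.eq_nil_of_length_eq_zero (by omega)
    subst hu
    cases hv
    show p (acc + pwr * 0) = true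
    rw [Nat.mul_zero, Nat.add_zero]
    exact h
  | n + 1, u, w, acc, pwr, hl, hs, hv, h => by
    have h' : (bif Nat.beq (enc u) 0 then p acc else
      frc (Nat.mod (enc u) 32) fun d => frc (Nat.div (enc u) 32) fun v =>
        frc (Nat.mul pwr 32) fun q =>
        bif pz p n v (Nat.add acc (Nat.mul d pwr)) q then
          (bif Nat.beq d 1 then pz p n v (Nat.add acc (Nat.mul 21 pwr)) q else true)
        else false) = true := h
    cases hv with
    | nil =>
      show p (acc + pwr * 0) = true
      rw [Nat.mul_zero, Nat.add_zero]
      exact h'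
    | @cons y x w u h1 h2 =>
      have hx := hs x (List.mem_cons_self ..)
      have e0 : enc (x :: u) = x + 1 + 32 * enc u := enc_cons ..
      have e1 : Nat.beq (enc (x :: u)) 0 = false := by
        rw [e0, ← Bool.not_eq_true]
        intro h0
        have := Nat.eq_of_beq_eq_true h0
        omega
      have e2 : Nat.mod (enc (x :: u)) 32 = x + 1 := by
        show enc (x :: u) % 32 = x + 1
        rw [e0]; omega
      have e3 : Nat.div (enc (x :: u)) 32 = enc u := by
        show enc (x :: u) / 32 = enc u
        rw [e0]; omega
      rw [e1, cond_false, frc_eq, frc_eq, frc_eq, e2, e3, cond_true_iff] at h'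
      obtain ⟨h3, h4⟩ := h'
      have hl' : u.length ≤ n := by
        rw [List.length_cons] at hl; omega
      have hs' : Sm u := fun z hz => hs z (List.mem_cons_of_mem _ hz)
      rw [enc_cons]
      rcases h1 with h1 | ⟨h1, h5⟩
      · have h6 := pz_sound n u w _ _ hl' hs' h2 h3
        subst h1
        have e : acc + pwr * (y + 1 + 32 * enc w) = Nat.add acc (Nat.mul (y + 1) pwr) +
          Nat.mul pwr 32 * enc w := by
          show _ = acc + (y + 1) * pwr + pwr * 32 * enc w
          ring
        rw [e]
        exact h6
      · subst h1
        have h7 : pz p n (enc u) (Nat.add acc (Nat.mul 21 pwr)) (Nat.mul pwr 32) = true := h4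
        have h6 := pz_sound n u w _ _ hl' hs' h2 h7
        subst h5
        have e : acc + pwr * (20 + 1 + 32 * enc w) = Nat.add acc (Nat.mul 21 pwr) +
          Nat.mul pwr 32 * enc w := by
          show _ = acc + 21 * pwr + pwr * 32 * enc w
          ring
        rw [e]
        exact h6

/-- a test of all refined codes of a centre -/
def pq (p : Nat → Bool) (a : Nat) : Bool :=
  frc (rlc a) fun u => bif p u then
    (bif Nat.beq (wtc wmT a) 6 then
      (bif mem (blc kcT a) lcC then pz p 6 u 0 1 else
        frc (blc r0T u) fun v => bif Nat.beq v u then true else p v)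
    else true) else false

theorem pq_iff {p : Nat → Bool} {a : Nat} (h : pq p a = true) : p (rlc a) = true ∧
    (Nat.beq (wtc wmT a) 6 = true → (mem (blc kcT a) lcC = true → pz p 6 (rlc a) 0 1 = true) ∧
      (mem (blc kcT a) lcC = false → p (blc r0T (rlc a)) = true)) := by
  unfold pq at h
  rw [frc_eq] at h
  rw [cond_true_iff] at h
  obtain ⟨h1, h2⟩ := h
  refine ⟨h1, fun h3 => ?_⟩
  rw [h3] at h2
  dsimp only [cond_true] at h2
  rw [frc_eq] at h2
  cases hm : mem (blc kcT a) lcC with
  | true =>
    rw [hm] at h2
    exact ⟨fun _ => h2, fun h => Bool.noConfusion h⟩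
  | false =>
    rw [hm] at h2
    refine ⟨fun h => Bool.noConfusion h, fun _ => ?_⟩
    dsimp only [cond_false] at h2
    cases h4 : Nat.beq (blc r0T (rlc a)) (rlc a) with
    | true => rw [Nat.eq_of_beq_eq_true h4]; exact h1
    | false => rw [h4] at h2; exact h2

/-- the version test -/
def vrb (w : List Nat) : List Nat → Bool :=
  List.rec (motive := fun _ => List Nat → Bool) (fun u => u.isEmpty)
    (fun y _ ih u => match u with
      | [] => false
      | x :: u => (decide (y = x) || (decide (x = 0) && decide (y = 20))) && ih u) w

theorem vrb_iff : ∀ {w u : List Nat}, vrb w u = true ↔ Vr w u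
  | [], [] => ⟨fun _ => List.Forall₂.nil, fun _ => rfl⟩
  | [], _ :: _ => by
    constructor
    · intro h; exact Bool.noConfusion (show false = true from h)
    · intro h; cases h
  | _ :: _, [] => by
    constructor
    · intro h; exact Bool.noConfusion (show false = true from h)
    · intro h; cases h
  | y :: w, x :: u => by
    have e : vrb (y :: w) (x :: u) =
      ((decide (y = x) || (decide (x = 0) && decide (y = 20))) && vrb w u) := rfl
    rw [e, Bool.and_eq_true, vrb_iff]
    simp only [Bool.or_eq_true, Bool.and_eq_true, decide_eq_true_eq]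
    constructor
    · intro h; exact List.Forall₂.cons h.1 h.2
    · intro h
      cases h with
      | cons h1 h2 => exact ⟨h1, h2⟩

/-- the refined words of the centres -/
def glYR (w : List Nat) : Bool := glY (w.map pj) &&
  (bif lcl (w.map pj) && ful (w.map pj) then vrb w (rlb false (w.map pj)) else
    (decide (w = rlb false (w.map pj)) || decide (w = rlb true (w.map pj))))

/-- the classes of the codes of the centres -/
theorem lcl_enc {u : List Nat} (hs : Sm u) (hl : u.length ≤ 6) (ha : ∀ x ∈ u, lal x = true) :
    mem (blc kcT (enc u)) lcC = lcl u := by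
  have e1 : blc kcT (enc u) = enc (u.map kc) :=
    blc_enc hs hl fun x hx => by
      have h0 := lal_all0 (f := fun x => decide (tdg kcT (x + 1) = kc x + 1))
        (by decide +kernel) (ha x hx)
      simpa using h0
  rw [e1, Bool.eq_iff_iff, mem_iff, lcC_eq]
  unfold lcl
  rw [decide_eq_true_eq]
  have hk : Sm (u.map kc) := by
    intro y hy
    obtain ⟨x, hx, rfl⟩ := List.mem_map.1 hy
    have h0 := lal_all0 (f := fun x => decide (kc x < 31)) (by decide +kernel) (ha x hx)
    simpa using h0
  have hW : ∀ v ∈ lcW, Sm v := by
    have : ∀ v ∈ lcW, ∀ x ∈ v, x < 31 := by decide +kernel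
    exact this
  constructor
  · intro h
    obtain ⟨v, hv, h1⟩ := List.mem_map.1 h
    rw [← enc_inj (hW v hv) hk h1]
    exact hv
  · intro h
    exact List.mem_map_of_mem h

/-- all refined words of the centres -/
theorem glYR_all {p : Nat → Bool} (h0 : ∀ x ∈ al0, chk1 (pq p) x = true)
    (h1 : ∀ x ∈ al1, chk1 (pq p) x = true) (w : List Nat) (hw : glYR w = true) :
    p (enc w) = true := by
  unfold glYR at hw
  rw [Bool.and_eq_true] at hw
  obtain ⟨hg, he⟩ := hw
  have h2 := glY_all h0 h1 _ hg
  unfold glY at hg
  rw [Bool.and_eq_true, List.all_eq_true] at hg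
  have ha := glw_lal hg.1
  have hl := glw_len hg.1
  have hs : Sm (w.map pj) := fun x hx => lt_trans (lal_lt0 (ha x hx)) (by norm_num)
  have hc : ∀ x ∈ w.map pj, ccf x = x := fun x hx => by simpa using hg.2 x hx
  obtain ⟨h3, h4⟩ := pq_iff h2
  rw [rlc_enc hs hl.2 ha hc] at h3 h4
  rw [wtc_ful hs hl.2 ha hc, lcl_enc hs hl.2 ha] at h4
  cases hf : ful (w.map pj) with
  | false =>
    rw [hf, Bool.and_false, cond_false, Bool.or_eq_true, decide_eq_true_eq,
      decide_eq_true_eq] at he
    rcases he with he | he
    · rw [← he] at h3
      exact h3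
    · have e : rlb true (w.map pj) = rlb false (w.map pj) := by
        unfold rlb
        rw [hf]
        rfl
      rw [← e, ← he] at h3
      exact h3
  | true =>
    obtain ⟨h5, h6⟩ := h4 hf
    cases hc : lcl (w.map pj) with
    | true =>
      rw [hf, hc, Bool.and_true, cond_true, vrb_iff] at he
      have hs' : Sm (rlb false (w.map pj)) := by
        intro y hy
        obtain ⟨x, hx, rfl⟩ := List.mem_map.1 hy
        exact rf_lt (lal_ol (ha x hx))
      have h7 := pz_sound 6 (rlb false (w.map pj)) w 0 1
        (by unfold rlb; rw [List.length_map]; exact hl.2) hs' he (h5 hc)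
      rwa [Nat.zero_add, Nat.one_mul] at h7
    | false =>
      rw [hf, hc, Bool.false_and, cond_false, Bool.or_eq_true, decide_eq_true_eq,
        decide_eq_true_eq] at he
      rcases he with he | he
      · rw [← he] at h3
        exact h3
      · have h7 := h6 hc
        rw [r0_enc hl.2 ha hf, ← he] at h7
        exact h7

theorem glYR_cc {c : List Nat} (h : glR c) : glYR (c.map ccf) = true := by
  obtain ⟨w, hw, rfl⟩ := h
  have ha := (glf_w0 hw).2.2.2.2.1
  have hf : ful (w.map ccf) = ful w := by
    unfold ful
    have h2 : ((w.map ccf).map wl) = w.map wl := by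
      rw [List.map_map]
      exact List.map_congr_left fun x hx => by
        have h0 := lal_all0 (f := fun x => decide (wl (ccf x) = wl x)) (by decide +kernel)
          (ha x hx)
        simpa using h0
    rw [h2]
  have hcl : lcl (w.map ccf) = lcl w := by
    unfold lcl
    have h2 : ((w.map ccf).map kc) = w.map kc := by
      rw [List.map_map]
      exact List.map_congr_left fun x hx => by
        have h0 := lal_all0 (f := fun x => decide (kc (ccf x) = kc x)) (by decide +kernel)
          (ha x hx)
        simpa using h0
    rw [h2]
  have e2 : ((rl w).map ccf).map pj = w.map ccf := by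
    unfold rl
    rw [List.map_map, List.map_map]
    refine List.map_congr_left fun x hx => ?_
    have h0 := lal_all0 (f := fun x => decide (∀ a b : Bool, pj (ccf (rf a b x)) = ccf x))
      (by decide +kernel) (ha x hx)
    simp only [decide_eq_true_eq] at h0
    exact h0 _ _
  unfold glYR
  rw [e2, glY_cc hw, Bool.true_and, hcl, hf]
  cases hb : (lcl w && ful w) with
  | true =>
    rw [Bool.and_eq_true] at hb
    rw [cond_true, vrb_iff]
    have hfb : fbL w = true := by
      unfold fbL
      rw [hb.1, hb.2]
      rfl
    unfold rl rlb Vr
    rw [hfb, hf, hb.2, List.map_map, List.map_map, List.forall₂_map_left_iff,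
      List.forall₂_map_right_iff, List.forall₂_same]
    intro x hx
    have h0 := lal_all0 (f := fun x => decide (ccf (rf true true x) = rf true false (ccf x)) ||
      (decide (rf true false (ccf x) = 0) && decide (ccf (rf true true x) = 20)))
      (by decide +kernel) (ha x hx)
    simp only [Bool.or_eq_true, Bool.and_eq_true, decide_eq_true_eq] at h0
    exact h0
  | false =>
    rw [cond_false]
    have e1 : (rl w).map ccf = rlb (fbL w) (w.map ccf) := by
      unfold rl rlb
      rw [hf, List.map_map, List.map_map]
      refine List.map_congr_left fun x hx => ?_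
      have h0 := lal_all0 (f := fun x => decide (∀ a : Bool, ccf (rf a false x) = rf a false (ccf x) ∧
        (is8 x = false → ccf (rf a true x) = rf a true (ccf x)))) (by decide +kernel) (ha x hx)
      simp only [decide_eq_true_eq] at h0
      show ccf (rf (ful w) (fbL w) x) = rf (ful w) (fbL w && ful w) (ccf x)
      cases hb' : fbL w with
      | false => exact (h0 _).1
      | true =>
        have h5 := hb'
        unfold fbL at h5
        rw [Bool.and_eq_true, Bool.or_eq_true] at h5
        rw [h5.1] at hb ⊢
        rw [Bool.and_true] at hb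
        rw [hb] at h5
        have h6 := h5.2.resolve_left (by simp)
        rw [List.all_eq_true] at h6
        exact (h0 _).2 (by simpa using h6 x hx)
    rw [e1]
    cases fbL w <;> simp

end

end Pool.FCR
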