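import Pool.Agent.FCP.Ya

/-! # Star check with refined letters: the projection of the codes, definitions -/

set_option maxRecDepth 1000000

namespace Pool.FCR

open Pool.FCS Pool.FCP

noncomputable section

/-- projection of two digits, packed -/
def jt : Nat :=
  0xffffeff7fcfeffafe7f8fdff6fd7f4fcff2fc7e4f8be1f87ecf93e2fa7e8f9fe6f97e4f8fe2f87e0f7fdef77dcf6fdaf67d8f5fd6f57d4f4fd2f47c4f0bc1f07ccf13c2f27c8f1fc6f17c4f0fc2f07c0effbeef7bceefbaee7b8edfb6ed7b4ecfb2ec7a4e8ba1e87ace93a2ea7a8e9fa6e97a4e8fa2e87a0e7f9ee779ce6f9ae6798e5f96e5794e4f92e4784e0b81e078ce1382e2788e1f86e1784e0f82e0780dff7edf77cdef7ade778ddf76dd774dcf72dc764d8b61d876cd9362da768d9f66d9764d8f62d8760d7f5ed775cd6f5ad6758d5f56d5754d4f52d4744d0b41d074cd1342d2748d1f46d1744d0f42d0740cff3ecf73ccef3ace738cdf36cd734ccf32cc724c8b21c872cc9322ca728c9f26c9724c8f22c8720c7f1ec771cc6f1ac6718c5f16c5714c4f12c4704c0b01c070cc1302c2708c1f06c1704c0f02c0700bfefebf6fcbeefabe6f8bdef6bd6f4bcef2bc6e4b8ae1b86ecb92e2ba6e8b9ee6b96e4b8ee2b86e0b7edeb76dcb6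edab66d8b5ed6b56d4b4ed2b46c4b0ac1b06ccb12c2b26c8b1ec6b16c4b0ec2b06c0afebeaf6bcaeebaae6b8adeb6ad6b4aceb2ac6a4a8aa1a86aca92a2aa6a8a9ea6a96a4a8ea2a86a0a7e9ea769ca6e9aa6698a5e96a5694a4e92a4684a0a81a068ca1282a2688a1e86a1684a0e82a06809fe7e9f67c9ee7a9e6789de769d6749ce729c66498a619866c992629a66899e669966498e629866097e5e9765c96e5a9665895e569565494e529464490a419064c912429264891e469164490e42906408fe3e8f63c8ee3a8e6388de368d6348ce328c62488a218862c892228a62889e268962488e228862027c9e2749c26c9a2649825c962549424c9224484208812048c210822248821c862148420c822048017c5e1745c16c5a1645815c561545414c5214444108411044c110421244811c461144410c42104400fc3e0f43c0ec3a0e4380dc360d4340cc320c424088210842c090220a42809c260942408c22084200fc3e0f43c0ec3a0e4380dc360d4340cc320c424088210842c090220a42809c260942408c220842067d9e6759c66d9a6659865d966559464d9264584609816058c611826258861d866158460d826058027c9e2749c26c9a2649825c962549424c9224484208812048c210822248821c862148420c822048017c5e1745c16c5a1645815c561545414c5214444108411044c110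421244811c461144410c42104404fd3e4f53c4ed3a4e5384dd364d5344cd324c524489214852c491224a52849d264952448d224852047d1e4751c46d1a4651845d164551444d1244504409014050c411024250841d064150440d02405003fcfe3f4fc3ecfa3e4f83dcf63d4f43ccf23c4e4388e1384ec390e23a4e839ce6394e438ce2384e037cde374dc36cda364d835cd6354d434cd2344c4308c1304cc310c2324c831cc6314c430cc2304c02fcbe2f4bc2ecba2e4b82dcb62d4b42ccb22c4a4288a1284ac290a22a4a829ca6294a428ca2284a027c9e2749c26c9a2649825c962549424c9224484208812048c210822248821c862148420c82204801fc7e1f47c1ec7a1e4781dc761d4741cc721c464188611846c190621a46819c661946418c621846017c5e1745c16c5a1645815c561545414c5214444108411044c110421244811c461144410c42104400fc3e0f43c0ec3a0e4380dc360d4340cc320c424088210842c090220a42809c260942408c220842007c1e0741c06c1a0641805c160541404c1204404008010040c010020240801c060140400c0200400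

/-- projection of two digits -/
def j2 (d : Nat) : Nat := Nat.land (Nat.shiftRight jt (Nat.mul (nat_lit 10) d)) (nat_lit 1023)

/-- projection of a code -/
def jc (A : Nat) : Nat :=
  frc A fun A => Nat.add (j2 (Nat.land A (nat_lit 1023))) (Nat.mul (nat_lit 1024)
    (Nat.add (j2 (Nat.land (Nat.shiftRight A (nat_lit 10)) (nat_lit 1023))) (Nat.mul (nat_lit 1024)
      (Nat.add (j2 (Nat.land (Nat.shiftRight A (nat_lit 20)) (nat_lit 1023)))
        (Nat.mul (nat_lit 1024) (Nat.shiftRight A (nat_lit 30)))))))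

/-- the value of the projected code -/
def gJ (t : BT Nat) (A : Nat) : Nat := frc (jc A) fun A => t.getN A

/-- the value of a pair of projected codes -/
def gP (t : BT Nat) (p : Nat) : Nat :=
  frc p fun p => frc (pr2 (jc (Nat.mod p (nat_lit 1073741824)))
    (jc (Nat.div p (nat_lit 1073741824)))) fun p => t.getN p

/-- the value of a projected edge key and neighbour -/
def gE (t : BT Nat) (q : Nat) : Nat :=
  frc q fun q => frc (pr3 (jc (Nat.mod q (nat_lit 137438953472)))
    (jc (Nat.div q (nat_lit 137438953472)))) fun q => t.getN q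

end

end Pool.FCR
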