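import Pool.Agent.FCR.Jp
import Pool.Agent.FCR.Jb
import Pool.Agent.FCP.Zj
import Pool.Agent.FCP.Xj

/-! # Star check with refined letters: the projection of the codes -/

set_option maxRecDepth 1000000

namespace Pool.FCR

open Pool.FCS Pool.FCP

noncomputable section

/-- the projection of a digit -/
def j1 (d : Nat) : Nat :=
  if d = 10 then 2 else if d = 11 then 4 else if d = 13 then 1 else if d = 14 then 1 else
  if d = 15 then 2 else if d = 16 then 4 else d

theorem j2_tab : ∀ d < 1024, j2 d = j1 (d % 32) + 32 * j1 (d / 32) := by decide +kernel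

theorem j1_lt : ∀ d < 32, j1 d < 32 := by decide

theorem j1_i : ∀ d < 32, j1 (j1 d) = j1 d := by decide

theorem j1_pos : ∀ d < 32, d ≠ 0 → j1 d ≠ 0 := by decide

theorem j1_sm : ∀ d < 32, tb smT (j1 d) = tb smT d := by decide +kernel

theorem j2_lt {d : Nat} (h : d < 1024) : j2 d < 1024 := by
  rw [j2_tab d h]
  have h1 := j1_lt (d % 32) (by omega)
  have h2 := j1_lt (d / 32) (by omega)
  omega

theorem j2_mod {d : Nat} (h : d < 1024) : j2 d % 32 = j1 (d % 32) := by
  rw [j2_tab d h]
  have h1 := j1_lt (d % 32) (by omega)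
  omega

theorem j2_div {d : Nat} (h : d < 1024) : j2 d / 32 = j1 (d / 32) := by
  rw [j2_tab d h]
  have h1 := j1_lt (d % 32) (by omega)
  omega

theorem j2_i {d : Nat} (h : d < 1024) : j2 (j2 d) = j2 d := by
  rw [j2_tab (j2 d) (j2_lt h), j2_mod h, j2_div h, j1_i _ (by omega), j1_i _ (by omega), j2_tab d h]

theorem jc_eq (A : Nat) : jc A = j2 (A % 1024) + 1024 * (j2 (A / 1024 % 1024) +
    1024 * (j2 (A / 1048576 % 1024) + 1024 * (A / 1073741824))) := by
  have e : jc A = j2 (A &&& 1023) + 1024 * (j2 (A >>> 10 &&& 1023) +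
    1024 * (j2 (A >>> 20 &&& 1023) + 1024 * (A >>> 30))) := rfl
  have h1 : ∀ B : Nat, B &&& 1023 = B % 1024 := fun B => Nat.and_two_pow_sub_one_eq_mod B 10
  rw [e, h1, h1, h1, Nat.shiftRight_eq_div_pow, Nat.shiftRight_eq_div_pow,
    Nat.shiftRight_eq_div_pow]

theorem jc_d (A : Nat) : jc A / 1073741824 = A / 1073741824 := by
  rw [jc_eq]
  have h1 := j2_lt (d := A % 1024) (by omega)
  have h2 := j2_lt (d := A / 1024 % 1024) (by omega)
  have h3 := j2_lt (d := A / 1048576 % 1024) (by omega)
  omega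

theorem jc_m (A : Nat) : lo (jc A) = jc (lo A) := by
  show jc A % 1073741824 = jc (A % 1073741824)
  rw [jc_eq, jc_eq]
  have e1 : A % 1073741824 % 1024 = A % 1024 := by omega
  have e2 : A % 1073741824 / 1024 % 1024 = A / 1024 % 1024 := by omega
  have e3 : A % 1073741824 / 1048576 % 1024 = A / 1048576 % 1024 := by omega
  have e4 : A % 1073741824 / 1073741824 = 0 := by omega
  rw [e1, e2, e3, e4]
  have h1 := j2_lt (d := A % 1024) (by omega)
  have h2 := j2_lt (d := A / 1024 % 1024) (by omega)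
  have h3 := j2_lt (d := A / 1048576 % 1024) (by omega)
  omega

theorem jc_i (A : Nat) : jc (jc A) = jc A := by
  have h1 := j2_lt (d := A % 1024) (by omega)
  have h2 := j2_lt (d := A / 1024 % 1024) (by omega)
  have h3 := j2_lt (d := A / 1048576 % 1024) (by omega)
  have e := jc_eq A
  have e1 : jc A % 1024 = j2 (A % 1024) := by omega
  have e2 : jc A / 1024 % 1024 = j2 (A / 1024 % 1024) := by omega
  have e3 : jc A / 1048576 % 1024 = j2 (A / 1048576 % 1024) := by omega
  have e4 : jc A / 1073741824 = A / 1073741824 := by omega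
  rw [jc_eq (jc A), e1, e2, e3, e4, j2_i (by omega), j2_i (by omega), j2_i (by omega), ← e]

/-- the first letter -/
theorem jc_sm (A : Nat) : tb smT (Nat.mod (jc A) 32) = tb smT (Nat.mod A 32) := by
  have h1 := j2_lt (d := A % 1024) (by omega)
  have e := jc_eq A
  have e1 : jc A % 32 = j2 (A % 1024) % 32 := by omega
  rw [j2_mod (by omega)] at e1
  have e2 : A % 1024 % 32 = A % 32 := by omega
  rw [e2] at e1
  show tb smT (jc A % 32) = tb smT (A % 32)
  rw [e1, j1_sm _ (by omega)]

theorem pw_cases (A : Nat) : (33554432 ≤ A ∧ pw A = 33554432) ∨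
    (A < 33554432 ∧ 1048576 ≤ A ∧ pw A = 1048576) ∨ (A < 1048576 ∧ pw A = 32768) := by
  unfold pw
  cases h : Nat.ble 33554432 A with
  | true =>
    left
    exact ⟨Nat.le_of_ble_eq_true h, rfl⟩
  | false =>
    have h' : ¬ 33554432 ≤ A := by
      intro h1
      rw [Nat.ble_eq_true_of_le h1] at h
      exact Bool.noConfusion h
    right
    cases h2 : Nat.ble 1048576 A with
    | true => left; exact ⟨by omega, Nat.le_of_ble_eq_true h2, rfl⟩
    | false =>
      have h3 : ¬ 1048576 ≤ A := by
        intro h1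
        rw [Nat.ble_eq_true_of_le h1] at h2
        exact Bool.noConfusion h2
      right
      exact ⟨by omega, rfl⟩

/-- the last letter -/
theorem jc_sr (A : Nat) (hA : A < 1073741824) :
    tb smT (Nat.mod (rrc (jc A)) 32) = tb smT (Nat.mod (rrc A) 32) := by
  have h1 := j2_lt (d := A % 1024) (by omega)
  have h2 := j2_lt (d := A / 1024 % 1024) (by omega)
  have h3 := j2_lt (d := A / 1048576 % 1024) (by omega)
  have e := jc_eq A
  have e4 : A / 1073741824 = 0 := by omega
  rw [e4] at e
  have r : ∀ B, rrc B % 32 = B / pw B % 32 := by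
    intro B
    show (B % pw B * 32 + B / pw B) % 32 = _
    omega
  show tb smT (rrc (jc A) % 32) = tb smT (rrc A % 32)
  rw [r, r]
  have g2 := j2_tab (A / 1048576 % 1024) (by omega)
  have t := j1_lt (A / 1048576 % 1024 / 32) (by omega)
  have t' := j1_lt (A / 1048576 % 1024 % 32) (by omega)
  rcases pw_cases A with ⟨a1, a2⟩ | ⟨a0, a1, a2⟩ | ⟨a1, a2⟩
  · have p1 := j1_pos (A / 1048576 % 1024 / 32) (by omega) (by omega)
    have b1 : 33554432 ≤ jc A := by omega
    rcases pw_cases (jc A) with ⟨c1, c2⟩ | ⟨c0, c1, c2⟩ | ⟨c1, c2⟩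
    · rw [a2, c2]
      have e1 : jc A / 33554432 % 32 = j1 (A / 33554432 % 32) := by
        have e2 : A / 1048576 % 1024 / 32 = A / 33554432 % 32 := by omega
        rw [← e2]
        omega
      rw [e1, j1_sm _ (by omega)]
    · omega
    · omega
  · have z : A / 1048576 % 1024 / 32 = 0 := by omega
    rw [z] at g2
    have z1 : j1 0 = 0 := rfl
    rw [z1] at g2
    have p1 := j1_pos (A / 1048576 % 1024 % 32) (by omega) (by omega)
    rcases pw_cases (jc A) with ⟨c1, c2⟩ | ⟨c0, c1, c2⟩ | ⟨c1, c2⟩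
    · omega
    · rw [a2, c2]
      have e1 : jc A / 1048576 % 32 = j1 (A / 1048576 % 32) := by
        have e2 : A / 1048576 % 1024 % 32 = A / 1048576 % 32 := by omega
        rw [← e2]
        omega
      rw [e1, j1_sm _ (by omega)]
    · omega
  · have z : A / 1048576 % 1024 = 0 := by omega
    rw [z] at g2 e
    have z1 : j2 0 = 0 := by rw [j2_tab 0 (by omega)]; rfl
    rw [z1] at e
    rcases pw_cases (jc A) with ⟨c1, c2⟩ | ⟨c0, c1, c2⟩ | ⟨c1, c2⟩
    · omega
    · omega
    · rw [a2, c2]
      have g1 := j2_div (d := A / 1024 % 1024) (by omega)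
      have e1 : jc A / 32768 % 32 = j1 (A / 32768 % 32) := by
        have e2 : A / 1024 % 1024 / 32 = A / 32768 % 32 := by omega
        rw [← e2, ← g1]
        omega
      rw [e1, j1_sm _ (by omega)]

end

end Pool.FCR
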