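import Pool.Agent.FCR.Ip
import Pool.Agent.FCS.Wi
import Pool.Agent.FC7.StF

/-! # Star check with refined letters, second version: tables and words -/

set_option maxRecDepth 1000000

namespace Pool.FCR

open Pool.FCS Pool.FC7

noncomputable section

/-- the masks of the view letters -/
theorem lvj_ok (v g : Nat) (h : Nat.testBit (lvj v) g = true) : g < 64 ∧ lev g v = true := by
  have e : lvj v = (lvT >>> (64 * v)) % 2 ^ 64 := rfl
  rw [e, Nat.testBit_mod_two_pow, Bool.and_eq_true, decide_eq_true_eq,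
    Nat.testBit_shiftRight] at h
  obtain ⟨hg, h⟩ := h
  refine ⟨hg, ?_⟩
  have hv : v < 46 := by
    by_contra hc
    have : Nat.testBit lvT (64 * v + g) = false :=
      Nat.testBit_lt_two_pow (lt_of_lt_of_le (b := 2 ^ 2944) (by decide +kernel)
        (Nat.pow_le_pow_right (by norm_num) (by omega)))
    rw [this] at h
    exact Bool.noConfusion h
  have h0 : ((List.range 46).all fun v => (List.range 64).all fun g =>
    !tb lvT (64 * v + g) || lev g v) = true := by decide +kernel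
  rw [List.all_eq_true] at h0
  have h1 := h0 v (List.mem_range.2 hv)
  rw [List.all_eq_true] at h1
  have h2 := h1 g (List.mem_range.2 hg)
  rw [tb_testBit, h, Bool.not_true, Bool.false_or] at h2
  exact h2

/-- the masks of the view letters, mirror image -/
theorem lmj_ok (v g : Nat) (h : Nat.testBit (lmj v) g = true) :
    g < 64 ∧ lev (lmr g) v = true := by
  have e : lmj v = (lmvT >>> (64 * v)) % 2 ^ 64 := rfl
  rw [e, Nat.testBit_mod_two_pow, Bool.and_eq_true, decide_eq_true_eq,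
    Nat.testBit_shiftRight] at h
  obtain ⟨hg, h⟩ := h
  refine ⟨hg, ?_⟩
  have hv : v < 46 := by
    by_contra hc
    have : Nat.testBit lmvT (64 * v + g) = false :=
      Nat.testBit_lt_two_pow (lt_of_lt_of_le (b := 2 ^ 2944) (by decide +kernel)
        (Nat.pow_le_pow_right (by norm_num) (by omega)))
    rw [this] at h
    exact Bool.noConfusion h
  have h0 : ((List.range 46).all fun v => (List.range 64).all fun g =>
    !tb lmvT (64 * v + g) || lev (lmr g) v) = true := by decide +kernel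
  rw [List.all_eq_true] at h0
  have h1 := h0 v (List.mem_range.2 hv)
  rw [List.all_eq_true] at h1
  have h2 := h1 g (List.mem_range.2 hg)
  rw [tb_testBit, h, Bool.not_true, Bool.false_or] at h2
  exact h2

/-- the letters of the facts -/
theorem lt_all {x : Nat} (hx : lalR x = true) :
    (0 < tg6 ltT (blf (ccf x) + 1) ∧ tg6 ltT (blf (ccf x) + 1) < 63 ∧
      leb (tg6 ltT (blf (ccf x) + 1) - 1) (blf (ccf x)) = true) ∧
    0 < tg6 ltmT (blf (ccf x) + 1) ∧ tg6 ltmT (blf (ccf x) + 1) < 63 ∧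
      leb (lmr (tg6 ltmT (blf (ccf x) + 1) - 1)) (blf (ccf x)) = true := by
  have h := lal_all (f := fun x => decide (0 < tg6 ltT (blf (ccf x) + 1)) &&
    decide (tg6 ltT (blf (ccf x) + 1) < 63) && leb (tg6 ltT (blf (ccf x) + 1) - 1) (blf (ccf x)) &&
    decide (0 < tg6 ltmT (blf (ccf x) + 1)) && decide (tg6 ltmT (blf (ccf x) + 1) < 63) &&
    leb (lmr (tg6 ltmT (blf (ccf x) + 1) - 1)) (blf (ccf x))) (by decide +kernel) hx
  simp only [Bool.and_eq_true, decide_eq_true_eq] at h
  obtain ⟨⟨⟨⟨⟨h1, h2⟩, h3⟩, h4⟩, h5⟩, h6⟩ := h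
  exact ⟨⟨h1, h2, h3⟩, h4, h5, h6⟩

/-- conflicts of the classes, first table -/
def cFb (k X m a n b : Nat) : Bool :=
  tb (gFj k X) (Nat.add (Nat.mul 64 (Nat.add a (Nat.mul 20 m))) (Nat.add b (Nat.mul 20 n)))

/-- conflicts of the classes, second table -/
def cLb (k X m a n b : Nat) : Bool :=
  tb (gLj k X) (Nat.add (Nat.mul 64 (Nat.add b (Nat.mul 20 n))) (Nat.add a (Nat.mul 20 m)))

theorem cFb_all {k l m n x y : Nat} (hk : k < 3) (hm : m < 3) (hn : n < 3)
    (h1 : p2 k l m x = true) (h2 : p2 n y k l = true) (h3 : g4R (6 - k) l (6 - m) (6 - n) x y = true) :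
    cFb k (ccf l + 1) m (blx x + 1) n (blx y + 1) = false := by
  have h0 : ((List.range 31).all fun l => (List.range 31).all fun x => !cmpR l x ||
    ((List.range 31).all fun y => !cmpR y l ||
    ((List.range 3).all fun k => (List.range 3).all fun m => !p2 k l m x ||
      ((List.range 3).all fun n => !p2 n y k l || !g4R (6 - k) l (6 - m) (6 - n) x y ||
        !cFb k (ccf l + 1) m (blx x + 1) n (blx y + 1))))) = true := by decide +kernel
  have e1 := h1
  have e2 := h2
  unfold p2 at e1 e2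
  simp only [Bool.and_eq_true] at e1 e2
  have c1 := e1.1.1.1
  have c2 := e2.1.1.1
  have c1' := c1
  have c2' := c2
  unfold cmpR cmpf at c1' c2'
  simp only [Bool.and_eq_true] at c1' c2'
  rw [List.all_eq_true] at h0
  have h0 := h0 l (List.mem_range.2 (lal_lt c1'.1.1))
  rw [List.all_eq_true] at h0
  have h0 := h0 x (List.mem_range.2 (lal_lt c1'.1.2))
  rw [c1, Bool.not_true, Bool.false_or, List.all_eq_true] at h0
  have h0 := h0 y (List.mem_range.2 (lal_lt c2'.1.1))
  rw [c2, Bool.not_true, Bool.false_or, List.all_eq_true] at h0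
  have h0 := h0 k (List.mem_range.2 hk)
  rw [List.all_eq_true] at h0
  have h0 := h0 m (List.mem_range.2 hm)
  rw [h1, Bool.not_true, Bool.false_or, List.all_eq_true] at h0
  have h0 := h0 n (List.mem_range.2 hn)
  rw [h2, h3] at h0
  simpa using h0

theorem cLb_all {k l m n x y : Nat} (hk : k < 3) (hm : m < 3) (hn : n < 3)
    (h1 : p2 k l m x = true) (h2 : p2 n y k l = true) (h3 : g4R (6 - k) l (6 - m) (6 - n) x y = true) :
    cLb k (ccf l + 1) m (blx x + 1) n (blx y + 1) = false := by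
  have h0 : ((List.range 31).all fun l => (List.range 31).all fun x => !cmpR l x ||
    ((List.range 31).all fun y => !cmpR y l ||
    ((List.range 3).all fun k => (List.range 3).all fun m => !p2 k l m x ||
      ((List.range 3).all fun n => !p2 n y k l || !g4R (6 - k) l (6 - m) (6 - n) x y ||
        !cLb k (ccf l + 1) m (blx x + 1) n (blx y + 1))))) = true := by decide +kernel
  have e1 := h1
  have e2 := h2
  unfold p2 at e1 e2
  simp only [Bool.and_eq_true] at e1 e2
  have c1 := e1.1.1.1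
  have c2 := e2.1.1.1
  have c1' := c1
  have c2' := c2
  unfold cmpR cmpf at c1' c2'
  simp only [Bool.and_eq_true] at c1' c2'
  rw [List.all_eq_true] at h0
  have h0 := h0 l (List.mem_range.2 (lal_lt c1'.1.1))
  rw [List.all_eq_true] at h0
  have h0 := h0 x (List.mem_range.2 (lal_lt c1'.1.2))
  rw [c1, Bool.not_true, Bool.false_or, List.all_eq_true] at h0
  have h0 := h0 y (List.mem_range.2 (lal_lt c2'.1.1))
  rw [c2, Bool.not_true, Bool.false_or, List.all_eq_true] at h0
  have h0 := h0 k (List.mem_range.2 hk)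
  rw [List.all_eq_true] at h0
  have h0 := h0 m (List.mem_range.2 hm)
  rw [h1, Bool.not_true, Bool.false_or, List.all_eq_true] at h0
  have h0 := h0 n (List.mem_range.2 hn)
  rw [h2, h3] at h0
  simpa using h0

/-- the classes of a neighbour -/
theorem cl_w {a : List Nat} (ha : glR a) :
    clL (nfc bmT wmT smT (enc (a.map ccf))) =
      blx (a.getD (a.length - 1) 0) + 1 + 20 * (6 - (a.map wlR).sum) ∧
    clF (nfc bmT wmT smT (enc (a.map ccf))) =
      blx (a.getD 0 0) + 1 + 20 * (6 - (a.map wlR).sum) := by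
  have la := blc_lt ha
  obtain ⟨a4, a6, -, -, aa, -⟩ := glf_w ha
  have e1 : slf (nfc bmT wmT smT (enc (a.map ccf))) = 6 - (a.map wlR).sum := by
    rw [slf_nfc la, wsl_w ha]
  have e3 : Nat.mod (nfc bmT wmT smT (enc (a.map ccf))) 32 = blx (a.getD 0 0) + 1 := by
    have h1 : Nat.mod (lo (nfc bmT wmT smT (enc (a.map ccf)))) 32 =
        Nat.mod (nfc bmT wmT smT (enc (a.map ccf))) 32 := by
      show nfc bmT wmT smT (enc (a.map ccf)) % 1073741824 % 32 = _ % 32
      omega
    rw [← h1, lo_nfc la, blc_w ha]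
    have h2 := enc_first (sm_bl aa) (by rw [List.length_map]; omega)
    show enc (a.map blx) % 32 = _
    rw [h2, getD_map0 (by omega)]
  have e4 : Nat.div (lo (nfc bmT wmT smT (enc (a.map ccf))))
      (pwF (lo (nfc bmT wmT smT (enc (a.map ccf))))) = blx (a.getD (a.length - 1) 0) + 1 := by
    rw [lo_nfc la, blc_w ha, pwF_eq]
    have h2 := enc_last (sm_bl aa) (by rw [List.length_map]; omega)
      (by rw [List.length_map]; omega)
    show enc (a.map blx) / pw (enc (a.map blx)) = _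
    rw [h2, List.length_map, getD_map0 (by omega)]
  constructor
  · unfold clL
    rw [e4, e1]
    rfl
  · unfold clF
    rw [e3, e1]
    rfl

variable {D : Type} {Y : FCS.Sys D} {e r : D}

theorem getD_last3 {l : List Nat} (h : l ≠ []) : l.getD (l.length - 1) 0 ∈ l := by
  have : 0 < l.length := List.length_pos_iff.2 h
  exact getD_mem (by omega)

/-- the letters of the systems of the star check -/
theorem lt_Y (hY : SyG Y) : Lt Y := by
  intro e x hx
  have h0 : Y.W e ≠ [] := by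
    intro h
    rw [h] at hx
    simp at hx
  exact lal_ol ((glf_w0 (hY.gl e h0)).2.2.2.2.1 x hx)

theorem gl_R (hY : SyG Y) (hr : (rlS Y).W r ≠ []) : glR ((rlS Y).W r) :=
  ⟨Y.W r, hY.gl r (rlS_ne.1 hr), rfl⟩

theorem sum_R (hY : SyG Y) : (((rlS Y).W r).map wlR).sum = ((Y.W r).map wl).sum := by
  show ((rl (Y.W r)).map wlR).sum = _
  rw [map_wlR (lt_Y hY r)]

/-- the letters at an edge -/
theorem p2_at3 (hY : SyG Y) (hr : (rlS Y).W r ≠ []) (ha : (rlS Y).W ((rlS Y).al r) ≠ []) :
    p2 (6 - (((rlS Y).W r).map wlR).sum) (((rlS Y).W r).getD 0 0)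
      (6 - (((rlS Y).W ((rlS Y).al r)).map wlR).sum)
      (((rlS Y).W ((rlS Y).al r)).getD (((rlS Y).W ((rlS Y).al r)).length - 1) 0) = true := by
  have hl := lt_Y hY
  obtain ⟨l4, -, s6, -, -, k1⟩ := glf_w (gl_R hY hr)
  obtain ⟨m4, -, t6, -, -, k2⟩ := glf_w (gl_R hY ha)
  have hr' : Y.W r ≠ [] := rlS_ne.1 hr
  have ha' : Y.W (Y.al r) ≠ [] := rlS_ne.1 ha
  have n1 := List.length_pos_iff.2 hr'
  have n2 := List.length_pos_iff.2 ha'
  have hg2 := hY.g2 r hr' ha'
  unfold G2 at hg2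
  have hc := (rlS_ok hY.ok hl).cmp r hr ha
  unfold p2
  rw [hc, k1 _ (getD_mem (by omega)), k2 _ (getD_last3 ha),
    show 6 - (6 - (((rlS Y).W r).map wlR).sum) = (((rlS Y).W r).map wlR).sum by omega,
    show 6 - (6 - (((rlS Y).W ((rlS Y).al r)).map wlR).sum) =
      (((rlS Y).W ((rlS Y).al r)).map wlR).sum by omega]
  have e1 : g2R (((rlS Y).W r).map wlR).sum (((rlS Y).W r).getD 0 0)
      (((rlS Y).W ((rlS Y).al r)).map wlR).sum
      (((rlS Y).W ((rlS Y).al r)).getD (((rlS Y).W ((rlS Y).al r)).length - 1) 0) = true := by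
    unfold g2R
    rw [sum_R hY, sum_R hY]
    show g2 ((Y.W r).map wl).sum (pj ((rl (Y.W r)).getD 0 0)) ((Y.W (Y.al r)).map wl).sum
      (pj ((rl (Y.W (Y.al r))).getD ((rl (Y.W (Y.al r))).length - 1) 0)) = true
    rw [rl_length, pj_getD (hl _) n1, pj_getD (hl _) (by omega)]
    exact hg2
  rw [e1]
  rfl

/-- the letters at three vertices -/
theorem p4_at3 (hY : SyG Y) (hr : (rlS Y).W r ≠ []) (ha : (rlS Y).W ((rlS Y).al r) ≠ [])
    (hb : (rlS Y).W ((rlS Y).al ((rlS Y).nx r)) ≠ []) :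
    p2 (6 - (((rlS Y).W ((rlS Y).al ((rlS Y).nx r))).map wlR).sum)
      (((rlS Y).W ((rlS Y).al ((rlS Y).nx r))).getD 0 0)
      (6 - (((rlS Y).W r).map wlR).sum) (((rlS Y).W r).getD 0 0) = true ∧
    g4R (6 - (6 - (((rlS Y).W r).map wlR).sum)) (((rlS Y).W r).getD 0 0)
      (6 - (6 - (((rlS Y).W ((rlS Y).al r)).map wlR).sum))
      (6 - (6 - (((rlS Y).W ((rlS Y).al ((rlS Y).nx r))).map wlR).sum))
      (((rlS Y).W ((rlS Y).al r)).getD (((rlS Y).W ((rlS Y).al r)).length - 1) 0)
      (((rlS Y).W ((rlS Y).al ((rlS Y).nx r))).getD 0 0) = true := by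
  have hl := lt_Y hY
  have hok := rlS_ok hY.ok hl
  have hrn : (rlS Y).W ((rlS Y).nx r) ≠ [] := hok.ne_nx hr
  have h2 := p2_at3 (r := (rlS Y).al ((rlS Y).nx r)) hY hb (by rw [hok.alal]; exact hrn)
  rw [hok.alal] at h2
  have hrot := hok.rot r hr
  have hlen := (hok.len r hr).1
  have e1 : ((rlS Y).W ((rlS Y).nx r)).getD (((rlS Y).W ((rlS Y).nx r)).length - 1) 0 =
      ((rlS Y).W r).getD 0 0 := by
    rw [hrot, List.length_rotate,
      List.getD_eq_getElem _ _ (by rw [List.length_rotate]; omega), List.getElem_rotate,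
      List.getD_eq_getElem _ _ (by omega)]
    congr 1
    rw [show ((rlS Y).W r).length - 1 + 1 = ((rlS Y).W r).length by omega, Nat.mod_self]
  have e2 : (((rlS Y).W ((rlS Y).nx r)).map wlR).sum = (((rlS Y).W r).map wlR).sum := by
    rw [hrot]
    exact ((List.rotate_perm _ 1).map _).sum_eq
  rw [e1, e2] at h2
  obtain ⟨-, -, s6, -, -, -⟩ := glf_w (gl_R hY hr)
  obtain ⟨-, -, t6, -, -, -⟩ := glf_w (gl_R hY ha)
  obtain ⟨-, -, u6, -, -, -⟩ := glf_w (gl_R hY hb)
  refine ⟨h2, ?_⟩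
  have hr' : Y.W r ≠ [] := rlS_ne.1 hr
  have ha' : Y.W (Y.al r) ≠ [] := rlS_ne.1 ha
  have hb' : Y.W (Y.al (Y.nx r)) ≠ [] := rlS_ne.1 hb
  have n1 := List.length_pos_iff.2 hr'
  have n2 := List.length_pos_iff.2 ha'
  have n3 := List.length_pos_iff.2 hb'
  have h3 := hY.g4 r hr' ha' hb'
  unfold G4 at h3
  rw [show 6 - (6 - (((rlS Y).W r).map wlR).sum) = (((rlS Y).W r).map wlR).sum by omega,
    show 6 - (6 - (((rlS Y).W ((rlS Y).al r)).map wlR).sum) =
      (((rlS Y).W ((rlS Y).al r)).map wlR).sum by omega,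
    show 6 - (6 - (((rlS Y).W ((rlS Y).al ((rlS Y).nx r))).map wlR).sum) =
      (((rlS Y).W ((rlS Y).al ((rlS Y).nx r))).map wlR).sum by omega]
  unfold g4R
  rw [sum_R hY, sum_R hY, sum_R hY]
  show g4 ((Y.W r).map wl).sum (pj ((rl (Y.W r)).getD 0 0)) ((Y.W (Y.al r)).map wl).sum
    ((Y.W (Y.al (Y.nx r))).map wl).sum
    (pj ((rl (Y.W (Y.al r))).getD ((rl (Y.W (Y.al r))).length - 1) 0))
    (pj ((rl (Y.W (Y.al (Y.nx r)))).getD 0 0)) = true
  rw [rl_length, pj_getD (hl _) n1, pj_getD (hl _) (by omega), pj_getD (hl _) n3]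
  exact h3

end

end Pool.FCR
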