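import Pool.Agent.FCK.Jr
import Pool.Agent.FCR.Cv

/-! # Star check with refined letters: the facts of a tree of numbers -/

namespace Pool.FCR

open Pool.FCS Pool.FC7

/-- the pattern of refined letters does not occur -/
def GfR (X : Fct) : Prop :=
  ∀ (D : Type) (Y : FCS.Sys D), SyG Y → NoX lleR lmr lsolR (rlS Y) X

theorem lmr_lt (g : Nat) (h : g < 46) : lmr g < 46 := by
  have : ((List.range 46).all fun g => decide (lmr g < 46)) = true := by decide +kernel
  rw [List.all_eq_true] at this
  simpa using this g (List.mem_range.2 h)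

/-- the facts with old letters -/
theorem GfR.of {X : Fct} (h : Gf X) (hn : noE X = true) : GfR X := by
  intro D Y hY
  refine nox_rl (lt_Y hY) lmr_lt hn ?_
  rw [lmr_eq]
  exact hY.nox X h

/-- all facts of the lists of a tree hold -/
def OkT (t : BT Nat) : Prop := ∀ p ∈ t.toList, ∀ X ∈ FCS.dF p.2, GfR X

theorem OkT.lf : OkT .lf := fun _ h => absurd h List.not_mem_nil

theorem OkT.nd {l r : BT Nat} {k v : Nat} (hl : OkT l) (hv : ∀ X ∈ FCS.dF v, GfR X)
    (hr : OkT r) : OkT (.nd l k v r) := by
  intro p hp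
  have hp' : p ∈ l.toList ++ (k, v) :: r.toList := hp
  rcases List.mem_append.1 hp' with h | h
  · exact hl p h
  · rcases List.mem_cons.1 h with h | h
    · subst h; exact hv
    · exact hr p h

/-- a leaf with one list -/
theorem OkT.one {k v : Nat} (hv : ∀ X ∈ FCS.dF v, GfR X) : OkT (.nd .lf k v .lf) :=
  OkT.nd OkT.lf hv OkT.lf

/-- the same tree -/
theorem OkT.eq {s t : BT Nat} (e : s = t) (h : OkT s) : OkT t := by
  subst e; exact h

/-- a list of facts with old letters only -/
noncomputable def noEl (v : Nat) : Bool := (FCS.dF v).all noE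

theorem gfl_of {v : Nat} (hv : ∀ X ∈ FCS.dF v, Gf X) (hn : noEl v = true) :
    ∀ X ∈ FCS.dF v, GfR X := by
  unfold noEl at hn
  rw [List.all_eq_true] at hn
  exact fun X hX => GfR.of (hv X hX) (hn X hX)

/-- a tree of facts with old letters -/
theorem OkT.old {t : BT Nat} (h : FCK.OkT t) (hn : t.allB (fun _ v => noEl v) = true) : OkT t := by
  intro p hp
  have h1 : noEl p.2 = true := BT.allB_sound hn p hp
  exact gfl_of (h p hp) h1

theorem dF_zero : FCS.dF 0 = [] := by decide +kernel

/-- all facts of the lists hold -/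
theorem OkT.fn {t : BT Nat} (h : OkT t) : ∀ l, ∀ X ∈ FCS.dF (t.getN l), GfR X := by
  intro l X hX
  by_cases h0 : t.getN l = 0
  · rw [h0, dF_zero] at hX
    exact absurd hX List.not_mem_nil
  · exact h _ (BT.getN_mem h0) X hX

/-- the table of the facts as lists -/
theorem OkT.fb {t : BT Nat} (h : OkT t) : ∀ p ∈ (t.mp FCS.dF).toList, ∀ X ∈ p.2, GfR X := by
  intro p hp X hX
  rw [BT.toList_mp] at hp
  obtain ⟨q, hq, rfl⟩ := List.mem_map.1 hp
  exact h q hq X hX

end Pool.FCR
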