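import Pool.Agent.FCR.Jr

/-! # Star check with refined letters: the refined patterns

In a word of full weight the letters `46`, `47` of a pattern say that the face has two units, in
another word they say that it has not two units. -/

namespace Pool.FCR

open Pool.FCS Pool.FC7

/-- the weight of a letter of a pattern -/
def wpt (g : Nat) : Nat := Nat.land (Nat.shiftRight 0x5999ea5790026799d6be599a5 (Nat.mul 2 g)) 3

/-- the weight of a word of a pattern -/
def wpw (l : List Nat) : Nat :=
  List.rec (motive := fun _ => Nat) 0 (fun x _ ih => Nat.add (wpt x) ih) l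

/-- the weight of a letter of a pattern after reflection -/
def wpm (g : Nat) : Nat := Nat.land (Nat.shiftRight 0x5996ea5790025b99d6be566a5 (Nat.mul 2 g)) 3

/-- the weight of a word of a pattern after reflection -/
def wmw (l : List Nat) : Nat :=
  List.rec (motive := fun _ => Nat) 0 (fun x _ ih => Nat.add (wpm x) ih) l

/-- the word and its mirror image have the same weight -/
def mok (l : List Nat) : Bool := Nat.beq (wmw l) (wpw l)

/-- the old letter; `f`: full weight -/
def cvl (f : Bool) (g : Nat) : Nat :=
  bif Nat.beq g 46 then (bif f then 44 else 35) else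
  bif Nat.beq g 47 then (bif f then 45 else 38) else
  bif Nat.beq g 48 then 32 else
  bif Nat.beq g 49 then 0 else g

/-- the old word -/
def cvw (l : List Nat) : List Nat := l.map (cvl (Nat.beq (wpw l) 6))

/-- the old pattern -/
def cvX (X : Fct) : Fct := (cvw X.1, X.2.map fun p => (p.1, cvw p.2))

theorem lleR_lt50 {g x : Nat} (hx : x < 31) (h : lleR g x = true) : g < 50 := by
  by_contra hc
  unfold lleR at h
  rw [if_neg (by omega), if_neg (by omega), if_neg (by omega), if_neg (by omega)] at h
  have h3 : pj x < 27 := by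
    have : ∀ x < 31, pj x < 27 := by decide
    exact this x hx
  have h4 : lgen g = [] := by
    unfold lgen
    rw [if_neg (by omega), if_neg (by omega), if_neg (by omega), if_neg (by omega),
      if_neg (by omega), if_neg (by omega), if_neg (by omega), if_neg (by omega),
      if_neg (by omega), if_neg (by omega), if_neg (by omega), if_neg (by omega),
      if_neg (by omega), if_neg (by omega), if_neg (by omega), if_neg (by omega)]
  unfold lle at h
  rw [h4] at h
  simp only [List.any_nil, Bool.or_false, decide_eq_true_eq] at h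
  omega

theorem wpt_le : ∀ g < 50, ∀ x < 31, lleR g x = true → wpt g = wl (pj x) := by
  decide +kernel

theorem cvl_le : ∀ g < 50, ∀ x < 27, x ≠ 20 → ∀ f b : Bool, lleR g (rf f b x) = true →
    lle (cvl f g) x = true := by
  decide +kernel

theorem lew_cv0 {f b : Bool} : ∀ {g u : List Nat}, (∀ x ∈ u, Ol x) →
    lew lleR g (u.map (rf f b)) = true → lew lle (g.map (cvl f)) u = true ∧
      wpw g = (u.map wl).sum
  | [], [], _, _ => ⟨rfl, rfl⟩
  | [], _ :: _, _, h => by simp [lew] at h
  | _ :: _, [], _, h => by simp [lew] at h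
  | a :: g, x :: u, hu, h => by
    have h1 : (lleR a (rf f b x) && lew lleR g (u.map (rf f b))) = true := h
    rw [Bool.and_eq_true] at h1
    have hx := hu x (List.mem_cons_self ..)
    have h2 := lew_cv0 (fun y hy => hu y (List.mem_cons_of_mem _ hy)) h1.2
    have h3 := rf_lt (a := f) (b := b) hx
    have h4 := lleR_lt50 h3 h1.1
    refine ⟨?_, ?_⟩
    · show (lle (cvl f a) x && lew lle (g.map (cvl f)) u) = true
      rw [cvl_le a h4 x hx.1 hx.2 f b h1.1, h2.1]
      rfl
    · have h5 : wpw (a :: g) = wpt a + wpw g := rfl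
      rw [h5, wpt_le a h4 _ h3 h1.1, pj_rf hx, h2.2, List.map_cons, List.sum_cons]

theorem lew_cv {g u : List Nat} (hu : ∀ x ∈ u, Ol x) (h : lew lleR g (rl u) = true) :
    lew lle (cvw g) u = true := by
  obtain ⟨h1, h2⟩ := lew_cv0 hu h
  unfold cvw
  have h3 : Nat.beq (wpw g) 6 = ful u := by
    rw [h2]
    show Nat.beq ((u.map wl).sum) 6 = decide ((u.map wl).sum = 6)
    rw [Bool.eq_iff_iff]
    simp
  rw [h3]
  exact h1

variable {D : Type*}

theorem mtn_cv {Y : Sys D} (hl : Lt Y) {X : Fct} {e : D} (h : Mtn lleR lsolR (rlS Y) X e) :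
    Mtn lle lsol Y (cvX X) e := by
  obtain ⟨h1, h2⟩ := h
  refine ⟨lew_cv (hl _) h1, fun q hq => ?_⟩
  obtain ⟨p, hp, rfl⟩ := List.mem_map.1 hq
  obtain ⟨h3, h4⟩ := h2 p hp
  constructor
  · intro h0
    have h5 : p.2 = [] := List.map_eq_nil_iff.1 h0
    exact (pls_rl (hl _)).1 (h3 h5)
  · intro h0
    have h5 : p.2 ≠ [] := fun h => h0 (by show cvw p.2 = []; rw [h]; rfl)
    exact lew_cv (hl _) (h4 h5)

theorem wpm_lm {g : Nat} (h : g < 50) : wpm g = wpt (lm g) := by
  have : ∀ g < 50, wpm g = wpt (lm g) := by decide +kernel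
  exact this g h

theorem cvl_lm (f : Bool) : ∀ g, cvl f (lm g) = lm (cvl f g) := by
  intro g
  by_cases h : g < 50
  · have : ∀ f : Bool, ∀ g < 50, cvl f (lm g) = lm (cvl f g) := by decide +kernel
    exact this f g h
  · have h2 : lm g = g := by
      unfold lm
      iterate 14 rw [if_neg (by omega)]
    have h3 : cvl f g = g := by
      unfold cvl
      have hb : ∀ n < 50, Nat.beq g n = false := by
        intro n hn
        rw [← Bool.not_eq_true]; intro h
        have := Nat.eq_of_beq_eq_true h; omega
      rw [hb 46 (by norm_num), hb 47 (by norm_num), hb 48 (by norm_num), hb 49 (by norm_num)]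
      rfl
    rw [h2, h3, h2]

theorem wpw_eq (l : List Nat) : wpw l = (l.map wpt).sum := by
  induction l with
  | nil => rfl
  | cons a l ih =>
    have h : wpw (a :: l) = wpt a + wpw l := rfl
    rw [h, ih, List.map_cons, List.sum_cons]

theorem wmw_eq (l : List Nat) : wmw l = (l.map wpm).sum := by
  induction l with
  | nil => rfl
  | cons a l ih =>
    have h : wmw (a :: l) = wpm a + wmw l := rfl
    rw [h, ih, List.map_cons, List.sum_cons]

theorem cvw_mir {l : List Nat} (hl : ∀ x ∈ l, x < 50) (h : mok l = true) :
    cvw (mirw lm l) = mirw lm (cvw l) := by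
  unfold cvw mirw
  have h1 : wpw (l.map lm).reverse = wpw l := by
    have h2 := Nat.eq_of_beq_eq_true h
    rw [← h2, wpw_eq, wmw_eq, List.map_reverse, List.sum_reverse, List.map_map]
    congr 1
    exact List.map_congr_left fun x hx => (wpm_lm (hl x hx)).symm
  rw [h1, List.map_reverse, List.map_map, List.map_map]
  congr 1
  exact List.map_congr_left fun x _ => cvl_lm _ x

/-- the letters are letters of patterns, and the words and their mirror images have the same
weights -/
def mkX (X : Fct) : Bool := (X.1.all fun x => Nat.blt x 50) && mok X.1 &&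
  X.2.all fun p => (p.2.all fun x => Nat.blt x 50) && mok p.2

theorem cvX_mir {X : Fct} (h : mkX X = true) : cvX (FCS.mirX lm X) = FCS.mirX lm (cvX X) := by
  unfold mkX at h
  simp only [Bool.and_eq_true, List.all_eq_true, Nat.blt_eq] at h
  obtain ⟨⟨a1, a2⟩, a3⟩ := h
  unfold cvX FCS.mirX
  have h1 : (cvw X.1).length = X.1.length := List.length_map ..
  rw [cvw_mir a1 a2, h1, List.map_map, List.map_map]
  congr 1
  refine List.map_congr_left fun p hp => ?_
  simp only [Function.comp, cvw_mir (a3 p hp).1 (a3 p hp).2]

/-- a refined pattern does not occur if the old pattern does not occur -/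
theorem GfR.cv {X : Fct} (h : Gf (cvX X)) (hm : mkX X = true) : GfR X := by
  intro D Y hY
  have hl := lt_Y hY
  have h1 := hY.nox _ h
  rw [lmr_eq]
  refine ⟨fun e he => h1.1 e (mtn_cv hl he), fun e he => h1.2 e ?_⟩
  have h2 := mtn_cv hl he
  rw [cvX_mir hm] at h2
  exact h2

/-- the list `v` of refined patterns comes from the list `u` -/
noncomputable def cvn (v u : Nat) : Bool :=
  decide ((FCS.dF v).map cvX = FCS.dF u) && (FCS.dF v).all mkX

theorem gfl_cv {v u : Nat} (hu : ∀ X ∈ FCS.dF u, Gf X) (h : cvn v u = true) :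
    ∀ X ∈ FCS.dF v, GfR X := by
  unfold cvn at h
  rw [Bool.and_eq_true, decide_eq_true_eq, List.all_eq_true] at h
  intro X hX
  have h1 : cvX X ∈ FCS.dF u := by
    rw [← h.1]
    exact List.mem_map_of_mem hX
  exact GfR.cv (hu _ h1) (h.2 X hX)

/-- the tree `t` of refined patterns comes from the tree `s` -/
noncomputable def cvt : BT Nat → BT Nat → Bool
  | .lf, .lf => true
  | .nd l _ v r, .nd l' _ v' r' => bif cvt l l' then (bif cvn v v' then cvt r r' else false) else false
  | _, _ => false

theorem OkT.cv {s : BT Nat} : ∀ {t : BT Nat}, FCK.OkT s → cvt t s = true → OkT t := by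
  induction s with
  | lf =>
    intro t _ h
    cases t with
    | lf => exact OkT.lf
    | nd l k v r => simp [cvt] at h
  | nd l' k' v' r' ihl ihr =>
    intro t hs h
    cases t with
    | lf => simp [cvt] at h
    | nd l k v r =>
      have h0 : (bif cvt l l' then (bif cvn v v' then cvt r r' else false) else false) = true := h
      rw [cond_true_iff] at h0
      obtain ⟨h1, h2⟩ := h0
      rw [cond_true_iff] at h2
      obtain ⟨h2, h3⟩ := h2
      have e : (BT.nd l' k' v' r').toList = l'.toList ++ (k', v') :: r'.toList := rfl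
      unfold FCK.OkT at hs
      rw [e] at hs
      have s1 : FCK.OkT l' := fun p hp => hs p (List.mem_append.2 (Or.inl hp))
      have s2 : ∀ X ∈ FCS.dF v', Gf X := hs (k', v') (List.mem_append.2 (Or.inr
        (List.mem_cons_self ..)))
      have s3 : FCK.OkT r' := fun p hp => hs p (List.mem_append.2 (Or.inr
        (List.mem_cons_of_mem _ hp)))
      exact OkT.nd (ihl s1 h1) (gfl_cv s2 h2) (ihr s3 h3)

end Pool.FCR
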