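import Pool.Agent.FCR.Js

/-! # Star check with refined letters: patterns below a proved pattern -/

namespace Pool.FCR

open Pool.FCS Pool.FC7

/-- the old letters which the letter `a` of a pattern allows are allowed by `b` -/
def gle (a b : Nat) : Bool :=
  tb 0x200004000400000010000200020000000800010000800000040000800040000002000042000000000100040800000000008000000408000021c00408040800000020020400000000001000000202000010380204020200000004000018000000000200006004000000010001810100000000000000000000000000000000000000000000000000000000000000000000000000000000000000000400000000000000020000000000000001000000000000000080000000000000004000000000000000280008000000000014000200000000000800000000000000040000000000000002000000000000000100000000000000008000000000000000400000000000000020000000000000001000000000000000080000000000000004000000000000000200000000000000010000000000000000800000000000000040000000000000002000000000000000100000000000000008000000000000000400000000000000020000000000000001 (Nat.add (Nat.mul 64 b) a)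

/-- the letter of a pattern allows no solid letter -/
def nsl (g : Nat) : Bool := tb 0x3ff807fe06ca g

/-- letterwise `gle` -/
def lwb (g : List Nat) : List Nat → Bool :=
  List.rec (motive := fun _ => List Nat → Bool)
    (fun p => List.rec (motive := fun _ => Bool) true (fun _ _ _ => false) p)
    (fun a _ ih p => List.rec (motive := fun _ => Bool) false
      (fun b q _ => bif gle a b then ih q else false) p) g

/-- some letter allows no solid letter -/
def anl (g : List Nat) : Bool :=
  List.rec (motive := fun _ => Bool) false (fun x _ ih => bif nsl x then true else ih) g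

/-- length of a list -/
def lnt (l : List Nat) : Nat := List.rec (motive := fun _ => Nat) 0 (fun _ _ n => Nat.succ n) l

/-- the word of a pattern is empty, has not length four, or has a letter which is not solid -/
def plw (g : List Nat) : Bool :=
  List.rec (motive := fun _ => Bool) true
    (fun _ _ _ => bif Nat.beq (lnt g) 4 then anl g else true) g

/-- the first neighbour with the number `k` has the property `f` -/
def fnk (nb : List (Nat × List Nat)) (k : Nat) (f : List Nat → Bool) : Bool :=
  List.rec (motive := fun _ => Bool) false
    (fun p _ ih => bif Nat.beq p.1 k then f p.2 else ih) nb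

/-- the test for one neighbour of the proved pattern -/
def low1 (nb : List (Nat × List Nat)) (q : Nat × List Nat) : Bool :=
  fnk nb q.1 fun u => List.rec (motive := fun _ => Bool) (plw u) (fun _ _ _ => lwb u q.2) q.2

/-- the pattern `S` of old letters is below the pattern `P` -/
def lowX (S P : Fct) : Bool :=
  bif lwb S.1 P.1 then
    List.rec (motive := fun _ => Bool) true (fun q _ ih => bif low1 S.2 q then ih else false) P.2
  else false

theorem gle_ok : ∀ b < 50, ∀ a < 50, gle a b = true → ∀ x < 27, lle a x = true → lle b x = true := by
  decide +kernel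

theorem gle_lt {a b : Nat} (ha : a < 64) (h : gle a b = true) : b < 50 := by
  by_contra hb
  unfold gle tb at h
  have h1 : Nat.shiftRight 0x200004000400000010000200020000000800010000800000040000800040000002000042000000000100040800000000008000000408000021c00408040800000020020400000000001000000202000010380204020200000004000018000000000200006004000000010001810100000000000000000000000000000000000000000000000000000000000000000000000000000000000000000400000000000000020000000000000001000000000000000080000000000000004000000000000000280008000000000014000200000000000800000000000000040000000000000002000000000000000100000000000000008000000000000000400000000000000020000000000000001000000000000000080000000000000004000000000000000200000000000000010000000000000000800000000000000040000000000000002000000000000000100000000000000008000000000000000400000000000000020000000000000001 (Nat.add (Nat.mul 64 b) a) = 0 := by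
    show _ >>> _ = 0
    rw [Nat.shiftRight_eq_div_pow]
    apply Nat.div_eq_of_lt
    calc 0x200004000400000010000200020000000800010000800000040000800040000002000042000000000100040800000000008000000408000021c00408040800000020020400000000001000000202000010380204020200000004000018000000000200006004000000010001810100000000000000000000000000000000000000000000000000000000000000000000000000000000000000000400000000000000020000000000000001000000000000000080000000000000004000000000000000280008000000000014000200000000000800000000000000040000000000000002000000000000000100000000000000008000000000000000400000000000000020000000000000001000000000000000080000000000000004000000000000000200000000000000010000000000000000800000000000000040000000000000002000000000000000100000000000000008000000000000000400000000000000020000000000000001 < 2 ^ 3200 := by decide +kernel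
      _ ≤ 2 ^ (64 * b + a) := Nat.pow_le_pow_right (by norm_num) (by omega)
  rw [h1] at h
  simp at h

theorem lle_lt50 {g x : Nat} (hx : x < 27) (h : lle g x = true) : g < 50 := by
  by_contra hc
  have h4 : lgen g = [] := by
    unfold lgen
    rw [if_neg (by omega), if_neg (by omega), if_neg (by omega), if_neg (by omega),
      if_neg (by omega), if_neg (by omega), if_neg (by omega), if_neg (by omega),
      if_neg (by omega), if_neg (by omega), if_neg (by omega), if_neg (by omega),
      if_neg (by omega), if_neg (by omega), if_neg (by omega), if_neg (by omega)]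
  unfold lle at h
  rw [h4] at h
  simp only [List.any_nil, Bool.or_false, decide_eq_true_eq] at h
  omega

theorem gle_le {a b x : Nat} (hx : x < 27) (h : gle a b = true) (ha : lle a x = true) :
    lle b x = true := by
  have h1 := lle_lt50 hx ha
  exact gle_ok b (gle_lt (by omega) h) a h1 h x hx ha

theorem gle_lm : ∀ b < 50, ∀ a < 50, gle a b = true → gle (lm a) (lm b) = true := by
  decide +kernel

theorem nsl_ok : ∀ g < 50, nsl g = true → ∀ x < 27, lle g x = true → lsol x = false := by
  decide +kernel

theorem nsl_lm : ∀ g < 50, nsl g = true → nsl (lm g) = true := by decide +kernel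

theorem lm_lt : ∀ g < 50, lm g < 50 := by decide +kernel

theorem lnt_eq : ∀ l : List Nat, lnt l = l.length
  | [] => rfl
  | x :: l => by
    have h : lnt (x :: l) = Nat.succ (lnt l) := rfl
    rw [h, lnt_eq l, List.length_cons]

/-- letterwise `gle` as a relation -/
def Lww (g p : List Nat) : Prop := List.Forall₂ (fun a b => gle a b = true) g p

theorem lwb_iff : ∀ {g p : List Nat}, lwb g p = true → Lww g p
  | [], [], _ => List.Forall₂.nil
  | [], _ :: _, h => by
    have : false = true := h
    simp at this
  | _ :: _, [], h => by
    have : false = true := h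
    simp at this
  | a :: g, b :: p, h => by
    have h1 : (bif gle a b then lwb g p else false) = true := h
    cases hb : gle a b
    · rw [hb] at h1; simp at h1
    · rw [hb, cond_true] at h1
      exact List.Forall₂.cons hb (lwb_iff h1)

theorem Lww.lew {g p u : List Nat} (h : Lww g p) (hu : ∀ x ∈ u, x < 27)
    (hg : FCS.lew lle g u = true) : FCS.lew lle p u = true := by
  induction h generalizing u with
  | nil => exact hg
  | @cons a b g p h1 _ ih =>
    cases u with
    | nil => simp [FCS.lew] at hg
    | cons x u =>
      have h2 : (lle a x && FCS.lew lle g u) = true := hg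
      rw [Bool.and_eq_true] at h2
      show (lle b x && FCS.lew lle p u) = true
      rw [gle_le (hu x (List.mem_cons_self ..)) h1 h2.1,
        ih (fun y hy => hu y (List.mem_cons_of_mem _ hy)) h2.2]
      rfl

theorem Lww.mir {g p : List Nat} (h : Lww g p) (hg : ∀ x ∈ g, x < 50) :
    Lww (mirw lm g) (mirw lm p) := by
  unfold mirw Lww
  rw [List.forall₂_reverse_iff]
  induction h with
  | nil => exact List.Forall₂.nil
  | @cons a b g p h1 _ ih =>
    have ha := hg a (List.mem_cons_self ..)
    exact List.Forall₂.cons (gle_lm b (gle_lt (by omega) h1) a ha h1)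
      (ih fun x hx => hg x (List.mem_cons_of_mem _ hx))

/-- the word of a pattern excludes a solid word of length four -/
def Plw (g : List Nat) : Prop := g = [] ∨ g.length ≠ 4 ∨ ∃ x ∈ g, nsl x = true

theorem anl_ex : ∀ {g : List Nat}, anl g = true → ∃ x ∈ g, nsl x = true
  | [], h => by simp [anl] at h
  | x :: g, h => by
    have e : anl (x :: g) = (bif nsl x then true else anl g) := rfl
    rw [e] at h
    cases h1 : nsl x
    · rw [h1] at h
      obtain ⟨y, hy, h2⟩ := anl_ex h
      exact ⟨y, List.mem_cons_of_mem _ hy, h2⟩
    · exact ⟨x, List.mem_cons_self .., h1⟩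

theorem plw_iff {g : List Nat} (h : plw g = true) : Plw g := by
  cases g with
  | nil => exact Or.inl rfl
  | cons a l =>
    have h1 : (bif Nat.beq (lnt (a :: l)) 4 then anl (a :: l) else true) = true := h
    cases hb : Nat.beq (lnt (a :: l)) 4
    · have h2 : lnt (a :: l) ≠ 4 := Nat.ne_of_beq_eq_false hb
      rw [lnt_eq] at h2
      exact Or.inr (Or.inl h2)
    · rw [hb] at h1
      exact Or.inr (Or.inr (anl_ex h1))

theorem Plw.mir {g : List Nat} (h : Plw g) (hg : ∀ x ∈ g, x < 50) : Plw (mirw lm g) := by
  unfold mirw
  rcases h with h | h | ⟨x, hx, h⟩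
  · left; rw [h]; rfl
  · right; left
    rw [List.length_reverse, List.length_map]
    exact h
  · right; right
    exact ⟨lm x, List.mem_reverse.2 (List.mem_map_of_mem hx), nsl_lm x (hg x hx) h⟩

/-- a typed word which matches -/
theorem Plw.pls {g u : List Nat} (h : Plw g) (hg : g ≠ []) (hu : ∀ x ∈ u, x < 27)
    (hl : FCS.lew lle g u = true) : Pls lsol u := by
  have key : ∀ {g u : List Nat}, FCS.lew lle g u = true → g.length = u.length ∧
      ∀ x ∈ g, ∃ y ∈ u, lle x y = true := by
    intro g
    induction g with
    | nil =>
      intro u h
      cases u with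
      | nil => exact ⟨rfl, fun x hx => absurd hx List.not_mem_nil⟩
      | cons b u => simp [FCS.lew] at h
    | cons a g ih =>
      intro u h
      cases u with
      | nil => simp [FCS.lew] at h
      | cons b u =>
        have h2 : (lle a b && FCS.lew lle g u) = true := h
        rw [Bool.and_eq_true] at h2
        obtain ⟨h3, h4⟩ := ih h2.2
        refine ⟨by rw [List.length_cons, List.length_cons, h3], fun x hx => ?_⟩
        rcases List.mem_cons.1 hx with rfl | hx
        · exact ⟨b, List.mem_cons_self .., h2.1⟩
        · obtain ⟨y, hy, h5⟩ := h4 x hx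
          exact ⟨y, List.mem_cons_of_mem _ hy, h5⟩
  obtain ⟨h1, h2⟩ := key hl
  right
  rintro ⟨h3, h4⟩
  rcases h with h | h | ⟨x, hx, h⟩
  · exact hg h
  · exact h (by omega)
  · obtain ⟨y, hy, h5⟩ := h2 x hx
    have h6 := nsl_ok x (lle_lt50 (hu y hy) h5) h y (hu y hy) h5
    rw [h4 y hy] at h6
    simp at h6

/-- the pattern `S` of old letters is below the pattern `P` -/
def Low (S P : Fct) : Prop :=
  Lww S.1 P.1 ∧ ∀ q ∈ P.2, ∃ p ∈ S.2, p.1 = q.1 ∧ (q.2 = [] → Plw p.2) ∧
    (q.2 ≠ [] → p.2 ≠ [] ∧ Lww p.2 q.2)

theorem fnk_ex {f : List Nat → Bool} {k : Nat} : ∀ {nb : List (Nat × List Nat)},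
    fnk nb k f = true → ∃ p ∈ nb, p.1 = k ∧ f p.2 = true
  | [], h => by simp [fnk] at h
  | p :: nb, h => by
    have e : fnk (p :: nb) k f = (bif Nat.beq p.1 k then f p.2 else fnk nb k f) := rfl
    rw [e] at h
    cases hb : Nat.beq p.1 k
    · rw [hb] at h
      obtain ⟨q, hq, h1⟩ := fnk_ex h
      exact ⟨q, List.mem_cons_of_mem _ hq, h1⟩
    · rw [hb] at h
      exact ⟨p, List.mem_cons_self .., Nat.eq_of_beq_eq_true hb, h⟩

theorem lowX_iff {S P : Fct} (h : lowX S P = true) : Low S P := by
  unfold lowX at h
  have h1 : lwb S.1 P.1 = true := by
    cases hb : lwb S.1 P.1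
    · rw [hb] at h; simp at h
    · rfl
  rw [h1, cond_true] at h
  refine ⟨lwb_iff h1, ?_⟩
  have key : ∀ l : List (Nat × List Nat), List.rec (motive := fun _ => Bool) true
      (fun q _ ih => bif low1 S.2 q then ih else false) l = true → ∀ q ∈ l, low1 S.2 q = true := by
    intro l
    induction l with
    | nil => intro _ q hq; exact absurd hq List.not_mem_nil
    | cons a l ih =>
      intro h2 q hq
      have h3 : (bif low1 S.2 a then List.rec (motive := fun _ => Bool) true
        (fun q _ ih => bif low1 S.2 q then ih else false) l else false) = true := h2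
      cases hb : low1 S.2 a
      · rw [hb] at h3; simp at h3
      · rw [hb, cond_true] at h3
        rcases List.mem_cons.1 hq with rfl | hq
        · exact hb
        · exact ih h3 q hq
  intro q hq
  have h2 := key _ h q hq
  unfold low1 at h2
  obtain ⟨p, hp, h3, h4⟩ := fnk_ex h2
  obtain ⟨k, w⟩ := q
  refine ⟨p, hp, h3, ?_, ?_⟩
  · rintro h0
    have h0 : w = [] := h0
    subst h0
    exact plw_iff h4
  · intro h0
    have h0 : w ≠ [] := h0
    have h5 : lwb p.2 w = true := by
      cases w with
      | nil => exact absurd rfl h0
      | cons a l => exact h4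
    have h6 := lwb_iff h5
    refine ⟨?_, h6⟩
    intro h7
    rw [h7] at h6
    cases h6
    exact h0 rfl

theorem Lww.length {g p : List Nat} (h : Lww g p) : g.length = p.length := h.length_eq

theorem Low.mir {S P : Fct} (h : Low S P) (hS : ∀ x ∈ S.1, x < 50)
    (hn : ∀ p ∈ S.2, ∀ x ∈ p.2, x < 50) : Low (mirX lm S) (mirX lm P) := by
  obtain ⟨h1, h2⟩ := h
  have hlen := h1.length
  refine ⟨h1.mir hS, fun q hq => ?_⟩
  obtain ⟨q, hq', rfl⟩ := List.mem_map.1 hq
  obtain ⟨p, hp, h3, h4, h5⟩ := h2 q hq'
  refine ⟨((S.1.length - p.1) % S.1.length, mirw lm p.2), List.mem_map.2 ⟨p, hp, rfl⟩, ?_, ?_, ?_⟩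
  · show (S.1.length - p.1) % S.1.length = (P.1.length - q.1) % P.1.length
    rw [hlen, h3]
  · intro h6
    have h7 : q.2 = [] := by
      have h8 : (q.2.map lm).reverse = [] := h6
      rw [List.reverse_eq_nil_iff, List.map_eq_nil_iff] at h8
      exact h8
    exact (h4 h7).mir (hn p hp)
  · intro h6
    have h7 : q.2 ≠ [] := by
      intro h8
      exact h6 (by show mirw lm q.2 = []; rw [h8]; rfl)
    obtain ⟨h8, h9⟩ := h5 h7
    refine ⟨?_, h9.mir (hn p hp)⟩
    intro h10
    have h11 : (p.2.map lm).reverse = [] := h10
    rw [List.reverse_eq_nil_iff, List.map_eq_nil_iff] at h11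
    exact h8 h11

variable {D : Type*}

theorem mtn_low {Y : Sys D} (hl : Lt Y) {S P : Fct} (h : Low S P) {e : D}
    (hm : Mtn lle lsol Y S e) : Mtn lle lsol Y P e := by
  obtain ⟨h1, h2⟩ := h
  obtain ⟨m1, m2⟩ := hm
  have hl' : ∀ e, ∀ x ∈ Y.W e, x < 27 := fun e x hx => (hl e x hx).1
  refine ⟨h1.lew (hl' _) m1, fun q hq => ?_⟩
  obtain ⟨p, hp, h3, h4, h5⟩ := h2 q hq
  obtain ⟨m3, m4⟩ := m2 p hp
  rw [h3] at m3 m4
  constructor
  · intro h6
    by_cases h7 : p.2 = []
    · exact m3 h7
    · exact (h4 h6).pls h7 (hl' _) (m4 h7)
  · intro h6
    obtain ⟨h7, h8⟩ := h5 h6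
    exact h8.lew (hl' _) (m4 h7)

theorem cvl_lt : ∀ f : Bool, ∀ g < 50, cvl f g < 50 := by decide +kernel

theorem cvw_lt {l : List Nat} (h : ∀ x ∈ l, x < 50) : ∀ x ∈ cvw l, x < 50 := by
  intro x hx
  obtain ⟨y, hy, rfl⟩ := List.mem_map.1 hx
  exact cvl_lt _ y (h y hy)

/-- a refined pattern below a proved pattern does not occur -/
theorem GfR.low {S P : Fct} (h : Gf P) (hm : mkX S = true) (hl : lowX (cvX S) P = true) :
    GfR S := by
  intro D Y hY
  have hlt := lt_Y hY
  have h1 := hY.nox _ h
  have h2 := lowX_iff hl
  have hm' := hm
  unfold mkX at hm'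
  simp only [Bool.and_eq_true, List.all_eq_true, Nat.blt_eq] at hm'
  obtain ⟨⟨a1, a2⟩, a3⟩ := hm'
  have h3 : Low (mirX lm (cvX S)) (mirX lm P) := by
    refine h2.mir (cvw_lt a1) ?_
    intro p hp
    obtain ⟨q, hq, rfl⟩ := List.mem_map.1 hp
    exact cvw_lt (a3 q hq).1
  rw [lmr_eq]
  refine ⟨fun e he => h1.1 e (mtn_low hlt h2 (mtn_cv hlt he)), fun e he => h1.2 e ?_⟩
  have h4 := mtn_cv hlt he
  rw [cvX_mir hm] at h4
  exact mtn_low hlt h3 h4

end Pool.FCR
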