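import Pool.Agent.FCR.Lw
import Pool.Agent.FCR.Ea

/-! # Star check with refined letters: lists of patterns below proved patterns

A pointer `p` of a pattern is `0` for an impossible pattern and `32 * k + i + 1` for a pattern below
the pattern `i` of the list with the key `k`. -/

namespace Pool.FCR

open Pool.FCS Pool.FC7

noncomputable section

/-- the pattern `j` of a packed list -/
def fct (N j : Nat) : Fct := dX (Nat.mod N 16) (nX N j)

/-- the pattern `X` is below the pattern `i` of the list `N` -/
def lw3 (X : Fct) (N i : Nat) : Bool :=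
  bif Nat.beq (nX N i) 0 then false else bif mkX X then lowX (cvX X) (fct N i) else false

/-- the test of the pattern `X` with the pointer `p` -/
def lw2 (s : BT Nat) (X : Fct) (p : Nat) : Bool :=
  bif Nat.beq p 0 then eok X
  else lw3 X (s.getN (Nat.shiftRight (Nat.pred p) 5)) (Nat.mod (Nat.pred p) 32)

/-- the test of the pattern `j` of the list `v`; `w`: the pointers -/
def lw1 (s : BT Nat) (v w j : Nat) : Bool :=
  bif Nat.beq (nX v j) 0 then true
  else lw2 s (fct v j) (Nat.mod (Nat.shiftRight w (Nat.mul 24 j)) 16777216)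

/-- the test of the list `v` with the pointers `w` -/
def lwn (s : BT Nat) (v w : Nat) : Bool :=
  Nat.rec (motive := fun _ => Bool) true (fun j ih => bif lw1 s v w j then ih else false) 32

/-- the test of the pattern `j` of the list `v` with one proved list `N`; `w`: the numbers of the
proved patterns, with 5 bits -/
def ll1 (N v w j : Nat) : Bool :=
  bif Nat.beq (nX v j) 0 then true
  else lw3 (fct v j) N (Nat.mod (Nat.shiftRight w (Nat.mul 5 j)) 32)

/-- the test of the list `v` with one proved list `N` -/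
def lwl (N v w : Nat) : Bool :=
  Nat.rec (motive := fun _ => Bool) true (fun j ih => bif ll1 N v w j then ih else false) 32

/-- the test of the list `v`; `p`: the key of the proved list and the numbers -/
def lwt (s : BT Nat) (v p : Nat) : Bool := lwl (s.getN (Nat.shiftRight p 160)) v p

end

theorem mem_dFa {N : Nat} : ∀ {k j0 j : Nat}, j0 ≤ j → j < j0 + k → nX N j ≠ 0 →
    fct N j ∈ dFa N k j0
  | 0, j0, j, h1, h2, _ => absurd h2 (by omega)
  | k + 1, j0, j, h1, h2, h3 => by
    have e : dFa N (k + 1) j0 = Bool.rec (motive := fun _ => List (List Nat × List (Nat × List Nat)))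
      (dX (Nat.mod N 16) (nX N j0) :: dFa N k (Nat.add j0 1)) (dFa N k (Nat.add j0 1))
      (Nat.beq (nX N j0) 0) := rfl
    rw [e]
    by_cases hj : j = j0
    · subst hj
      cases hb : Nat.beq (nX N j) 0
      · exact List.mem_cons_self ..
      · exact absurd (Nat.eq_of_beq_eq_true hb) h3
    · have h4 : fct N j ∈ dFa N k (j0 + 1) := mem_dFa (by omega) (by omega) h3
      cases Nat.beq (nX N j0) 0
      · exact List.mem_cons_of_mem _ h4
      · exact h4

theorem mem_dF {N j : Nat} (hj : j < 32) (h : nX N j ≠ 0) : fct N j ∈ FCS.dF N :=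
  mem_dFa (Nat.zero_le _) (by omega) h

theorem dFa_mem {N : Nat} {X : Fct} : ∀ {k j0 : Nat}, X ∈ dFa N k j0 →
    ∃ j, j < j0 + k ∧ nX N j ≠ 0 ∧ X = fct N j
  | 0, j0, h => absurd h List.not_mem_nil
  | k + 1, j0, h => by
    have e : dFa N (k + 1) j0 = Bool.rec (motive := fun _ => List (List Nat × List (Nat × List Nat)))
      (dX (Nat.mod N 16) (nX N j0) :: dFa N k (Nat.add j0 1)) (dFa N k (Nat.add j0 1))
      (Nat.beq (nX N j0) 0) := rfl
    rw [e] at h
    cases hb : Nat.beq (nX N j0) 0
    · rw [hb] at h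
      rcases List.mem_cons.1 h with h | h
      · exact ⟨j0, by omega, Nat.ne_of_beq_eq_false hb, h⟩
      · obtain ⟨j, h1, h2⟩ := dFa_mem (k := k) (j0 := j0 + 1) h
        exact ⟨j, by omega, h2⟩
    · rw [hb] at h
      obtain ⟨j, h1, h2⟩ := dFa_mem (k := k) (j0 := j0 + 1) h
      exact ⟨j, by omega, h2⟩

theorem dF_mem {N : Nat} {X : Fct} (h : X ∈ FCS.dF N) : ∃ j < 32, nX N j ≠ 0 ∧ X = fct N j := by
  obtain ⟨j, h1, h2⟩ := dFa_mem h
  exact ⟨j, by omega, h2⟩

theorem lwn_get {s : BT Nat} {v w : Nat} (h : lwn s v w = true) : ∀ j < 32, lw1 s v w j = true := by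
  unfold lwn at h
  have key : ∀ n, Nat.rec (motive := fun _ => Bool) true
      (fun j ih => bif lw1 s v w j then ih else false) n = true → ∀ j < n, lw1 s v w j = true := by
    intro n
    induction n with
    | zero => intro _ j hj; omega
    | succ n ih =>
      intro h1 j hj
      have h2 : (bif lw1 s v w n then Nat.rec (motive := fun _ => Bool) true
        (fun j ih => bif lw1 s v w j then ih else false) n else false) = true := h1
      rw [cond_true_iff] at h2
      rcases Nat.lt_succ_iff_lt_or_eq.1 hj with h3 | h3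
      · exact ih h2.2 j h3
      · rw [h3]; exact h2.1
  exact key 32 h

/-- a tested list of patterns -/
theorem gfl_low {s : BT Nat} (hs : FCK.OkT s) {v w : Nat} (h : lwn s v w = true) :
    ∀ X ∈ FCS.dF v, GfR X := by
  intro X hX
  obtain ⟨j, hj, h1, rfl⟩ := dF_mem hX
  have h2 := lwn_get h j hj
  unfold lw1 at h2
  have h3 : Nat.beq (nX v j) 0 = false := by
    rw [← Bool.not_eq_true]
    intro h4
    exact h1 (Nat.eq_of_beq_eq_true h4)
  rw [h3, cond_false] at h2
  unfold lw2 at h2
  cases hb : Nat.beq (Nat.mod (Nat.shiftRight w (Nat.mul 24 j)) 16777216) 0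
  · rw [hb, cond_false] at h2
    unfold lw3 at h2
    obtain ⟨l, hl⟩ : ∃ l, Nat.shiftRight (Nat.pred (Nat.mod (Nat.shiftRight w (Nat.mul 24 j))
      16777216)) 5 = l := ⟨_, rfl⟩
    obtain ⟨i, hi⟩ : ∃ i, Nat.mod (Nat.pred (Nat.mod (Nat.shiftRight w (Nat.mul 24 j)) 16777216)) 32 = i :=
      ⟨_, rfl⟩
    have hi32 : i < 32 := by rw [← hi]; exact Nat.mod_lt _ (by norm_num)
    rw [hl, hi] at h2
    cases hc : Nat.beq (nX (s.getN l) i) 0
    · rw [hc, cond_false, cond_true_iff] at h2
      exact GfR.low (hs.fn l _ (mem_dF hi32 (Nat.ne_of_beq_eq_false hc))) h2.1 h2.2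
    · rw [hc] at h2; simp at h2
  · rw [hb, cond_true] at h2
    exact GfR.ofE h2

theorem lw3_ok {X : Fct} {N i : Nat} (hN : ∀ X ∈ FCS.dF N, Gf X) (hi : i < 32)
    (h : lw3 X N i = true) : GfR X := by
  unfold lw3 at h
  cases hc : Nat.beq (nX N i) 0
  · rw [hc, cond_false, cond_true_iff] at h
    exact GfR.low (hN _ (mem_dF hi (Nat.ne_of_beq_eq_false hc))) h.1 h.2
  · rw [hc] at h; simp at h

/-- a tested list of patterns below one proved list -/
theorem gfl_lw {u v : Nat} (w : Nat) (hu : ∀ X ∈ FCS.dF u, Gf X) (h : lwl u v w = true) :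
    ∀ X ∈ FCS.dF v, GfR X := by
  intro X hX
  obtain ⟨j, hj, h1, rfl⟩ := dF_mem hX
  unfold lwl at h
  have key : ∀ n, Nat.rec (motive := fun _ => Bool) true
      (fun j ih => bif ll1 u v w j then ih else false) n = true → ∀ j < n, ll1 u v w j = true := by
    intro n
    induction n with
    | zero => intro _ j hj; omega
    | succ n ih =>
      intro h1 j hj
      have h2 : (bif ll1 u v w n then Nat.rec (motive := fun _ => Bool) true
        (fun j ih => bif ll1 u v w j then ih else false) n else false) = true := h1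
      rw [cond_true_iff] at h2
      rcases Nat.lt_succ_iff_lt_or_eq.1 hj with h3 | h3
      · exact ih h2.2 j h3
      · rw [h3]; exact h2.1
  have h2 := key 32 h j hj
  unfold ll1 at h2
  have h3 : Nat.beq (nX v j) 0 = false := by
    rw [← Bool.not_eq_true]
    intro h4
    exact h1 (Nat.eq_of_beq_eq_true h4)
  rw [h3, cond_false] at h2
  exact lw3_ok hu (Nat.mod_lt _ (by norm_num)) h2

/-- a tested tree of patterns, every list below one proved list -/
theorem OkT.lw {s : BT Nat} (u : BT Nat) (hs : FCK.OkT s) {t : BT Nat}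
    (h : t.allB (fun k v => lwt s v (u.getN k)) = true) : OkT t := by
  intro p hp
  have h1 : lwt s p.2 (u.getN p.1) = true := BT.allB_sound h p hp
  unfold lwt at h1
  exact gfl_lw _ (hs.fn _) h1

/-- a tested tree of patterns -/
theorem OkT.low {s : BT Nat} (hs : FCK.OkT s) {t u : BT Nat}
    (h : t.allB (fun k v => lwn s v (u.getN k)) = true) : OkT t := by
  intro p hp
  have h1 : lwn s p.2 (u.getN p.1) = true := BT.allB_sound h p hp
  exact gfl_low hs h1

end Pool.FCR
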