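import Pool.Agent.FCR.Lx

/-! # Star check with refined letters: patterns below proved patterns, digits of packed lists -/

namespace Pool.FCR

open Pool.FCS Pool.FC7

/-- the digit pair of the letters of a pattern and of a proved pattern; `f`: full weight -/
def gdT (f : Bool) : Nat := bif f then 0x14000080008000000a00004000400000010000200010000000800010000800000040000840000000002000810000000000100000008100001438008100810000000400408000000000020000004040000a070040804040000000800003000000000040000c0080006000200030202000000000000000000000000000000000000000000000000000000000000000000000000000000000000000008000000000000000400000000000000020000000000000001000000000000000080000000000000005000100000000000280004000000000010000000000000000800000000000000040000000000000002000000000000000100000000000000008000000000000000400000000000000020000000000000001000000000000000080000000000000004000000000000000200000000000000010000000000000000800000000000000040000000000000002000000000000000100000000000000008000000000000000400040000000000020000000000000000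 else 0x4000080008000000200004000400000010000200010000000800010000800000040000840000000002000810000000000100000008100001438008100810000000400408000000000020000004040000a070040804040000000800003000000000040000c0080006000200030202000000000000000000000000000000000000000000000000000000000000000000000000000000000000000008000000000000000400000000000000020000000000000001000000000000000080000000000000005000100000000000280004000000000010000000000000000800000000000000040000000000000002000000000000000100000000000000008000000000000000400000000000000020000000000000001000000000000000080000000000000004000000000000000200000000000000010000000000000000800000000000000040000000000000002000000000000000100000000000000008000000000000000400040000000000020000000000000000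

/-- letterwise test of the digits -/
def lwd (T k : Nat) : Nat → Nat → Bool :=
  Nat.rec (motive := fun _ => Nat → Nat → Bool) (fun _ _ => true)
    (fun _ ih m n => bif Nat.beq m 0 then Nat.beq n 0 else
      bif tb T (Nat.add (Nat.mul 64 (Nat.mod n 64)) (Nat.mod m 64)) then
        ih (Nat.shiftRight m 6) (Nat.shiftRight n 6) else false) k

/-- the weight of the letter with the digit `d`, and 32 times the weight of its mirror image -/
def w2d (d : Nat) : Nat := Nat.land (Nat.shiftRight 0x212142214221224163424242212121634221000000000042212241634221422163212142426363422121224122414242212100 (Nat.mul 8 d)) 255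

/-- the weight of the word `m`, and 32 times the weight of its mirror image -/
def wsm (k : Nat) : Nat → Nat :=
  Nat.rec (motive := fun _ => Nat → Nat) (fun _ => 0)
    (fun _ ih m => bif Nat.beq m 0 then 0 else
      Nat.add (w2d (Nat.mod m 64)) (ih (Nat.shiftRight m 6))) k

/-- no letter of the word `p` is above `45` -/
def g46 (p : Nat) : Bool :=
  Nat.beq (Nat.land (Nat.land p (Nat.lor (Nat.shiftLeft p 1)
    (Nat.land (Nat.land (Nat.shiftLeft p 2) (Nat.shiftLeft p 3))
      (Nat.land (Nat.shiftLeft p 4) (Nat.shiftLeft p 5))))) 0x820820820820) 0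

/-- the test with the weight `t` of the word `m` -/
def lwg (m n t : Nat) : Bool :=
  bif Nat.beq t 198 then lwd (gdT true) 8 m n else
  bif Nat.beq (Nat.mod t 32) (Nat.div t 32) then lwd (gdT false) 8 m n else false

/-- the word `m` is below the word `n` of a proved pattern -/
def lwf (m n : Nat) : Bool :=
  bif Nat.beq m n then bif g46 m then true else lwg m n (wsm 8 m) else lwg m n (wsm 8 m)

noncomputable section

/-- the word `m` where the proved pattern has a neighbour which is only positive -/
def lwp (m : Nat) : Bool :=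
  bif Nat.beq m plu then true else bif Nat.beq m 0 then false else
  bif (dW m).all (fun x => Nat.blt x 50) then bif mok (dW m) then plw (cvw (dW m)) else false
    else false

/-- the test of one neighbour -/
def lwq (m n : Nat) : Bool :=
  bif Nat.beq n 0 then true else bif Nat.beq n plu then lwp m else
  bif Nat.beq m plu then false else lwf m n

/-- the test of the neighbours -/
def lnb (k : Nat) : Nat → Nat → Bool :=
  Nat.rec (motive := fun _ => Nat → Nat → Bool) (fun _ _ => true)
    (fun _ ih y z => bif lwq (Nat.mod y 68719476736) (Nat.mod z 68719476736) then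
      ih (Nat.shiftRight y 36) (Nat.shiftRight z 36) else false) k

/-- the pattern with the number `x` is below the proved pattern with the number `y` -/
def lq3 (D x y : Nat) : Bool :=
  bif Nat.beq y 0 then false else
  bif lwf (Nat.mod x (Nat.pow 64 D)) (Nat.mod y (Nat.pow 64 D)) then
    lnb D (Nat.shiftRight x (Nat.mul 6 D)) (Nat.shiftRight y (Nat.mul 6 D)) else false

/-- the test of the pattern `j` -/
def lq1 (N v w j : Nat) : Bool :=
  bif Nat.beq (nX v j) 0 then true
  else lq3 (Nat.mod N 16) (nX v j) (nX N (Nat.mod (Nat.shiftRight w (Nat.mul 5 j)) 32))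

/-- the test of the list `v` with one proved list `N`; `w`: the numbers of the proved patterns -/
def lql (N v w : Nat) : Bool :=
  bif Nat.beq (Nat.mod v 16) (Nat.mod N 16) then
    Nat.rec (motive := fun _ => Bool) true (fun j ih => bif lq1 N v w j then ih else false) 32
  else false

/-- the test of the list `v`; `p`: the key of the proved list and the numbers -/
def lqt (s : BT Nat) (v p : Nat) : Bool := lql (s.getN (Nat.shiftRight p 160)) v p

end

/-! ## Words -/

/-- the letters of a word, at most `k` -/
noncomputable def dWk (k : Nat) : Nat → List Nat :=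
  Nat.rec (motive := fun _ => Nat → List Nat) (fun _ => [])
    (fun _ ih m => Bool.rec (motive := fun _ => List Nat)
      (Nat.sub (Nat.mod m 64) 1 :: ih (Nat.shiftRight m 6)) [] (Nat.beq m 0)) k

theorem dW_eq (n : Nat) : dW n = dWk 8 n := rfl

theorem dWk_zero {k : Nat} : dWk k 0 = [] := by
  cases k <;> rfl

theorem dWk_succ {k m : Nat} (h : m ≠ 0) :
    dWk (k + 1) m = (m % 64 - 1) :: dWk k (m >>> 6) := by
  have e : dWk (k + 1) m = Bool.rec (motive := fun _ => List Nat)
    (Nat.sub (Nat.mod m 64) 1 :: dWk k (Nat.shiftRight m 6)) [] (Nat.beq m 0) := rfl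
  rw [e]
  cases hb : Nat.beq m 0
  · rfl
  · exact absurd (Nat.eq_of_beq_eq_true hb) h

theorem gd_ok : ∀ f : Bool, ∀ n < 64, ∀ m < 64, tb (gdT f) (64 * n + m) = true →
    1 ≤ m ∧ 1 ≤ n ∧ m - 1 < 50 ∧ gle (cvl f (m - 1)) (n - 1) = true := by
  decide +kernel

theorem lwd_ok {f : Bool} : ∀ {k m n : Nat}, lwd (gdT f) k m n = true →
    Lww ((dWk k m).map (cvl f)) (dWk k n) ∧ ∀ x ∈ dWk k m, x < 50
  | 0, _, _, _ => ⟨List.Forall₂.nil, fun x hx => absurd hx List.not_mem_nil⟩
  | k + 1, m, n, h => by
    have e : lwd (gdT f) (k + 1) m n = (bif Nat.beq m 0 then Nat.beq n 0 else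
      bif tb (gdT f) (64 * (n % 64) + m % 64) then lwd (gdT f) k (m >>> 6) (n >>> 6)
        else false) := rfl
    rw [e] at h
    cases hm : Nat.beq m 0
    · rw [hm, cond_false] at h
      have hm0 := Nat.ne_of_beq_eq_false hm
      rw [cond_true_iff] at h
      obtain ⟨h1, h2⟩ := h
      obtain ⟨g1, g2, g3, g4⟩ := gd_ok f (n % 64) (Nat.mod_lt _ (by norm_num)) (m % 64)
        (Nat.mod_lt _ (by norm_num)) h1
      have hn0 : n ≠ 0 := by
        rintro rfl
        simp at g2
      rw [dWk_succ hm0, dWk_succ hn0]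
      obtain ⟨h3, h4⟩ := lwd_ok h2
      refine ⟨List.Forall₂.cons g4 h3, fun x hx => ?_⟩
      rcases List.mem_cons.1 hx with rfl | hx
      · exact g3
      · exact h4 x hx
    · rw [hm, cond_true] at h
      have hm0 := Nat.eq_of_beq_eq_true hm
      have hn0 := Nat.eq_of_beq_eq_true h
      subst hm0 hn0
      rw [dWk_zero]
      exact ⟨List.Forall₂.nil, fun x hx => absurd hx List.not_mem_nil⟩

theorem w2d_ok : ∀ d < 64, 1 ≤ d → d - 1 < 50 →
    w2d d = wpt (d - 1) + 32 * wpm (d - 1) := by
  decide +kernel

theorem wsm_ok : ∀ {k m : Nat}, (∀ t < k, m >>> (6 * t) ≠ 0 → 1 ≤ (m >>> (6 * t)) % 64) →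
    (∀ x ∈ dWk k m, x < 50) → wsm k m = wpw (dWk k m) + 32 * wmw (dWk k m)
  | 0, _, _, _ => rfl
  | k + 1, m, hd, h => by
    have e : wsm (k + 1) m = (bif Nat.beq m 0 then 0 else
      w2d (m % 64) + wsm k (m >>> 6)) := rfl
    rw [e]
    cases hm : Nat.beq m 0
    · have hm0 := Nat.ne_of_beq_eq_false hm
      have h1 : 1 ≤ m % 64 := by
        have := hd 0 (by omega)
        simp only [Nat.mul_zero, Nat.shiftRight_zero] at this
        exact this hm0
      rw [dWk_succ hm0] at h ⊢
      have h2 := h _ (List.mem_cons_self ..)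
      have h3 : wsm k (m >>> 6) = wpw (dWk k (m >>> 6)) + 32 * wmw (dWk k (m >>> 6)) := by
        refine wsm_ok ?_ fun x hx => h x (List.mem_cons_of_mem _ hx)
        intro t ht
        have h4 := hd (t + 1) (by omega)
        rw [← Nat.shiftRight_add]
        have e6 : 6 + 6 * t = 6 * (t + 1) := by ring
        rw [e6]
        exact h4
      have h5 := w2d_ok (m % 64) (Nat.mod_lt _ (by norm_num)) h1 h2
      have e1 : wpw ((m % 64 - 1) :: dWk k (m >>> 6)) = wpt (m % 64 - 1) + wpw (dWk k (m >>> 6)) := rfl
      have e2 : wmw ((m % 64 - 1) :: dWk k (m >>> 6)) = wpm (m % 64 - 1) + wmw (dWk k (m >>> 6)) := rfl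
      rw [cond_false, h5, h3, e1, e2]
      ring
    · have hm0 := Nat.eq_of_beq_eq_true hm
      subst hm0
      rw [dWk_zero]
      rfl

/-- the digits which the letterwise test has read -/
theorem lwd_dig {f : Bool} : ∀ {k m n : Nat}, lwd (gdT f) k m n = true →
    ∀ t < k, m >>> (6 * t) ≠ 0 → 1 ≤ (m >>> (6 * t)) % 64
  | 0, _, _, _, t, ht, _ => absurd ht (by omega)
  | k + 1, m, n, h, t, ht, h0 => by
    have e : lwd (gdT f) (k + 1) m n = (bif Nat.beq m 0 then Nat.beq n 0 else
      bif tb (gdT f) (64 * (n % 64) + m % 64) then lwd (gdT f) k (m >>> 6) (n >>> 6)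
        else false) := rfl
    rw [e] at h
    cases hm : Nat.beq m 0
    · rw [hm, cond_false, cond_true_iff] at h
      obtain ⟨h1, h2⟩ := h
      obtain ⟨g1, -⟩ := gd_ok f (n % 64) (Nat.mod_lt _ (by norm_num)) (m % 64)
        (Nat.mod_lt _ (by norm_num)) h1
      cases t with
      | zero => simpa using g1
      | succ t =>
        have e6 : 6 * (t + 1) = 6 + 6 * t := by ring
        rw [e6, Nat.shiftRight_add] at h0 ⊢
        exact lwd_dig h2 t (by omega) h0
    · have hm0 := Nat.eq_of_beq_eq_true hm
      subst hm0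
      simp at h0

/-- the letters of the word `m` -/
theorem mem_dWk : ∀ {k m x : Nat}, x ∈ dWk k m → ∃ t < k, x = (m >>> (6 * t)) % 64 - 1
  | 0, _, _, h => absurd h List.not_mem_nil
  | k + 1, m, x, h => by
    by_cases hm : m = 0
    · subst hm
      rw [dWk_zero] at h
      exact absurd h List.not_mem_nil
    · rw [dWk_succ hm] at h
      rcases List.mem_cons.1 h with rfl | h
      · exact ⟨0, by omega, by simp⟩
      · obtain ⟨t, ht, h1⟩ := mem_dWk h
        refine ⟨t + 1, by omega, ?_⟩
        have e6 : 6 * (t + 1) = 6 + 6 * t := by ring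
        rw [e6, Nat.shiftRight_add]
        exact h1

theorem dig47 : ∀ d < 64, 47 ≤ d → (d.testBit 5 = true ∧ (d.testBit 4 = true ∨
    (d.testBit 3 = true ∧ d.testBit 2 = true ∧ d.testBit 1 = true ∧ d.testBit 0 = true))) := by
  decide

theorem g46_ok {m : Nat} (h : g46 m = true) : ∀ x ∈ dWk 8 m, x < 46 := by
  intro x hx
  obtain ⟨t, ht, rfl⟩ := mem_dWk hx
  by_contra hc
  have h1 := Nat.eq_of_beq_eq_true h
  have hd : ∀ i < 6, ((m >>> (6 * t)) % 64).testBit i = m.testBit (6 * t + i) := by
    intro i hi
    have e64 : (64 : Nat) = 2 ^ 6 := by norm_num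
    rw [e64, Nat.testBit_mod_two_pow, Nat.testBit_shiftRight, decide_eq_true hi, Bool.true_and]
  obtain ⟨h5, h6⟩ := dig47 _ (Nat.mod_lt (m >>> (6 * t)) (by norm_num)) (by omega)
  rw [hd 5 (by norm_num)] at h5
  rw [hd 4 (by norm_num), hd 3 (by norm_num), hd 2 (by norm_num), hd 1 (by norm_num),
    hd 0 (by norm_num)] at h6
  have hH : ∀ t < 8, Nat.testBit 0x820820820820 (6 * t + 5) = true := by decide
  have h2 : Nat.testBit (m &&& ((m <<< 1) ||| (((m <<< 2) &&& (m <<< 3)) &&&
      ((m <<< 4) &&& (m <<< 5)))) &&& 0x820820820820) (6 * t + 5) = true := by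
    simp only [Nat.testBit_and, Nat.testBit_or, Nat.testBit_shiftLeft]
    rw [hH t ht, h5]
    have e4 : 6 * t + 5 - 1 = 6 * t + 4 := by omega
    have e3 : 6 * t + 5 - 2 = 6 * t + 3 := by omega
    have e2 : 6 * t + 5 - 3 = 6 * t + 2 := by omega
    have e1 : 6 * t + 5 - 4 = 6 * t + 1 := by omega
    have e0 : 6 * t + 5 - 5 = 6 * t + 0 := by omega
    rw [e4, e3, e2, e1, e0]
    rcases h6 with h6 | ⟨a3, a2, a1, a0⟩
    · rw [h6]; simp
    · rw [a3, a2, a1, a0]; simp
  have h3 : (m &&& ((m <<< 1) ||| (((m <<< 2) &&& (m <<< 3)) &&&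
      ((m <<< 4) &&& (m <<< 5)))) &&& 0x820820820820) = 0 := h1
  rw [h3] at h2
  simp at h2

/-! ## Relations of words -/

/-- the word `s` of a refined pattern is below the word `p` of a proved pattern, and so are the
mirror images -/
def Wr (s p : List Nat) : Prop :=
  s.length = p.length ∧
  (∀ u, (∀ x ∈ u, Ol x) → FCS.lew lleR s (rl u) = true → FCS.lew lle p u = true) ∧
  (∀ u, (∀ x ∈ u, Ol x) → FCS.lew lleR (mirw lm s) (rl u) = true →
    FCS.lew lle (mirw lm p) u = true)

theorem wr_self {s : List Nat} (h : ∀ x ∈ s, x < 46) : Wr s s := by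
  have h1 : ∀ l : List Nat, (∀ x ∈ l, x < 46) → (l.all fun a => Nat.blt a 46) = true := by
    intro l hl
    rw [List.all_eq_true]
    intro x hx
    rw [Nat.blt_eq]
    exact hl x hx
  have h2 : ∀ g < 46, lm g < 46 := by decide +kernel
  have h3 : ∀ x ∈ mirw lm s, x < 46 := by
    intro x hx
    unfold mirw at hx
    rw [List.mem_reverse] at hx
    obtain ⟨y, hy, rfl⟩ := List.mem_map.1 hx
    exact h2 y (h y hy)
  refine ⟨rfl, fun u hu h4 => ?_, fun u hu h4 => ?_⟩
  · rwa [lew_rl (h1 _ h) hu] at h4
  · rwa [lew_rl (h1 _ h3) hu] at h4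

theorem wr_low {s p : List Nat} (h : Lww (cvw s) p) (hs : ∀ x ∈ s, x < 50)
    (hm : mok s = true) : Wr s p := by
  refine ⟨?_, fun u hu h4 => ?_, fun u hu h4 => ?_⟩
  · have := h.length
    unfold cvw at this
    rwa [List.length_map] at this
  · exact h.lew (fun x hx => (hu x hx).1) (lew_cv hu h4)
  · have h5 := lew_cv hu h4
    rw [cvw_mir hs hm] at h5
    exact (h.mir (cvw_lt hs)).lew (fun x hx => (hu x hx).1) h5

theorem lwg_ok {m n t : Nat} (ht : t = wsm 8 m) (h : lwg m n t = true) : Wr (dW m) (dW n) := by
  have key : ∀ f : Bool, lwd (gdT f) 8 m n = true →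
      (t = 198 ∧ f = true ∨ t ≠ 198 ∧ f = false ∧ t % 32 = t / 32) → Wr (dW m) (dW n) := by
    intro f hf hc
    obtain ⟨h1, h2⟩ := lwd_ok hf
    have h3 := wsm_ok (lwd_dig hf) h2
    rw [← ht] at h3
    have e1 : wpw (dWk 8 m) < 32 := by
      have : ∀ {k m : Nat}, (∀ x ∈ dWk k m, x < 50) → wpw (dWk k m) ≤ 3 * k := by
        intro k
        induction k with
        | zero => intro m _; exact Nat.zero_le _
        | succ k ih =>
          intro m hx
          by_cases hm : m = 0
          · rw [hm, dWk_zero]; exact Nat.zero_le _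
          · rw [dWk_succ hm] at hx ⊢
            have a1 := ih fun x hx' => hx x (List.mem_cons_of_mem _ hx')
            have a2 : wpt (m % 64 - 1) ≤ 3 := by
              unfold wpt
              exact Nat.and_le_right
            have a3 : wpw ((m % 64 - 1) :: dWk k (m >>> 6)) =
              wpt (m % 64 - 1) + wpw (dWk k (m >>> 6)) := rfl
            omega
      have := this h2
      omega
    have hmw : wmw (dWk 8 m) = wpw (dWk 8 m) ∧ Nat.beq (wpw (dWk 8 m)) 6 = f := by
      rcases hc with ⟨c1, c2⟩ | ⟨c1, c2, c3⟩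
      · have a1 : wpw (dWk 8 m) = 6 := by omega
        refine ⟨by omega, ?_⟩
        rw [a1, c2]; rfl
      · have a1 : wmw (dWk 8 m) = wpw (dWk 8 m) := by omega
        refine ⟨a1, ?_⟩
        rw [c2, ← Bool.not_eq_true]
        intro h7
        have := Nat.eq_of_beq_eq_true h7
        omega
    have h4 : Lww (cvw (dW m)) (dW n) := by
      unfold cvw
      rw [dW_eq, dW_eq, hmw.2]
      exact h1
    refine wr_low h4 h2 ?_
    unfold mok
    rw [dW_eq, hmw.1]
    exact Nat.beq_refl _
  unfold lwg at h
  cases hb : Nat.beq t 198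
  · rw [hb, cond_false, cond_true_iff] at h
    exact key false h.2 (Or.inr ⟨Nat.ne_of_beq_eq_false hb, rfl, Nat.eq_of_beq_eq_true h.1⟩)
  · rw [hb, cond_true] at h
    exact key true h (Or.inl ⟨Nat.eq_of_beq_eq_true hb, rfl⟩)

theorem lwf_ok {m n : Nat} (h : lwf m n = true) : Wr (dW m) (dW n) := by
  unfold lwf at h
  cases hb : Nat.beq m n
  · rw [hb, cond_false] at h
    exact lwg_ok rfl h
  · rw [hb, cond_true] at h
    cases hg : g46 m
    · rw [hg, cond_false] at h
      exact lwg_ok rfl h
    · have e := Nat.eq_of_beq_eq_true hb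
      subst e
      exact wr_self (g46_ok hg)

/-- the word `s` of a neighbour where the proved pattern has a neighbour which is only positive -/
def Wp (s : List Nat) : Prop := s = [] ∨ (s ≠ [] ∧
  (∀ u, (∀ x ∈ u, Ol x) → FCS.lew lleR s (rl u) = true → Pls lsol u) ∧
  (∀ u, (∀ x ∈ u, Ol x) → FCS.lew lleR (mirw lm s) (rl u) = true → Pls lsol u))

theorem dW_ne {m : Nat} (h : m ≠ 0) : dW m ≠ [] := by
  rw [dW_eq, dWk_succ h]
  exact List.cons_ne_nil _ _

theorem map_ne {s : List Nat} (h : s ≠ []) (f : Nat → Nat) : s.map f ≠ [] := by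
  intro h1
  exact h (List.map_eq_nil_iff.1 h1)

theorem lwp_ok {m : Nat} (hp : m ≠ plu) (h : lwp m = true) : m ≠ 0 ∧ Wp (dW m) := by
  unfold lwp at h
  have h1 : Nat.beq m plu = false := by
    rw [← Bool.not_eq_true]; intro h2; exact hp (Nat.eq_of_beq_eq_true h2)
  rw [h1, cond_false] at h
  cases hb : Nat.beq m 0
  · rw [hb, cond_false, cond_true_iff, cond_true_iff] at h
    obtain ⟨h2, h3, h4⟩ := h
    have hm := Nat.ne_of_beq_eq_false hb
    rw [List.all_eq_true] at h2
    have h2' : ∀ x ∈ dW m, x < 50 := fun x hx => by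
      have := h2 x hx
      rwa [Nat.blt_eq] at this
    have h5 := plw_iff h4
    have h6 := dW_ne hm
    have h7 := cvw_lt h2'
    refine ⟨hm, Or.inr ⟨h6, fun u hu h8 => ?_, fun u hu h8 => ?_⟩⟩
    · exact h5.pls (map_ne h6 _) (fun x hx => (hu x hx).1) (lew_cv hu h8)
    · have h9 := lew_cv hu h8
      rw [cvw_mir h2' h3] at h9
      refine (h5.mir h7).pls ?_ (fun x hx => (hu x hx).1) h9
      unfold mirw
      intro h10
      exact map_ne h6 _ (List.map_eq_nil_iff.1 (List.reverse_eq_nil_iff.1 h10))
  · rw [hb] at h; simp at h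

/-- the neighbour `q` of the proved pattern and the neighbour `p` of the refined pattern -/
def Nr1 (p q : Nat × List Nat) : Prop :=
  p.1 = q.1 ∧ (q.2 = [] → Wp p.2) ∧ (q.2 ≠ [] → p.2 ≠ [] ∧ Wr p.2 q.2)

theorem dnb_succ {k s y : Nat} : dnb (k + 1) s y =
    if y % 68719476736 = 0 then dnb k (s + 1) (y >>> 36)
    else if y % 68719476736 = plu then (s, []) :: dnb k (s + 1) (y >>> 36)
    else (s, dW (y % 68719476736)) :: dnb k (s + 1) (y >>> 36) := by
  have e : dnb (k + 1) s y = Bool.rec (motive := fun _ => List (Nat × List Nat))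
      (Bool.rec (motive := fun _ => List (Nat × List Nat))
        ((s, dW (y % 68719476736)) :: dnb k (s + 1) (y >>> 36))
        ((s, []) :: dnb k (s + 1) (y >>> 36))
        (Nat.beq (y % 68719476736) plu))
      (dnb k (s + 1) (y >>> 36))
      (Nat.beq (y % 68719476736) 0) := rfl
  rw [e]
  by_cases h0 : y % 68719476736 = 0
  · rw [if_pos h0, h0]
    rfl
  · rw [if_neg h0]
    have h1 : Nat.beq (y % 68719476736) 0 = false := by
      rw [← Bool.not_eq_true]; intro h2; exact h0 (Nat.eq_of_beq_eq_true h2)
    rw [h1]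
    by_cases h2 : y % 68719476736 = plu
    · rw [if_pos h2, h2, Nat.beq_refl]
    · rw [if_neg h2]
      have h3 : Nat.beq (y % 68719476736) plu = false := by
        rw [← Bool.not_eq_true]; intro h4; exact h2 (Nat.eq_of_beq_eq_true h4)
      rw [h3]

theorem lnb_ok : ∀ {k s y z : Nat}, lnb k y z = true → ∀ q ∈ dnb k s z, ∃ p ∈ dnb k s y, Nr1 p q
  | 0, _, _, _, _, q, hq => absurd hq List.not_mem_nil
  | k + 1, s, y, z, h, q, hq => by
    have e : lnb (k + 1) y z = (bif lwq (y % 68719476736) (z % 68719476736) then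
      lnb k (y >>> 36) (z >>> 36) else false) := rfl
    rw [e, cond_true_iff] at h
    obtain ⟨h1, h2⟩ := h
    have ih : ∀ q ∈ dnb k (s + 1) (z >>> 36), ∃ p ∈ dnb (k + 1) s y, Nr1 p q := by
      intro q hq
      obtain ⟨p, hp, h3⟩ := lnb_ok h2 q hq
      refine ⟨p, ?_, h3⟩
      rw [dnb_succ]
      split_ifs
      · exact hp
      · exact List.mem_cons_of_mem _ hp
      · exact List.mem_cons_of_mem _ hp
    rw [dnb_succ] at hq
    unfold lwq at h1
    by_cases hz : z % 68719476736 = 0
    · rw [if_pos hz] at hq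
      exact ih q hq
    · rw [if_neg hz] at hq
      have b1 : Nat.beq (z % 68719476736) 0 = false := by
        rw [← Bool.not_eq_true]; intro h4; exact hz (Nat.eq_of_beq_eq_true h4)
      rw [b1, cond_false] at h1
      by_cases hz2 : z % 68719476736 = plu
      · rw [if_pos hz2] at hq
        rw [hz2, Nat.beq_refl, cond_true] at h1
        rcases List.mem_cons.1 hq with rfl | hq
        · by_cases hy : y % 68719476736 = plu
          · refine ⟨(s, []), ?_, rfl, fun _ => Or.inl rfl, fun h5 => absurd rfl h5⟩
            rw [dnb_succ, if_neg (by rw [hy]; decide), if_pos hy]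
            exact List.mem_cons_self ..
          · obtain ⟨h6, h7⟩ := lwp_ok hy h1
            refine ⟨(s, dW (y % 68719476736)), ?_, rfl, fun _ => h7, fun h5 => absurd rfl h5⟩
            rw [dnb_succ, if_neg h6, if_neg hy]
            exact List.mem_cons_self ..
        · exact ih q hq
      · rw [if_neg hz2] at hq
        have b2 : Nat.beq (z % 68719476736) plu = false := by
          rw [← Bool.not_eq_true]; intro h4; exact hz2 (Nat.eq_of_beq_eq_true h4)
        rw [b2, cond_false] at h1
        rcases List.mem_cons.1 hq with rfl | hq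
        · have hy : y % 68719476736 ≠ plu := by
            intro hy
            rw [hy, Nat.beq_refl] at h1
            simp at h1
          have b3 : Nat.beq (y % 68719476736) plu = false := by
            rw [← Bool.not_eq_true]; intro h4; exact hy (Nat.eq_of_beq_eq_true h4)
          rw [b3, cond_false] at h1
          have h6 := lwf_ok h1
          have hz3 := dW_ne hz
          have hy0 : y % 68719476736 ≠ 0 := by
            intro h7
            have h8 := h6.1
            rw [h7] at h8
            have h9 : dW 0 = [] := by rw [dW_eq, dWk_zero]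
            rw [h9] at h8
            exact hz3 (List.eq_nil_of_length_eq_zero h8.symm)
          refine ⟨(s, dW (y % 68719476736)), ?_, rfl, fun h5 => absurd h5 hz3,
            fun _ => ⟨dW_ne hy0, h6⟩⟩
          rw [dnb_succ, if_neg hy0, if_neg hy]
          exact List.mem_cons_self ..
        · exact ih q hq

/-- a refined pattern below a proved pattern does not occur -/
theorem gfR_of {S P : Fct} (h : Gf P) (h1 : Wr S.1 P.1)
    (h2 : ∀ q ∈ P.2, ∃ p ∈ S.2, Nr1 p q) : GfR S := by
  intro D Y hY
  have hlt := lt_Y hY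
  have hn := hY.nox _ h
  obtain ⟨l1, l2, l3⟩ := h1
  rw [lmr_eq]
  refine ⟨fun e he => hn.1 e ?_, fun e he => hn.2 e ?_⟩
  · obtain ⟨m1, m2⟩ := he
    refine ⟨l2 _ (hlt _) m1, fun q hq => ?_⟩
    obtain ⟨p, hp, a1, a2, a3⟩ := h2 q hq
    obtain ⟨m3, m4⟩ := m2 p hp
    rw [a1] at m3 m4
    constructor
    · intro h6
      rcases a2 h6 with h7 | ⟨h7, h8, -⟩
      · exact (pls_rl (hlt _)).1 (m3 h7)
      · exact h8 _ (hlt _) (m4 h7)
    · intro h6
      obtain ⟨h7, -, h8, -⟩ := a3 h6
      exact h8 _ (hlt _) (m4 h7)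
  · obtain ⟨m1, m2⟩ := he
    refine ⟨l3 _ (hlt _) m1, fun q hq => ?_⟩
    obtain ⟨q, hq', rfl⟩ := List.mem_map.1 hq
    obtain ⟨p, hp, a1, a2, a3⟩ := h2 q hq'
    obtain ⟨m3, m4⟩ := m2 ((S.1.length - p.1) % S.1.length, mirw lm p.2)
      (List.mem_map.2 ⟨p, hp, rfl⟩)
    rw [l1, a1] at m3 m4
    constructor
    · intro h6
      have h7 : q.2 = [] := by
        have h8 : (q.2.map lm).reverse = [] := h6
        rw [List.reverse_eq_nil_iff, List.map_eq_nil_iff] at h8
        exact h8
      rcases a2 h7 with h8 | ⟨h8, -, h9⟩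
      · exact (pls_rl (hlt _)).1 (m3 (by show mirw lm p.2 = []; rw [h8]; rfl))
      · refine h9 _ (hlt _) (m4 ?_)
        intro h10
        have h11 : (p.2.map lm).reverse = [] := h10
        rw [List.reverse_eq_nil_iff, List.map_eq_nil_iff] at h11
        exact h8 h11
    · intro h6
      have h7 : q.2 ≠ [] := by
        intro h8
        exact h6 (by show mirw lm q.2 = []; rw [h8]; rfl)
      obtain ⟨h8, -, -, h9⟩ := a3 h7
      refine h9 _ (hlt _) (m4 ?_)
      intro h10
      have h11 : (p.2.map lm).reverse = [] := h10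
      rw [List.reverse_eq_nil_iff, List.map_eq_nil_iff] at h11
      exact h8 h11

/-- a tested list of patterns below one proved list -/
theorem gfl_lq {u v : Nat} (w : Nat) (hu : ∀ X ∈ FCS.dF u, Gf X) (h : lql u v w = true) :
    ∀ X ∈ FCS.dF v, GfR X := by
  intro X hX
  obtain ⟨j, hj, h1, rfl⟩ := dF_mem hX
  unfold lql at h
  rw [cond_true_iff] at h
  obtain ⟨hD, h⟩ := h
  have hD' := Nat.eq_of_beq_eq_true hD
  have key : ∀ n, Nat.rec (motive := fun _ => Bool) true
      (fun j ih => bif lq1 u v w j then ih else false) n = true → ∀ j < n, lq1 u v w j = true := by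
    intro n
    induction n with
    | zero => intro _ j hj; omega
    | succ n ih =>
      intro h1 j hj
      have h2 : (bif lq1 u v w n then Nat.rec (motive := fun _ => Bool) true
        (fun j ih => bif lq1 u v w j then ih else false) n else false) = true := h1
      rw [cond_true_iff] at h2
      rcases Nat.lt_succ_iff_lt_or_eq.1 hj with h3 | h3
      · exact ih h2.2 j h3
      · rw [h3]; exact h2.1
  have h2 := key 32 h j hj
  unfold lq1 at h2
  have h3 : Nat.beq (nX v j) 0 = false := by
    rw [← Bool.not_eq_true]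
    intro h4
    exact h1 (Nat.eq_of_beq_eq_true h4)
  rw [h3, cond_false] at h2
  obtain ⟨i, hi⟩ : ∃ i, Nat.mod (Nat.shiftRight w (Nat.mul 5 j)) 32 = i := ⟨_, rfl⟩
  have hi32 : i < 32 := by rw [← hi]; exact Nat.mod_lt _ (by norm_num)
  rw [hi] at h2
  unfold lq3 at h2
  cases hc : Nat.beq (nX u i) 0
  · rw [hc, cond_false, cond_true_iff] at h2
    obtain ⟨h4, h5⟩ := h2
    have h6 : Gf (fct u i) := hu _ (mem_dF hi32 (Nat.ne_of_beq_eq_false hc))
    refine gfR_of h6 ?_ ?_
    · show Wr (dW (Nat.mod (nX v j) (Nat.pow 64 (Nat.mod v 16))))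
        (dW (Nat.mod (nX u i) (Nat.pow 64 (Nat.mod u 16))))
      rw [hD']
      exact lwf_ok h4
    · show ∀ q ∈ dnb (Nat.mod u 16) 0 (Nat.shiftRight (nX u i) (Nat.mul 6 (Nat.mod u 16))),
        ∃ p ∈ dnb (Nat.mod v 16) 0 (Nat.shiftRight (nX v j) (Nat.mul 6 (Nat.mod v 16))), Nr1 p q
      rw [hD']
      exact lnb_ok h5
  · rw [hc] at h2; simp at h2

/-- a tested tree of patterns, every list below one proved list -/
theorem OkT.lq {s : BT Nat} (u : BT Nat) (hs : FCK.OkT s) {t : BT Nat}
    (h : t.allB (fun k v => lqt s v (u.getN k)) = true) : OkT t := by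
  intro p hp
  have h1 : lqt s p.2 (u.getN p.1) = true := BT.allB_sound h p hp
  unfold lqt at h1
  exact gfl_lq _ (hs.fn _) h1

end Pool.FCR
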