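import Pool.Agent.FCR.Ly

/-! # Star check with refined letters: patterns below proved patterns, order over the letters which
occur -/

namespace Pool.FCR

open Pool.FCS Pool.FC7

/-- the letters which the letter `a` of a pattern allows and which occur are allowed by `b` -/
def glz (a b : Nat) : Bool :=
  tb 0x200004000400000010000200020000000800010000800000040000800040000002000042000000000100040800000000008000000408000021c00428040800000020020400000000001000000202000010380214020200000004000018000000000200006004000000010001810100000000000000000000000000000000000000000000000000000000000000000000000000000000000000000400000000000000020000000000000001000000000000000080000000000000004000000000000000280008000000000014000200000000000800000000000000040000000000000002000000000000000100000000000000008000000000000000400000000000000020000000000000001000000000000000080000000000000004000000000000000200000000000000010000000000000000800000000000000040000000000000002000000000000000100000000000000008000000000000000400000000000000020000000000000001 (Nat.add (Nat.mul 64 b) a)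

/-- the digit pair of the letters of a pattern and of a proved pattern; `f`: full weight -/
def gdZ (f : Bool) : Nat := bif f then 0x14000080008000000a00004000400000010000200010000000800010000800000040000840000000002000810000000000100000008100001438008500810000000400408000000000020000004040000a070042804040000000800003000000000040000c0080006000200030202000000000000000000000000000000000000000000000000000000000000000000000000000000000000000008000000000000000400000000000000020000000000000001000000000000000080000000000000005000100000000000280004000000000010000000000000000800000000000000040000000000000002000000000000000100000000000000008000000000000000400000000000000020000000000000001000000000000000080000000000000004000000000000000200000000000000010000000000000000800000000000000040000000000000002000000000000000100000000000000008000000000000000400040000000000020000000000000000 else 0x4000080008000000200004000400000010000200010000000800010000800000040000840000000002000810000000000100000008100001438008500810000000400408000000000020000004040000a070042804040000000800003000000000040000c0080006000200030202000000000000000000000000000000000000000000000000000000000000000000000000000000000000000008000000000000000400000000000000020000000000000001000000000000000080000000000000005000100000000000280004000000000010000000000000000800000000000000040000000000000002000000000000000100000000000000008000000000000000400000000000000020000000000000001000000000000000080000000000000004000000000000000200000000000000010000000000000000800000000000000040000000000000002000000000000000100000000000000008000000000000000400040000000000020000000000000000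

/-- the test with the weight `t` of the word `m` -/
def lzg (m n t : Nat) : Bool :=
  bif Nat.beq t 198 then lwd (gdZ true) 8 m n else
  bif Nat.beq (Nat.mod t 32) (Nat.div t 32) then lwd (gdZ false) 8 m n else false

/-- the word `m` is below the word `n` of a proved pattern -/
def lzf (m n : Nat) : Bool :=
  bif Nat.beq m n then bif g46 m then true else lzg m n (wsm 8 m) else lzg m n (wsm 8 m)

noncomputable section

/-- the test of one neighbour -/
def lzq (m n : Nat) : Bool :=
  bif Nat.beq n 0 then true else bif Nat.beq n plu then lwp m else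
  bif Nat.beq m plu then false else lzf m n

/-- the test of the neighbours -/
def lnz (k : Nat) : Nat → Nat → Bool :=
  Nat.rec (motive := fun _ => Nat → Nat → Bool) (fun _ _ => true)
    (fun _ ih y z => bif lzq (Nat.mod y 68719476736) (Nat.mod z 68719476736) then
      ih (Nat.shiftRight y 36) (Nat.shiftRight z 36) else false) k

/-- the pattern with the number `x` is below the proved pattern with the number `y` -/
def lz3 (D x y : Nat) : Bool :=
  bif Nat.beq y 0 then false else
  bif lzf (Nat.mod x (Nat.pow 64 D)) (Nat.mod y (Nat.pow 64 D)) then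
    lnz D (Nat.shiftRight x (Nat.mul 6 D)) (Nat.shiftRight y (Nat.mul 6 D)) else false

/-- the test of the pattern `j` -/
def lz1 (N v w j : Nat) : Bool :=
  bif Nat.beq (nX v j) 0 then true
  else lz3 (Nat.mod N 16) (nX v j) (nX N (Nat.mod (Nat.shiftRight w (Nat.mul 5 j)) 32))

/-- the test of the list `v` with one proved list `N`; `w`: the numbers of the proved patterns -/
def lzl (N v w : Nat) : Bool :=
  bif Nat.beq (Nat.mod v 16) (Nat.mod N 16) then
    Nat.rec (motive := fun _ => Bool) true (fun j ih => bif lz1 N v w j then ih else false) 32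
  else false

/-- the test of the list `v`; `p`: the key of the proved list and the numbers -/
def lzt (s : BT Nat) (v p : Nat) : Bool := lzl (s.getN (Nat.shiftRight p 160)) v p

end

theorem glz_okb : ∀ b < 50, ∀ a < 50, ∀ x < 27,
    (!glz a b || (!lal x || (!lle a x || lle b x))) = true := by
  decide +kernel

theorem glz_ok (b : Nat) (hb : b < 50) (a : Nat) (ha : a < 50) (h : glz a b = true) (x : Nat)
    (hx : x < 27) (hl : lal x = true) (h1 : lle a x = true) : lle b x = true := by
  have h2 := glz_okb b hb a ha x hx
  rw [h, hl, h1] at h2
  simpa using h2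

theorem glz_lt {a b : Nat} (ha : a < 64) (h : glz a b = true) : b < 50 := by
  by_contra hb
  unfold glz tb at h
  have h1 : Nat.shiftRight 0x200004000400000010000200020000000800010000800000040000800040000002000042000000000100040800000000008000000408000021c00428040800000020020400000000001000000202000010380214020200000004000018000000000200006004000000010001810100000000000000000000000000000000000000000000000000000000000000000000000000000000000000000400000000000000020000000000000001000000000000000080000000000000004000000000000000280008000000000014000200000000000800000000000000040000000000000002000000000000000100000000000000008000000000000000400000000000000020000000000000001000000000000000080000000000000004000000000000000200000000000000010000000000000000800000000000000040000000000000002000000000000000100000000000000008000000000000000400000000000000020000000000000001 (Nat.add (Nat.mul 64 b) a) = 0 := by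
    show _ >>> _ = 0
    rw [Nat.shiftRight_eq_div_pow]
    apply Nat.div_eq_of_lt
    calc 0x200004000400000010000200020000000800010000800000040000800040000002000042000000000100040800000000008000000408000021c00428040800000020020400000000001000000202000010380214020200000004000018000000000200006004000000010001810100000000000000000000000000000000000000000000000000000000000000000000000000000000000000000400000000000000020000000000000001000000000000000080000000000000004000000000000000280008000000000014000200000000000800000000000000040000000000000002000000000000000100000000000000008000000000000000400000000000000020000000000000001000000000000000080000000000000004000000000000000200000000000000010000000000000000800000000000000040000000000000002000000000000000100000000000000008000000000000000400000000000000020000000000000001 < 2 ^ 3200 := by decide +kernel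
      _ ≤ 2 ^ (64 * b + a) := Nat.pow_le_pow_right (by norm_num) (by omega)
  rw [h1] at h
  simp at h

theorem glz_le {a b x : Nat} (hx : lal x = true) (h : glz a b = true) (ha : lle a x = true) :
    lle b x = true := by
  have hx' := (lal_ol hx).1
  have h1 := lle_lt50 hx' ha
  exact glz_ok b (glz_lt (by omega) h) a h1 h x hx' hx ha

theorem glz_lm : ∀ b < 50, ∀ a < 50, glz a b = true → glz (lm a) (lm b) = true := by
  decide +kernel

/-- letterwise `glz` as a relation -/
def Lwz (g p : List Nat) : Prop := List.Forall₂ (fun a b => glz a b = true) g p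

theorem Lwz.lew {g p u : List Nat} (h : Lwz g p) (hu : ∀ x ∈ u, lal x = true)
    (hg : FCS.lew lle g u = true) : FCS.lew lle p u = true := by
  induction h generalizing u with
  | nil => exact hg
  | @cons a b g p h1 _ ih =>
    cases u with
    | nil => simp [FCS.lew] at hg
    | cons x u =>
      have h2 : (lle a x && FCS.lew lle g u) = true := hg
      rw [Bool.and_eq_true] at h2
      show (lle b x && FCS.lew lle p u) = true
      rw [glz_le (hu x (List.mem_cons_self ..)) h1 h2.1,
        ih (fun y hy => hu y (List.mem_cons_of_mem _ hy)) h2.2]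
      rfl

theorem Lwz.length {g p : List Nat} (h : Lwz g p) : g.length = p.length := h.length_eq

theorem Lwz.mir {g p : List Nat} (h : Lwz g p) (hg : ∀ x ∈ g, x < 50) :
    Lwz (mirw lm g) (mirw lm p) := by
  unfold mirw Lwz
  rw [List.forall₂_reverse_iff]
  induction h with
  | nil => exact List.Forall₂.nil
  | @cons a b g p h1 _ ih =>
    have ha := hg a (List.mem_cons_self ..)
    exact List.Forall₂.cons (glz_lm b (glz_lt (by omega) h1) a ha h1)
      (ih fun x hx => hg x (List.mem_cons_of_mem _ hx))

theorem ol_lal {u : List Nat} (hu : ∀ x ∈ u, lal x = true) : ∀ x ∈ u, Ol x :=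
  fun x hx => lal_ol (hu x hx)

theorem lal_Y {D : Type} {Y : FCS.Sys D} (hY : SyG Y) (e : D) : ∀ x ∈ Y.W e, lal x = true := by
  intro x hx
  have h0 : Y.W e ≠ [] := by
    intro h
    rw [h] at hx
    simp at hx
  exact (glf_w0 (hY.gl e h0)).2.2.2.2.1 x hx

theorem gdz_ok : ∀ f : Bool, ∀ n < 64, ∀ m < 64, tb (gdZ f) (64 * n + m) = true →
    1 ≤ m ∧ 1 ≤ n ∧ m - 1 < 50 ∧ glz (cvl f (m - 1)) (n - 1) = true := by
  decide +kernel

theorem lzd_ok {f : Bool} : ∀ {k m n : Nat}, lwd (gdZ f) k m n = true →
    Lwz ((dWk k m).map (cvl f)) (dWk k n) ∧ ∀ x ∈ dWk k m, x < 50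
  | 0, _, _, _ => ⟨List.Forall₂.nil, fun x hx => absurd hx List.not_mem_nil⟩
  | k + 1, m, n, h => by
    have e : lwd (gdZ f) (k + 1) m n = (bif Nat.beq m 0 then Nat.beq n 0 else
      bif tb (gdZ f) (64 * (n % 64) + m % 64) then lwd (gdZ f) k (m >>> 6) (n >>> 6)
        else false) := rfl
    rw [e] at h
    cases hm : Nat.beq m 0
    · rw [hm, cond_false] at h
      have hm0 := Nat.ne_of_beq_eq_false hm
      rw [cond_true_iff] at h
      obtain ⟨h1, h2⟩ := h
      obtain ⟨g1, g2, g3, g4⟩ := gdz_ok f (n % 64) (Nat.mod_lt _ (by norm_num)) (m % 64)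
        (Nat.mod_lt _ (by norm_num)) h1
      have hn0 : n ≠ 0 := by
        rintro rfl
        simp at g2
      rw [dWk_succ hm0, dWk_succ hn0]
      obtain ⟨h3, h4⟩ := lzd_ok h2
      refine ⟨List.Forall₂.cons g4 h3, fun x hx => ?_⟩
      rcases List.mem_cons.1 hx with rfl | hx
      · exact g3
      · exact h4 x hx
    · rw [hm, cond_true] at h
      have hm0 := Nat.eq_of_beq_eq_true hm
      have hn0 := Nat.eq_of_beq_eq_true h
      subst hm0 hn0
      rw [dWk_zero]
      exact ⟨List.Forall₂.nil, fun x hx => absurd hx List.not_mem_nil⟩

/-- the digits which the letterwise test has read -/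
theorem lzd_dig {f : Bool} : ∀ {k m n : Nat}, lwd (gdZ f) k m n = true →
    ∀ t < k, m >>> (6 * t) ≠ 0 → 1 ≤ (m >>> (6 * t)) % 64
  | 0, _, _, _, t, ht, _ => absurd ht (by omega)
  | k + 1, m, n, h, t, ht, h0 => by
    have e : lwd (gdZ f) (k + 1) m n = (bif Nat.beq m 0 then Nat.beq n 0 else
      bif tb (gdZ f) (64 * (n % 64) + m % 64) then lwd (gdZ f) k (m >>> 6) (n >>> 6)
        else false) := rfl
    rw [e] at h
    cases hm : Nat.beq m 0
    · rw [hm, cond_false, cond_true_iff] at h
      obtain ⟨h1, h2⟩ := h
      obtain ⟨g1, -⟩ := gdz_ok f (n % 64) (Nat.mod_lt _ (by norm_num)) (m % 64)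
        (Nat.mod_lt _ (by norm_num)) h1
      cases t with
      | zero => simpa using g1
      | succ t =>
        have e6 : 6 * (t + 1) = 6 + 6 * t := by ring
        rw [e6, Nat.shiftRight_add] at h0 ⊢
        exact lzd_dig h2 t (by omega) h0
    · have hm0 := Nat.eq_of_beq_eq_true hm
      subst hm0
      simp at h0

/-- the word `s` of a refined pattern is below the word `p` of a proved pattern, and so are the
mirror images -/
def Wz (s p : List Nat) : Prop :=
  s.length = p.length ∧
  (∀ u, (∀ x ∈ u, lal x = true) → FCS.lew lleR s (rl u) = true → FCS.lew lle p u = true) ∧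
  (∀ u, (∀ x ∈ u, lal x = true) → FCS.lew lleR (mirw lm s) (rl u) = true →
    FCS.lew lle (mirw lm p) u = true)

theorem wz_self {s : List Nat} (h : ∀ x ∈ s, x < 46) : Wz s s := by
  have h1 : ∀ l : List Nat, (∀ x ∈ l, x < 46) → (l.all fun a => Nat.blt a 46) = true := by
    intro l hl
    rw [List.all_eq_true]
    intro x hx
    rw [Nat.blt_eq]
    exact hl x hx
  have h2 : ∀ g < 46, lm g < 46 := by decide +kernel
  have h3 : ∀ x ∈ mirw lm s, x < 46 := by
    intro x hx
    unfold mirw at hx
    rw [List.mem_reverse] at hx
    obtain ⟨y, hy, rfl⟩ := List.mem_map.1 hx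
    exact h2 y (h y hy)
  refine ⟨rfl, fun u hu h4 => ?_, fun u hu h4 => ?_⟩
  · rwa [lew_rl (h1 _ h) (ol_lal hu)] at h4
  · rwa [lew_rl (h1 _ h3) (ol_lal hu)] at h4

theorem wz_low {s p : List Nat} (h : Lwz (cvw s) p) (hs : ∀ x ∈ s, x < 50)
    (hm : mok s = true) : Wz s p := by
  refine ⟨?_, fun u hu h4 => ?_, fun u hu h4 => ?_⟩
  · have := h.length
    unfold cvw at this
    rwa [List.length_map] at this
  · exact h.lew hu (lew_cv (ol_lal hu) h4)
  · have h5 := lew_cv (ol_lal hu) h4
    rw [cvw_mir hs hm] at h5
    exact (h.mir (cvw_lt hs)).lew hu h5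

theorem lzg_ok {m n t : Nat} (ht : t = wsm 8 m) (h : lzg m n t = true) : Wz (dW m) (dW n) := by
  have key : ∀ f : Bool, lwd (gdZ f) 8 m n = true →
      (t = 198 ∧ f = true ∨ t ≠ 198 ∧ f = false ∧ t % 32 = t / 32) → Wz (dW m) (dW n) := by
    intro f hf hc
    obtain ⟨h1, h2⟩ := lzd_ok hf
    have h3 := wsm_ok (lzd_dig hf) h2
    rw [← ht] at h3
    have e1 : wpw (dWk 8 m) < 32 := by
      have : ∀ {k m : Nat}, (∀ x ∈ dWk k m, x < 50) → wpw (dWk k m) ≤ 3 * k := by
        intro k
        induction k with
        | zero => intro m _; exact Nat.zero_le _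
        | succ k ih =>
          intro m hx
          by_cases hm : m = 0
          · rw [hm, dWk_zero]; exact Nat.zero_le _
          · rw [dWk_succ hm] at hx ⊢
            have a1 := ih fun x hx' => hx x (List.mem_cons_of_mem _ hx')
            have a2 : wpt (m % 64 - 1) ≤ 3 := by
              unfold wpt
              exact Nat.and_le_right
            have a3 : wpw ((m % 64 - 1) :: dWk k (m >>> 6)) =
              wpt (m % 64 - 1) + wpw (dWk k (m >>> 6)) := rfl
            omega
      have := this h2
      omega
    have hmw : wmw (dWk 8 m) = wpw (dWk 8 m) ∧ Nat.beq (wpw (dWk 8 m)) 6 = f := by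
      rcases hc with ⟨c1, c2⟩ | ⟨c1, c2, c3⟩
      · have a1 : wpw (dWk 8 m) = 6 := by omega
        refine ⟨by omega, ?_⟩
        rw [a1, c2]; rfl
      · have a1 : wmw (dWk 8 m) = wpw (dWk 8 m) := by omega
        refine ⟨a1, ?_⟩
        rw [c2, ← Bool.not_eq_true]
        intro h7
        have := Nat.eq_of_beq_eq_true h7
        omega
    have h4 : Lwz (cvw (dW m)) (dW n) := by
      unfold cvw
      rw [dW_eq, dW_eq, hmw.2]
      exact h1
    refine wz_low h4 h2 ?_
    unfold mok
    rw [dW_eq, hmw.1]
    exact Nat.beq_refl _
  unfold lzg at h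
  cases hb : Nat.beq t 198
  · rw [hb, cond_false, cond_true_iff] at h
    exact key false h.2 (Or.inr ⟨Nat.ne_of_beq_eq_false hb, rfl, Nat.eq_of_beq_eq_true h.1⟩)
  · rw [hb, cond_true] at h
    exact key true h (Or.inl ⟨Nat.eq_of_beq_eq_true hb, rfl⟩)

theorem lzf_ok {m n : Nat} (h : lzf m n = true) : Wz (dW m) (dW n) := by
  unfold lzf at h
  cases hb : Nat.beq m n
  · rw [hb, cond_false] at h
    exact lzg_ok rfl h
  · rw [hb, cond_true] at h
    cases hg : g46 m
    · rw [hg, cond_false] at h
      exact lzg_ok rfl h
    · have e := Nat.eq_of_beq_eq_true hb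
      subst e
      exact wz_self (g46_ok hg)

/-- the neighbour `q` of the proved pattern and the neighbour `p` of the refined pattern -/
def Nz1 (p q : Nat × List Nat) : Prop :=
  p.1 = q.1 ∧ (q.2 = [] → Wp p.2) ∧ (q.2 ≠ [] → p.2 ≠ [] ∧ Wz p.2 q.2)

theorem lnz_ok : ∀ {k s y z : Nat}, lnz k y z = true → ∀ q ∈ dnb k s z, ∃ p ∈ dnb k s y, Nz1 p q
  | 0, _, _, _, _, q, hq => absurd hq List.not_mem_nil
  | k + 1, s, y, z, h, q, hq => by
    have e : lnz (k + 1) y z = (bif lzq (y % 68719476736) (z % 68719476736) then
      lnz k (y >>> 36) (z >>> 36) else false) := rfl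
    rw [e, cond_true_iff] at h
    obtain ⟨h1, h2⟩ := h
    have ih : ∀ q ∈ dnb k (s + 1) (z >>> 36), ∃ p ∈ dnb (k + 1) s y, Nz1 p q := by
      intro q hq
      obtain ⟨p, hp, h3⟩ := lnz_ok h2 q hq
      refine ⟨p, ?_, h3⟩
      rw [dnb_succ]
      split_ifs
      · exact hp
      · exact List.mem_cons_of_mem _ hp
      · exact List.mem_cons_of_mem _ hp
    rw [dnb_succ] at hq
    unfold lzq at h1
    by_cases hz : z % 68719476736 = 0
    · rw [if_pos hz] at hq
      exact ih q hq
    · rw [if_neg hz] at hq
      have b1 : Nat.beq (z % 68719476736) 0 = false := by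
        rw [← Bool.not_eq_true]; intro h4; exact hz (Nat.eq_of_beq_eq_true h4)
      rw [b1, cond_false] at h1
      by_cases hz2 : z % 68719476736 = plu
      · rw [if_pos hz2] at hq
        rw [hz2, Nat.beq_refl, cond_true] at h1
        rcases List.mem_cons.1 hq with rfl | hq
        · by_cases hy : y % 68719476736 = plu
          · refine ⟨(s, []), ?_, rfl, fun _ => Or.inl rfl, fun h5 => absurd rfl h5⟩
            rw [dnb_succ, if_neg (by rw [hy]; decide), if_pos hy]
            exact List.mem_cons_self ..
          · obtain ⟨h6, h7⟩ := lwp_ok hy h1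
            refine ⟨(s, dW (y % 68719476736)), ?_, rfl, fun _ => h7, fun h5 => absurd rfl h5⟩
            rw [dnb_succ, if_neg h6, if_neg hy]
            exact List.mem_cons_self ..
        · exact ih q hq
      · rw [if_neg hz2] at hq
        have b2 : Nat.beq (z % 68719476736) plu = false := by
          rw [← Bool.not_eq_true]; intro h4; exact hz2 (Nat.eq_of_beq_eq_true h4)
        rw [b2, cond_false] at h1
        rcases List.mem_cons.1 hq with rfl | hq
        · have hy : y % 68719476736 ≠ plu := by
            intro hy
            rw [hy, Nat.beq_refl] at h1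
            simp at h1
          have b3 : Nat.beq (y % 68719476736) plu = false := by
            rw [← Bool.not_eq_true]; intro h4; exact hy (Nat.eq_of_beq_eq_true h4)
          rw [b3, cond_false] at h1
          have h6 := lzf_ok h1
          have hz3 := dW_ne hz
          have hy0 : y % 68719476736 ≠ 0 := by
            intro h7
            have h8 := h6.1
            rw [h7] at h8
            have h9 : dW 0 = [] := by rw [dW_eq, dWk_zero]
            rw [h9] at h8
            exact hz3 (List.eq_nil_of_length_eq_zero h8.symm)
          refine ⟨(s, dW (y % 68719476736)), ?_, rfl, fun h5 => absurd h5 hz3,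
            fun _ => ⟨dW_ne hy0, h6⟩⟩
          rw [dnb_succ, if_neg hy0, if_neg hy]
          exact List.mem_cons_self ..
        · exact ih q hq

/-- a refined pattern below a proved pattern does not occur -/
theorem gfR_oz {S P : Fct} (h : Gf P) (h1 : Wz S.1 P.1)
    (h2 : ∀ q ∈ P.2, ∃ p ∈ S.2, Nz1 p q) : GfR S := by
  intro D Y hY
  have hlt := lt_Y hY
  have hla := lal_Y hY
  have hn := hY.nox _ h
  obtain ⟨l1, l2, l3⟩ := h1
  rw [lmr_eq]
  refine ⟨fun e he => hn.1 e ?_, fun e he => hn.2 e ?_⟩
  · obtain ⟨m1, m2⟩ := he
    refine ⟨l2 _ (hla _) m1, fun q hq => ?_⟩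
    obtain ⟨p, hp, a1, a2, a3⟩ := h2 q hq
    obtain ⟨m3, m4⟩ := m2 p hp
    rw [a1] at m3 m4
    constructor
    · intro h6
      rcases a2 h6 with h7 | ⟨h7, h8, -⟩
      · exact (pls_rl (hlt _)).1 (m3 h7)
      · exact h8 _ (hlt _) (m4 h7)
    · intro h6
      obtain ⟨h7, -, h8, -⟩ := a3 h6
      exact h8 _ (hla _) (m4 h7)
  · obtain ⟨m1, m2⟩ := he
    refine ⟨l3 _ (hla _) m1, fun q hq => ?_⟩
    obtain ⟨q, hq', rfl⟩ := List.mem_map.1 hq
    obtain ⟨p, hp, a1, a2, a3⟩ := h2 q hq'
    obtain ⟨m3, m4⟩ := m2 ((S.1.length - p.1) % S.1.length, mirw lm p.2)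
      (List.mem_map.2 ⟨p, hp, rfl⟩)
    rw [l1, a1] at m3 m4
    constructor
    · intro h6
      have h7 : q.2 = [] := by
        have h8 : (q.2.map lm).reverse = [] := h6
        rw [List.reverse_eq_nil_iff, List.map_eq_nil_iff] at h8
        exact h8
      rcases a2 h7 with h8 | ⟨h8, -, h9⟩
      · exact (pls_rl (hlt _)).1 (m3 (by show mirw lm p.2 = []; rw [h8]; rfl))
      · refine h9 _ (hlt _) (m4 ?_)
        intro h10
        have h11 : (p.2.map lm).reverse = [] := h10
        rw [List.reverse_eq_nil_iff, List.map_eq_nil_iff] at h11
        exact h8 h11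
    · intro h6
      have h7 : q.2 ≠ [] := by
        intro h8
        exact h6 (by show mirw lm q.2 = []; rw [h8]; rfl)
      obtain ⟨h8, -, -, h9⟩ := a3 h7
      refine h9 _ (hla _) (m4 ?_)
      intro h10
      have h11 : (p.2.map lm).reverse = [] := h10
      rw [List.reverse_eq_nil_iff, List.map_eq_nil_iff] at h11
      exact h8 h11

/-- a tested list of patterns below one proved list -/
theorem gfl_lz {u v : Nat} (w : Nat) (hu : ∀ X ∈ FCS.dF u, Gf X) (h : lzl u v w = true) :
    ∀ X ∈ FCS.dF v, GfR X := by
  intro X hX
  obtain ⟨j, hj, h1, rfl⟩ := dF_mem hX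
  unfold lzl at h
  rw [cond_true_iff] at h
  obtain ⟨hD, h⟩ := h
  have hD' := Nat.eq_of_beq_eq_true hD
  have key : ∀ n, Nat.rec (motive := fun _ => Bool) true
      (fun j ih => bif lz1 u v w j then ih else false) n = true → ∀ j < n, lz1 u v w j = true := by
    intro n
    induction n with
    | zero => intro _ j hj; omega
    | succ n ih =>
      intro h1 j hj
      have h2 : (bif lz1 u v w n then Nat.rec (motive := fun _ => Bool) true
        (fun j ih => bif lz1 u v w j then ih else false) n else false) = true := h1
      rw [cond_true_iff] at h2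
      rcases Nat.lt_succ_iff_lt_or_eq.1 hj with h3 | h3
      · exact ih h2.2 j h3
      · rw [h3]; exact h2.1
  have h2 := key 32 h j hj
  unfold lz1 at h2
  have h3 : Nat.beq (nX v j) 0 = false := by
    rw [← Bool.not_eq_true]
    intro h4
    exact h1 (Nat.eq_of_beq_eq_true h4)
  rw [h3, cond_false] at h2
  obtain ⟨i, hi⟩ : ∃ i, Nat.mod (Nat.shiftRight w (Nat.mul 5 j)) 32 = i := ⟨_, rfl⟩
  have hi32 : i < 32 := by rw [← hi]; exact Nat.mod_lt _ (by norm_num)
  rw [hi] at h2
  unfold lz3 at h2
  cases hc : Nat.beq (nX u i) 0
  · rw [hc, cond_false, cond_true_iff] at h2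
    obtain ⟨h4, h5⟩ := h2
    have h6 : Gf (fct u i) := hu _ (mem_dF hi32 (Nat.ne_of_beq_eq_false hc))
    refine gfR_oz h6 ?_ ?_
    · show Wz (dW (Nat.mod (nX v j) (Nat.pow 64 (Nat.mod v 16))))
        (dW (Nat.mod (nX u i) (Nat.pow 64 (Nat.mod u 16))))
      rw [hD']
      exact lzf_ok h4
    · show ∀ q ∈ dnb (Nat.mod u 16) 0 (Nat.shiftRight (nX u i) (Nat.mul 6 (Nat.mod u 16))),
        ∃ p ∈ dnb (Nat.mod v 16) 0 (Nat.shiftRight (nX v j) (Nat.mul 6 (Nat.mod v 16))), Nz1 p q
      rw [hD']
      exact lnz_ok h5
  · rw [hc] at h2; simp at h2

/-- a tested tree of patterns, every list below one proved list -/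
theorem OkT.lz {s : BT Nat} (u : BT Nat) (hs : FCK.OkT s) {t : BT Nat}
    (h : t.allB (fun k v => lzt s v (u.getN k)) = true) : OkT t := by
  intro p hp
  have h1 : lzt s p.2 (u.getN p.1) = true := BT.allB_sound h p hp
  unfold lzt at h1
  exact gfl_lz _ (hs.fn _) h1

end Pool.FCR
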